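import Pool.Agent.Q239.U.Lattes

/-!
# Almost-powers over all number fields
-/

set_option autoImplicit false

namespace Pool.Agent.Q239.U

open NumberField Height MvPolynomial Pool.Agent.Q239.NF

theorem Form2.almost (s : Form2) (he : 1 ≤ s.e) {p q r : ℕ} {δ : ℝ} (hδ : 0 < δ) (hp : p ≠ 0)
    (hq : q ≠ 0) (hr : r ≠ 0)
    (hs : ∃ k : ℝ, 0 ≤ k ∧ ∀ n : ℕ, 2 ≤ n → ∃ C : ℝ, ∀ (K : Type) [Field K] [NumberField K]
      (x : Fin 3 → K), Good x → x 2 = 1 → Good ((mapOf s.F s.G)^[n] x) →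
      ∃ u v w a b c : K, u ≠ 0 ∧ v ≠ 0 ∧ w ≠ 0 ∧
      (mapOf s.F s.G)^[n] x = ![u * a ^ p, v * b ^ q, w * c ^ r] ∧
      logHeight ![1, u, v, w] ≤ C * dg K + k * logHeight x) :
    uabc (fun K _ _ => Almost (K := K) p q r δ) → uabc (fun _ _ _ => Set.univ) := by
  obtain ⟨k, hk, hs⟩ := hs
  have hD1 : (1 : ℝ) < (s.e : ℝ) + 1 := by
    have : (1 : ℝ) ≤ s.e := by exact_mod_cast he
    linarith
  obtain ⟨n0, hn0⟩ := pow_unbounded_of_one_lt (2 * k / δ) hD1
  set n := n0 + 2 with hn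
  have hn1 : 2 * k / δ ≤ ((s.e : ℝ) + 1) ^ n := by
    refine hn0.le.trans ?_
    exact pow_le_pow_right₀ hD1.le (by omega)
  set M : UMap := s.toUMap.iter n with hM
  have hMD : M.D = ((s.e : ℝ) + 1) ^ n := by rw [hM, UMap.iter_D]; rfl
  obtain ⟨C0, hC0⟩ := hs n (by omega)
  have hMC := M.hC
  have hMT : ∀ (K : Type) [Field K] [NumberField K] (x : Fin 3 → K),
      M.T x = (mapOf s.F s.G)^[n] x := by
    intro K _ _ x
    rw [hM, UMap.iter_T]
    rfl
  refine uabc_of M _ (2 / δ * ((δ / 2 + k) * M.C + |C0|)) fun K _ _ x hx hx2 hT hB => ?_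
  have hdg := dg_pos K
  rw [hMT] at hT hB ⊢
  obtain ⟨u, v, w, a, b, c, hu, hv, hw, hTx, hh⟩ := hC0 K x hx hx2 hT
  have ha : a ≠ 0 := by
    rintro rfl
    apply hT.2 0
    rw [hTx]; simp [hp]
  have hb : b ≠ 0 := by
    rintro rfl
    apply hT.2 1
    rw [hTx]; simp [hq]
  have hc : c ≠ 0 := by
    rintro rfl
    apply hT.2 2
    rw [hTx]; simp [hr]
  refine ⟨u, v, w, a, b, c, hu, hv, hw, ha, hb, hc, hTx, hh.trans ?_⟩
  set H : ℝ := logHeight ((mapOf s.F s.G)^[n] x) with hH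
  have hkD : k ≤ δ / 2 * M.D := by
    have := (div_le_iff₀ hδ).1 hn1
    rw [hMD]; nlinarith
  have hDpos : 1 ≤ M.D := M.hD
  have hh0 := logHeight_nonneg x
  have hH0 : 0 ≤ H := logHeight_nonneg _
  have hC1 : C0 * dg K ≤ |C0| * dg K := mul_le_mul_of_nonneg_right (le_abs_self C0) hdg.le
  have hMCd : 0 ≤ M.C * dg K := by positivity
  -- k h(x) ≤ δ/2 (H + C dg) + k C dg
  have h1 : k * logHeight x ≤ δ / 2 * H + (δ / 2 + k) * (M.C * dg K) := by
    rcases M.prop K x hx with h | ⟨_, _, h3, _⟩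
    · have : k * logHeight x ≤ k * (M.C * dg K) := mul_le_mul_of_nonneg_left h hk
      have h4 : 0 ≤ δ / 2 * H := by positivity
      have h5 : 0 ≤ δ / 2 * (M.C * dg K) := by positivity
      linarith
    · rw [hMT] at h3
      have h4 : k * logHeight x ≤ δ / 2 * M.D * logHeight x := mul_le_mul_of_nonneg_right hkD hh0
      have h5 : δ / 2 * (M.D * logHeight x) ≤ δ / 2 * (H + M.C * dg K) :=
        mul_le_mul_of_nonneg_left h3 (by positivity)
      have h6 : 0 ≤ k * (M.C * dg K) := by positivity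
      nlinarith
  have h2 : (δ / 2 + k) * (M.C * dg K) + |C0| * dg K ≤ δ / 2 * H := by
    have h3 : δ / 2 * (2 / δ * ((δ / 2 + k) * M.C + |C0|) * dg K) ≤ δ / 2 * H :=
      mul_le_mul_of_nonneg_left hB (by positivity)
    have h4 : δ / 2 * (2 / δ * ((δ / 2 + k) * M.C + |C0|) * dg K) =
        (δ / 2 + k) * (M.C * dg K) + |C0| * dg K := by
      field_simp
    rw [h4] at h3
    exact h3
  have h5 : (δ / 2 + k) * (M.C * dg K) + |C0| * dg K ≤ δ / 2 * H := h2
  linarith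

section shapes

variable {K : Type} [Field K] [NumberField K]

lemma it33 (x : Fin 3 → K) (hx : x 2 = -(x 0 + x 1)) (n : ℕ) :
    (mapOf form33.F form33.G)^[n] x = T33^[n] x ∧
      (T33^[n] x) 2 = -((T33^[n] x) 0 + (T33^[n] x) 1) := by
  induction n with
  | zero => exact ⟨rfl, hx⟩
  | succ n ih =>
    rw [Function.iterate_succ_apply', Function.iterate_succ_apply', ih.1]
    set y := T33^[n] x with hy
    have hy2 := ih.2
    have h2 : ev (pr y) (2 : P2) = 2 := ev_num _ 2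
    have e0 : ev (pr y) form33.F = y 0 * (y 1 - y 2) ^ 3 := by
      show ev (pr y) (X 0 * (X 0 + 2 * X 1) ^ 3) = _
      simp only [ev_mul, ev_add, ev_pow, ev_X, h2]
      show y 0 * (y 0 + 2 * y 1) ^ 3 = _
      rw [hy2]; ring
    have e1 : ev (pr y) form33.G = y 1 * (y 2 - y 0) ^ 3 := by
      show ev (pr y) (-(X 1 * (2 * X 0 + X 1) ^ 3)) = _
      simp only [ev_neg, ev_mul, ev_add, ev_pow, ev_X, h2]
      show -(y 1 * (2 * y 0 + y 1) ^ 3) = _
      rw [hy2]; ring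
    have e2 : -(y 0 * (y 1 - y 2) ^ 3 + y 1 * (y 2 - y 0) ^ 3) = y 2 * (y 0 - y 1) ^ 3 := by
      rw [hy2]; ring
    refine ⟨?_, ?_⟩
    · unfold mapOf
      rw [e0, e1, e2]
      rfl
    · show y 2 * (y 0 - y 1) ^ 3 = -(y 0 * (y 1 - y 2) ^ 3 + y 1 * (y 2 - y 0) ^ 3)
      rw [e2]

lemma it24 (x : Fin 3 → K) (hx : x 2 = -(x 0 + x 1)) (n : ℕ) :
    (mapOf form24.F form24.G)^[n] x = T24^[n] x ∧
      (T24^[n] x) 2 = -((T24^[n] x) 0 + (T24^[n] x) 1) := by
  induction n with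
  | zero => exact ⟨rfl, hx⟩
  | succ n ih =>
    rw [Function.iterate_succ_apply', Function.iterate_succ_apply', ih.1]
    set y := T24^[n] x with hy
    have hy2 := ih.2
    have h2 : ev (pr y) (2 : P2) = 2 := ev_num _ 2
    have h4 : ev (pr y) (4 : P2) = 4 := ev_num _ 4
    have e0 : ev (pr y) form24.F = -(y 1 - y 2) ^ 2 := by
      show ev (pr y) (-(X 0 + 2 * X 1) ^ 2) = _
      simp only [ev_neg, ev_mul, ev_add, ev_pow, ev_X, h2]
      show -(y 0 + 2 * y 1) ^ 2 = _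
      rw [hy2]; ring
    have e1 : ev (pr y) form24.G = -4 * y 1 * y 2 := by
      show ev (pr y) (4 * (X 1 * (X 0 + X 1))) = _
      simp only [ev_neg, ev_mul, ev_add, ev_pow, ev_X, h4]
      show 4 * (y 1 * (y 0 + y 1)) = _
      rw [hy2]; ring
    have e2 : -(-(y 1 - y 2) ^ 2 + -4 * y 1 * y 2) = y 0 ^ 2 := by
      rw [hy2]; ring
    refine ⟨?_, ?_⟩
    · unfold mapOf
      rw [e0, e1, e2]
      rfl
    · show y 0 ^ 2 = -(-(y 1 - y 2) ^ 2 + -4 * y 1 * y 2)
      rw [e2]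

lemma it26 (x : Fin 3 → K) (hx : x 2 = -(x 0 + x 1)) (n : ℕ) :
    (mapOf form26.F form26.G)^[n] x = T26^[n] x ∧
      (T26^[n] x) 2 = -((T26^[n] x) 0 + (T26^[n] x) 1) := by
  induction n with
  | zero => exact ⟨rfl, hx⟩
  | succ n ih =>
    rw [Function.iterate_succ_apply', Function.iterate_succ_apply', ih.1]
    set y := T26^[n] x with hy
    have hy2 := ih.2
    have h8 : ev (pr y) (8 : P2) = 8 := ev_num _ 8
    have h9 : ev (pr y) (9 : P2) = 9 := ev_num _ 9
    have h4 : ev (pr y) (4 : P2) = 4 := ev_num _ 4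
    have h3 : ev (pr y) (3 : P2) = 3 := ev_num _ 3
    have e0 : ev (pr y) form26.F = -(y 0 * (y 1 - 8 * y 2) ^ 2) := by
      show ev (pr y) (-(X 0 * (8 * X 0 + 9 * X 1) ^ 2)) = _
      simp only [ev_neg, ev_mul, ev_add, ev_pow, ev_X, h8, h9]
      show -(y 0 * (8 * y 0 + 9 * y 1) ^ 2) = _
      rw [hy2]; ring
    have e1 : ev (pr y) form26.G = -(y 1 + 4 * y 2) ^ 3 := by
      show ev (pr y) ((4 * X 0 + 3 * X 1) ^ 3) = _
      simp only [ev_mul, ev_add, ev_pow, ev_X, h4, h3]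
      show (4 * y 0 + 3 * y 1) ^ 3 = _
      rw [hy2]; ring
    have e2 : -(-(y 0 * (y 1 - 8 * y 2) ^ 2) + -(y 1 + 4 * y 2) ^ 3) = 27 * y 2 * y 1 ^ 2 := by
      rw [hy2]; ring
    refine ⟨?_, ?_⟩
    · unfold mapOf
      rw [e0, e1, e2]
      rfl
    · show 27 * y 2 * y 1 ^ 2 = -(-(y 0 * (y 1 - 8 * y 2) ^ 2) + -(y 1 + 4 * y 2) ^ 3)
      rw [e2]

/-- the height of the vector of coefficients -/
lemma coef_height {x : Fin 3 → K} (hx2 : x 2 = 1) {u v w : K} (N : ℕ) {L : ℝ} (hL : 1 ≤ L)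
    (hf : ∀ (V : FinitePlace K) (m : ℝ), (∀ i, V (x i) ≤ m) → 1 ≤ m →
      V u ≤ m ^ N ∧ V v ≤ m ^ N ∧ V w ≤ m ^ N)
    (hi : ∀ (V : InfinitePlace K) (m : ℝ), (∀ i, V (x i) ≤ m) → 1 ≤ m →
      V u ≤ L * m ^ N ∧ V v ≤ L * m ^ N ∧ V w ≤ L * m ^ N) :
    logHeight ![1, u, v, w] ≤ Real.log L * dg K + N * logHeight x := by
  have hx0 : x ≠ 0 := fun h => by
    rw [h] at hx2
    exact zero_ne_one hx2
  have hy0 : (![1, u, v, w] : Fin 4 → K) ≠ 0 := fun h => one_ne_zero (congrFun h 0)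
  have := height_cmp (x := (![1, u, v, w] : Fin 4 → K)) (y := x) hy0 hx0 1 N 1 one_ne_zero
    (L := L) (by linarith) (fun V => by
      simp only [Nat.cast_one, map_one, one_mul, pow_one]
      have hmi : ∀ i, V (x i) ≤ ⨆ i, V (x i) := fun i => le_sup' V.1 x i
      have hm1 : 1 ≤ ⨆ i, V (x i) := by
        have := hmi 2
        rwa [hx2, map_one] at this
      obtain ⟨h1, h2, h3⟩ := hf V _ hmi hm1
      apply ciSup_le
      intro i
      fin_cases i
      · show V 1 ≤ _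
        rw [map_one]
        exact one_le_pow₀ hm1
      · exact h1
      · exact h2
      · exact h3) (fun V => by
      rw [pow_one]
      have hmi : ∀ i, V (x i) ≤ ⨆ i, V (x i) := fun i => le_sup' V.1 x i
      have hm1 : 1 ≤ ⨆ i, V (x i) := by
        have := hmi 2
        rwa [hx2, map_one] at this
      obtain ⟨h1, h2, h3⟩ := hi V _ hmi hm1
      apply ciSup_le
      intro i
      fin_cases i
      · show V 1 ≤ _
        rw [map_one]
        have := one_le_pow₀ hm1 (n := N)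
        nlinarith
      · exact h1
      · exact h2
      · exact h3)
  simp only [Nat.cast_one, one_mul, Real.log_one, add_zero] at this
  linarith

end shapes

theorem ualmost33 {δ : ℝ} (hδ : 0 < δ) :
    uabc (fun K _ _ => Almost (K := K) 3 3 3 δ) → uabc (fun _ _ _ => Set.univ) := by
  refine form33.almost (by show 1 ≤ 3; norm_num) hδ (by norm_num) (by norm_num) (by norm_num)
    ⟨1, by norm_num, fun n _ => ⟨0, fun K _ _ x hx hx2 _ => ?_⟩⟩
  obtain ⟨w, hw⟩ := shape33 x n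
  refine ⟨x 0, x 1, x 2, w 0, w 1, w 2, hx.2 0, hx.2 1, hx.2 2, ?_, ?_⟩
  · rw [(it33 x (third hx) n).1]
    exact vec3 (hw 0) (hw 1) (hw 2)
  · have := coef_height (x := x) hx2 (u := x 0) (v := x 1) (w := x 2) 1 (L := 1) le_rfl
      (fun V m hm _ => by rw [pow_one]; exact ⟨hm 0, hm 1, hm 2⟩)
      (fun V m hm _ => by rw [pow_one, one_mul]; exact ⟨hm 0, hm 1, hm 2⟩)
    simpa using this

theorem ualmost24 {δ : ℝ} (hδ : 0 < δ) :
    uabc (fun K _ _ => Almost (K := K) 2 4 4 δ) → uabc (fun _ _ _ => Set.univ) := by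
  refine form24.almost (by show 1 ≤ 1; norm_num) hδ (by norm_num) (by norm_num) (by norm_num)
    ⟨(4 : ℕ), by norm_num, fun n hn => ?_⟩
  obtain ⟨m, rfl⟩ : ∃ m, n = m + 2 := ⟨n - 2, by omega⟩
  refine ⟨Real.log (4 ^ (m + 2)), fun K _ _ x hx hx2 _ => ?_⟩
  obtain ⟨a, b, c, h0, h1, h2⟩ := shape24 x m
  refine ⟨-1, (-4) ^ (m + 2) * (x 1 * x 2 * x 0 ^ 2), 1, a, b, c, by norm_num, ?_, one_ne_zero,
    ?_, ?_⟩
  · exact mul_ne_zero (pow_ne_zero _ (by norm_num)) (mul_ne_zero (mul_ne_zero (hx.2 1) (hx.2 2))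
      (pow_ne_zero _ (hx.2 0)))
  · rw [(it24 x (third hx) (m + 2)).1]
    exact vec3 h0 h1 h2
  · refine coef_height (x := x) hx2 4 (L := 4 ^ (m + 2)) (one_le_pow₀ (by norm_num)) ?_ ?_
    · intro V M hM hM1
      have h4 : V ((-4 : K)) ≤ 1 := by
        have := int_le V (K := K) (-4)
        simpa using this
      have hn : V (-1 : K) ≤ 1 := by
        have := int_le V (K := K) (-1)
        simpa using this
      have hM4 : 1 ≤ M ^ 4 := one_le_pow₀ hM1
      have z0 : 0 ≤ V (x 0) := V.1.nonneg _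
      have z1 : 0 ≤ V (x 1) := V.1.nonneg _
      have z2 : 0 ≤ V (x 2) := V.1.nonneg _
      have z4 : 0 ≤ V (-4 : K) := V.1.nonneg _
      refine ⟨hn.trans hM4, ?_, by rw [map_one]; exact hM4⟩
      rw [map_mul, map_mul, map_mul, map_pow, map_pow]
      calc V (-4 : K) ^ (m + 2) * (V (x 1) * V (x 2) * V (x 0) ^ 2)
          ≤ 1 * (M * M * M ^ 2) := by
            gcongr
            · exact pow_le_one₀ z4 h4
            · exact hM 1
            · exact hM 2
            · exact hM 0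
        _ = M ^ 4 := by ring
    · intro V M hM hM1
      have h4 : V ((-4 : K)) = 4 := by
        have := inf_int V (K := K) (-4)
        simpa using this
      have hn : V (-1 : K) = 1 := by
        have := inf_int V (K := K) (-1)
        simpa using this
      have hM4 : 1 ≤ M ^ 4 := one_le_pow₀ hM1
      have hL : (1 : ℝ) ≤ 4 ^ (m + 2) := one_le_pow₀ (by norm_num)
      have z0 : 0 ≤ V (x 0) := V.1.nonneg _
      have z1 : 0 ≤ V (x 1) := V.1.nonneg _
      have z2 : 0 ≤ V (x 2) := V.1.nonneg _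
      refine ⟨by rw [hn]; nlinarith, ?_, by rw [map_one]; nlinarith⟩
      rw [map_mul, map_mul, map_mul, map_pow, map_pow, h4]
      calc (4 : ℝ) ^ (m + 2) * (V (x 1) * V (x 2) * V (x 0) ^ 2)
          ≤ 4 ^ (m + 2) * (M * M * M ^ 2) := by
            gcongr
            · exact hM 1
            · exact hM 2
            · exact hM 0
        _ = 4 ^ (m + 2) * M ^ 4 := by ring

theorem ualmost26 {δ : ℝ} (hδ : 0 < δ) :
    uabc (fun K _ _ => Almost (K := K) 2 3 6 δ) → uabc (fun _ _ _ => Set.univ) := by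
  refine form26.almost (by show 1 ≤ 2; norm_num) hδ (by norm_num) (by norm_num) (by norm_num)
    ⟨(3 : ℕ), by norm_num, fun n hn => ?_⟩
  obtain ⟨m, rfl⟩ : ∃ m, n = m + 1 := ⟨n - 1, by omega⟩
  refine ⟨Real.log (27 ^ (m + 1)), fun K _ _ x hx hx2 _ => ?_⟩
  obtain ⟨a, b, c, h0, h1, h2⟩ := shape26 x m
  refine ⟨(-1) ^ (m + 1) * x 0, -1, 27 ^ (m + 1) * (x 2 * x 1 ^ 2), a, b, c, ?_, by norm_num, ?_,
    ?_, ?_⟩
  · exact mul_ne_zero (pow_ne_zero _ (by norm_num)) (hx.2 0)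
  · exact mul_ne_zero (pow_ne_zero _ (by norm_num)) (mul_ne_zero (hx.2 2)
      (pow_ne_zero _ (hx.2 1)))
  · rw [(it26 x (third hx) (m + 1)).1]
    exact vec3 h0 h1 h2
  · refine coef_height (x := x) hx2 3 (L := 27 ^ (m + 1)) (one_le_pow₀ (by norm_num)) ?_ ?_
    · intro V M hM hM1
      have h27 : V ((27 : K)) ≤ 1 := by
        have := int_le V (K := K) 27
        simpa using this
      have hn : V (-1 : K) ≤ 1 := by
        have := int_le V (K := K) (-1)
        simpa using this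
      have hM3 : 1 ≤ M ^ 3 := one_le_pow₀ hM1
      have hM13 : M ≤ M ^ 3 := le_self_pow₀ hM1 (by norm_num)
      have z0 : 0 ≤ V (x 0) := V.1.nonneg _
      have z1 : 0 ≤ V (x 1) := V.1.nonneg _
      have z2 : 0 ≤ V (x 2) := V.1.nonneg _
      have zn : 0 ≤ V (-1 : K) := V.1.nonneg _
      have z27 : 0 ≤ V (27 : K) := V.1.nonneg _
      refine ⟨?_, hn.trans hM3, ?_⟩
      · rw [map_mul, map_pow]
        calc V (-1 : K) ^ (m + 1) * V (x 0) ≤ 1 * M := by
              gcongr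
              · exact pow_le_one₀ zn hn
              · exact hM 0
          _ ≤ M ^ 3 := by rw [one_mul]; exact hM13
      · rw [map_mul, map_mul, map_pow, map_pow]
        calc V (27 : K) ^ (m + 1) * (V (x 2) * V (x 1) ^ 2) ≤ 1 * (M * M ^ 2) := by
              gcongr
              · exact pow_le_one₀ z27 h27
              · exact hM 2
              · exact hM 1
          _ = M ^ 3 := by ring
    · intro V M hM hM1
      have h27 : V ((27 : K)) = 27 := by
        have := inf_int V (K := K) 27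
        simpa using this
      have hn : V (-1 : K) = 1 := by
        have := inf_int V (K := K) (-1)
        simpa using this
      have hM3 : 1 ≤ M ^ 3 := one_le_pow₀ hM1
      have hM13 : M ≤ M ^ 3 := le_self_pow₀ hM1 (by norm_num)
      have hL : (1 : ℝ) ≤ 27 ^ (m + 1) := one_le_pow₀ (by norm_num)
      have z0 : 0 ≤ V (x 0) := V.1.nonneg _
      have z1 : 0 ≤ V (x 1) := V.1.nonneg _
      have z2 : 0 ≤ V (x 2) := V.1.nonneg _
      refine ⟨?_, by rw [hn]; nlinarith, ?_⟩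
      · rw [map_mul, map_pow, hn, one_pow, one_mul]
        calc V (x 0) ≤ M := hM 0
          _ ≤ 1 * M ^ 3 := by rw [one_mul]; exact hM13
          _ ≤ _ := by gcongr
      · rw [map_mul, map_mul, map_pow, map_pow, h27]
        calc (27 : ℝ) ^ (m + 1) * (V (x 2) * V (x 1) ^ 2) ≤ 27 ^ (m + 1) * (M * M ^ 2) := by
              gcongr
              · exact hM 2
              · exact hM 1
          _ = 27 ^ (m + 1) * M ^ 3 := by ring

end Pool.Agent.Q239.U
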