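import Pool.Agent.Q239.NF.Step

/-!
# Integer forms at the places of all number fields; comparison of heights with absolute constants
-/

set_option autoImplicit false

namespace Pool.Agent.Q239.U

open NumberField Height MvPolynomial Pool.Agent.Q239.NF

/-- the degree -/
noncomputable def dg (K : Type) [Field K] [NumberField K] : ℝ := (Module.finrank ℚ K : ℝ)

lemma dg_pos (K : Type) [Field K] [NumberField K] : 0 < dg K := by
  unfold dg; exact_mod_cast Module.finrank_pos

section places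

variable {K : Type} [Field K] [NumberField K]

lemma inf_int (w : InfinitePlace K) (a : ℤ) : w (a : K) = |(a : ℝ)| := by
  have := InfinitePlace.norm_embedding_eq w (a : K)
  rw [← this, map_intCast]
  simp

lemma inf_nat (w : InfinitePlace K) (a : ℕ) : w (a : K) = (a : ℝ) := by
  have := inf_int w (a : ℤ)
  simpa using this

lemma sum_mult : ∑ w : InfinitePlace K, (w.mult : ℝ) = dg K := by
  unfold dg
  exact_mod_cast InfinitePlace.sum_mult_eq (K := K)

lemma le_sup' {ι : Type} [Finite ι] (v : AbsoluteValue K ℝ) (x : ι → K) (i : ι) :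
    v (x i) ≤ ⨆ i, v (x i) :=
  le_ciSup (f := fun i => v (x i)) (Finite.bddAbove_range _) i

lemma sup_nn {ι : Type} [Finite ι] [Nonempty ι] (v : AbsoluteValue K ℝ) (x : ι → K) :
    0 ≤ ⨆ i, v (x i) :=
  (v.nonneg _).trans (le_sup' v x (Classical.arbitrary ι))

lemma fin_sum_le {α : Type} (v : FinitePlace K) (s : Finset α) (f : α → K) {B : ℝ} (hB : 0 ≤ B)
    (h : ∀ a ∈ s, v (f a) ≤ B) : v (∑ a ∈ s, f a) ≤ B := by
  classical
  induction s using Finset.induction_on with
  | empty => simpa using hB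
  | insert a s ha ih =>
    rw [Finset.sum_insert ha]
    refine (FinitePlace.add_le v _ _).trans (max_le (h a (Finset.mem_insert_self a s)) ?_)
    exact ih fun b hb => h b (Finset.mem_insert_of_mem hb)

end places

/-! ### forms -/

/-- the evaluation of a polynomial with integer coefficients -/
noncomputable def ev {ι : Type} {R : Type} [CommRing R] (x : ι → R) (p : MvPolynomial ι ℤ) : R :=
  MvPolynomial.aeval x p

section ev

variable {ι : Type} {R : Type} [CommRing R] (x : ι → R)

@[simp] lemma ev_X (i : ι) : ev x (X i) = x i := by simp [ev]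
@[simp] lemma ev_add (p q : MvPolynomial ι ℤ) : ev x (p + q) = ev x p + ev x q := by simp [ev]
@[simp] lemma ev_sub (p q : MvPolynomial ι ℤ) : ev x (p - q) = ev x p - ev x q := by simp [ev]
@[simp] lemma ev_neg (p : MvPolynomial ι ℤ) : ev x (-p) = -ev x p := by simp [ev]
@[simp] lemma ev_mul (p q : MvPolynomial ι ℤ) : ev x (p * q) = ev x p * ev x q := by simp [ev]
@[simp] lemma ev_pow (p : MvPolynomial ι ℤ) (n : ℕ) : ev x (p ^ n) = ev x p ^ n := by simp [ev]
@[simp] lemma ev_C (a : ℤ) : ev x (C a) = (a : R) := by simp [ev]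
@[simp] lemma ev_one : ev x 1 = 1 := by simp [ev]
@[simp] lemma ev_natCast (n : ℕ) : ev x (n : MvPolynomial ι ℤ) = n := by simp [ev]
@[simp] lemma ev_intCast (n : ℤ) : ev x (n : MvPolynomial ι ℤ) = n := by simp [ev]
@[simp] lemma ev_ofNat (n : ℕ) [n.AtLeastTwo] :
    ev x (OfNat.ofNat n : MvPolynomial ι ℤ) = OfNat.ofNat n := by simp [ev]
@[simp] lemma ev_zero : ev x 0 = 0 := by simp [ev]
@[simp] lemma ev_sum {α : Type} (s : Finset α) (f : α → MvPolynomial ι ℤ) :
    ev x (∑ a ∈ s, f a) = ∑ a ∈ s, ev x (f a) := by simp [ev]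
@[simp] lemma ev_prod {α : Type} (s : Finset α) (f : α → MvPolynomial ι ℤ) :
    ev x (∏ a ∈ s, f a) = ∏ a ∈ s, ev x (f a) := by simp [ev]

end ev

/-- the coefficient of a monomial -/
def cf {ι : Type} (p : MvPolynomial ι ℤ) (s : ι →₀ ℕ) : ℤ := MvPolynomial.coeff s p

variable {ι : Type} [Fintype ι]

lemma ev_eq {R : Type} [CommRing R] (x : ι → R) (p : MvPolynomial ι ℤ) :
    ev x p = ∑ s ∈ p.support, (cf p s : R) * ∏ i, x i ^ s i := by
  unfold ev cf
  rw [aeval_def, eval₂_eq']
  simp

lemma deg_eq {p : MvPolynomial ι ℤ} {n : ℕ} (hp : p.IsHomogeneous n) {s : ι →₀ ℕ}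
    (hs : s ∈ p.support) : ∑ i, s i = n := by
  have h := hp (mem_support_iff.1 hs)
  rw [Finsupp.weight_apply, Finsupp.sum_fintype] at h
  · simpa using h
  · intro i; simp

section K

variable {K : Type} [Field K] [NumberField K]

lemma mono_le (v : AbsoluteValue K ℝ) (x : ι → K) (s : ι →₀ ℕ) {m : ℝ} (hm : ∀ i, v (x i) ≤ m) :
    v (∏ i, x i ^ s i) ≤ m ^ ∑ i, s i := by
  rw [map_prod, ← Finset.prod_pow_eq_pow_sum]
  refine Finset.prod_le_prod (fun i _ => v.nonneg _) fun i _ => ?_
  rw [map_pow]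
  exact pow_le_pow_left₀ (v.nonneg _) (hm i) _

lemma fin_form (v : FinitePlace K) {p : MvPolynomial ι ℤ} {n : ℕ} (hp : p.IsHomogeneous n)
    (x : ι → K) {m : ℝ} (hm0 : 0 ≤ m) (hm : ∀ i, v (x i) ≤ m) : v (ev x p) ≤ m ^ n := by
  rw [ev_eq]
  refine fin_sum_le v _ _ (pow_nonneg hm0 n) fun s hs => ?_
  rw [map_mul]
  have h1 : v (cf p s : K) ≤ 1 := int_le v _
  have h2 : v (∏ i, x i ^ s i) ≤ m ^ n := by
    rw [← deg_eq hp hs]
    exact mono_le v.1 x s hm
  have h3 : 0 ≤ v (∏ i, x i ^ s i) := v.1.nonneg _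
  calc v (cf p s : K) * v (∏ i, x i ^ s i) ≤ 1 * m ^ n := by gcongr
    _ = _ := one_mul _

end K

/-- the sum of the absolute values of the coefficients, plus one -/
noncomputable def nrm (p : MvPolynomial ι ℤ) : ℝ := 1 + ∑ s ∈ p.support, |(cf p s : ℝ)|

omit [Fintype ι] in
lemma one_le_nrm (p : MvPolynomial ι ℤ) : 1 ≤ nrm p := by
  unfold nrm
  have : 0 ≤ ∑ s ∈ p.support, |(cf p s : ℝ)| := Finset.sum_nonneg fun _ _ => abs_nonneg _
  linarith

lemma inf_form {K : Type} [Field K] [NumberField K] (w : InfinitePlace K) {p : MvPolynomial ι ℤ}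
    {n : ℕ} (hp : p.IsHomogeneous n) (x : ι → K) {m : ℝ} (hm0 : 0 ≤ m) (hm : ∀ i, w (x i) ≤ m) :
    w (ev x p) ≤ nrm p * m ^ n := by
  rw [ev_eq]
  have h1 : w (∑ s ∈ p.support, (cf p s : K) * ∏ i, x i ^ s i) ≤
      ∑ s ∈ p.support, w ((cf p s : K) * ∏ i, x i ^ s i) := w.1.sum_le _ _
  refine h1.trans ?_
  unfold nrm
  rw [add_mul, one_mul, Finset.sum_mul]
  have h2 : ∑ s ∈ p.support, w ((cf p s : K) * ∏ i, x i ^ s i) ≤
      ∑ s ∈ p.support, |(cf p s : ℝ)| * m ^ n := by
    refine Finset.sum_le_sum fun s hs => ?_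
    rw [map_mul, inf_int]
    refine mul_le_mul_of_nonneg_left ?_ (abs_nonneg _)
    rw [← deg_eq hp hs]
    exact mono_le w.1 x s hm
  have h3 : 0 ≤ m ^ n := pow_nonneg hm0 n
  linarith

/-! ### comparison of heights -/

section cmp

variable {K : Type} [Field K] [NumberField K]

theorem height_cmp {ι ι' : Type} [Finite ι] [Finite ι'] {x : ι → K} {y : ι' → K} (hx : x ≠ 0)
    (hy : y ≠ 0) (N M c : ℕ) (hc : c ≠ 0) {L : ℝ} (hL : 0 < L)
    (hfin : ∀ v : FinitePlace K, v (c : K) * (⨆ i, v (x i)) ^ N ≤ (⨆ i, v (y i)) ^ M)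
    (hinf : ∀ w : InfinitePlace K, (⨆ i, w (x i)) ^ N ≤ L * (⨆ i, w (y i)) ^ M) :
    N * logHeight x ≤ M * logHeight y + (Real.log L + Real.log c) * dg K := by
  have hc0 : (c : K) ≠ 0 := by exact_mod_cast hc
  have hcr : (0 : ℝ) < c := by exact_mod_cast Nat.pos_of_ne_zero hc
  have fin_supp : ∀ {κ : Type} [Finite κ] {z : κ → K}, z ≠ 0 → ∀ k : ℕ,
      (Function.support fun v : FinitePlace K => (k : ℝ) * Real.log (⨆ i, v (z i))).Finite := by
    intro κ _ z hz k
    refine (sup_fin hz).subset fun v hv => ?_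
    simp only [Set.mem_ofPred_eq]
    intro h1
    apply hv
    simp only [h1, Real.log_one, mul_zero]
  have hsc : (Function.support fun v : FinitePlace K => Real.log (v (c : K))).Finite := by
    refine (fin_ne_one hc0).subset fun v hv => ?_
    simp only [Set.mem_ofPred_eq]
    intro h1
    apply hv
    simp only [h1, Real.log_one]
  have e1 : ∑ᶠ v : FinitePlace K, (Real.log (v (c : K)) + (N : ℝ) * Real.log (⨆ i, v (x i))) ≤
      ∑ᶠ v : FinitePlace K, (M : ℝ) * Real.log (⨆ i, v (y i)) := by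
    refine finsum_le_finsum' ?_ (fin_supp hy M) fun v => ?_
    · exact (hsc.union (fin_supp hx N)).subset (Function.support_add _ _)
    · have h1 : 0 < v (c : K) := v.1.pos hc0
      have h2 : 0 < ⨆ i, v (x i) := sup_pos hx v.1
      have h3 := Real.log_le_log (mul_pos h1 (pow_pos h2 N)) (hfin v)
      rw [Real.log_mul h1.ne' (pow_pos h2 N).ne', Real.log_pow, Real.log_pow] at h3
      exact h3
  rw [finsum_add_distrib hsc (fin_supp hx N), ← mul_finsum, ← mul_finsum] at e1
  have e2 : ∑ w : InfinitePlace K, (w.mult : ℝ) * ((N : ℝ) * Real.log (⨆ i, w (x i))) ≤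
      ∑ w : InfinitePlace K, (w.mult : ℝ) * (Real.log L + (M : ℝ) * Real.log (⨆ i, w (y i))) := by
    refine Finset.sum_le_sum fun w _ => mul_le_mul_of_nonneg_left ?_ (Nat.cast_nonneg _)
    have h2 : 0 < ⨆ i, w (x i) := sup_pos hx w.1
    have h4 : 0 < ⨆ i, w (y i) := sup_pos hy w.1
    have h3 := Real.log_le_log (pow_pos h2 N) (hinf w)
    rw [Real.log_mul hL.ne' (pow_pos h4 M).ne', Real.log_pow, Real.log_pow] at h3
    exact h3
  have e3 : ∑ w : InfinitePlace K, (w.mult : ℝ) * ((N : ℝ) * Real.log (⨆ i, w (x i))) =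
      N * ∑ w : InfinitePlace K, (w.mult : ℝ) * Real.log (⨆ i, w (x i)) := by
    rw [Finset.mul_sum]
    exact Finset.sum_congr rfl fun w _ => by ring
  have e4 : ∑ w : InfinitePlace K, (w.mult : ℝ) * (Real.log L + (M : ℝ) * Real.log (⨆ i, w (y i))) =
      Real.log L * dg K + M * ∑ w : InfinitePlace K, (w.mult : ℝ) * Real.log (⨆ i, w (y i)) := by
    rw [Finset.mul_sum, ← sum_mult, Finset.mul_sum, ← Finset.sum_add_distrib]
    exact Finset.sum_congr rfl fun w _ => by ring
  have e5 := sum_log hc0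
  have e6 : ∑ w : InfinitePlace K, (w.mult : ℝ) * Real.log (w (c : K)) = Real.log c * dg K := by
    rw [← sum_mult, Finset.mul_sum]
    refine Finset.sum_congr rfl fun w _ => ?_
    rw [inf_nat]; ring
  have hX := height_eq hx
  have hY := height_eq hy
  rw [hX, hY]
  rw [e3, e4] at e2
  nlinarith

end cmp

/-! ### points on a zero set have bounded height -/

lemma ev_split {p : MvPolynomial (Fin 2) ℤ} {n : ℕ} (hp : p.IsHomogeneous n) {R : Type}
    [CommRing R] (x : Fin 2 → R) :
    ev x p = ((ev (![1, 0] : Fin 2 → ℤ) p : ℤ) : R) * x 0 ^ n +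
      ∑ s ∈ p.support with s 1 ≠ 0, (cf p s : R) * ∏ i, x i ^ s i := by
  classical
  have key : ∀ (S : Type) [CommRing S] (y : Fin 2 → S),
      ev y p = (∑ s ∈ p.support with s 1 = 0, (cf p s : S)) * y 0 ^ n +
      ∑ s ∈ p.support with s 1 ≠ 0, (cf p s : S) * ∏ i, y i ^ s i := by
    intro S _ y
    rw [ev_eq, ← Finset.sum_filter_add_sum_filter_not p.support (fun s => s 1 = 0), Finset.sum_mul]
    congr 1
    refine Finset.sum_congr rfl fun s hs => ?_
    rw [Finset.mem_filter] at hs
    have h1 := deg_eq hp hs.1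
    rw [Fin.sum_univ_two, hs.2, add_zero] at h1
    rw [Fin.prod_univ_two, h1, hs.2, pow_zero, mul_one]
  have h0 : ev (![1, 0] : Fin 2 → ℤ) p = ∑ s ∈ p.support with s 1 = 0, cf p s := by
    have h1 := key ℤ ![1, 0]
    simp only [Int.cast_id] at h1
    have : ∑ s ∈ p.support with s 1 ≠ 0, cf p s *
        ∏ i, (![1, 0] : Fin 2 → ℤ) i ^ s i = 0 := by
      refine Finset.sum_eq_zero fun s hs => ?_
      rw [Finset.mem_filter] at hs
      rw [Fin.prod_univ_two]
      simp [hs.2]
    rw [this] at h1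
    rw [h1]
    simp
  rw [key R x, h0]
  simp

theorem zero_bdd {p : MvPolynomial (Fin 2) ℤ} {n : ℕ} (hp : p.IsHomogeneous n)
    (h0 : ev (![1, 0] : Fin 2 → ℤ) p ≠ 0) :
    ∃ C : ℝ, ∀ (K : Type) [Field K] [NumberField K] (x : Fin 2 → K), x 1 ≠ 0 → ev x p = 0 →
      logHeight x ≤ C * dg K := by
  classical
  set c : ℤ := ev (![1, 0] : Fin 2 → ℤ) p with hc
  refine ⟨Real.log (nrm p) + Real.log (c.natAbs : ℝ), fun K _ _ x hx1 hx => ?_⟩
  have hx0 : x ≠ 0 := fun h => hx1 (by rw [h]; rfl)
  have hnrm := one_le_nrm p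
  have hcn : c.natAbs ≠ 0 := Int.natAbs_ne_zero.2 h0
  have hc1 : (1 : ℝ) ≤ |(c : ℝ)| := by
    have := Int.one_le_abs h0
    exact_mod_cast this
  have hy : (fun _ : Fin 1 => x 1) ≠ 0 := fun h => hx1 (congrFun h 0)
  have hspl := ev_split hp x
  rw [hx] at hspl
  set S : K := ∑ s ∈ p.support with s 1 ≠ 0, (cf p s : K) * ∏ i, x i ^ s i with hS
  have hS' : (c : K) * x 0 ^ n = -S := by linear_combination -hspl
  -- each term
  have hterm : ∀ (v : AbsoluteValue K ℝ) (m : ℝ), (∀ i, v (x i) ≤ m) → 0 < m → ∀ s ∈ p.support,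
      s 1 ≠ 0 → v (∏ i, x i ^ s i) * m ≤ v (x 1) * m ^ n := by
    intro v m hm hm0 s hs hs1
    have h1 := deg_eq hp hs
    rw [Fin.sum_univ_two] at h1
    obtain ⟨k, hk⟩ := Nat.exists_eq_succ_of_ne_zero hs1
    rw [Fin.prod_univ_two, hk, map_mul, map_pow, map_pow, pow_succ]
    have h2 : v (x 0) ^ s 0 ≤ m ^ s 0 := pow_le_pow_left₀ (v.nonneg _) (hm 0) _
    have h3 : v (x 1) ^ k ≤ m ^ k := pow_le_pow_left₀ (v.nonneg _) (hm 1) _
    have h4 : n = s 0 + k + 1 := by omega
    have h5 : 0 ≤ v (x 1) := v.nonneg _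
    have h6 : 0 ≤ v (x 0) := v.nonneg _
    calc v (x 0) ^ s 0 * (v (x 1) ^ k * v (x 1)) * m ≤ m ^ s 0 * (m ^ k * v (x 1)) * m := by gcongr
      _ = v (x 1) * m ^ n := by rw [h4]; ring
  have hlog0 : logHeight (fun _ : Fin 1 => x 1) = 0 := logHeight_eq_zero_of_subsingleton _
  have main := height_cmp (x := x) (y := fun _ : Fin 1 => x 1) hx0 hy 1 1 c.natAbs hcn
    (L := nrm p) (by linarith) ?_ ?_
  · rw [hlog0] at main
    simpa using main
  · intro v
    rw [pow_one, pow_one, ciSup_const]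
    set m : ℝ := ⨆ i, v (x i) with hm
    have hmi : ∀ i, v (x i) ≤ m := fun i => le_sup' v.1 x i
    have hm0 : 0 < m := sup_pos hx0 v.1
    have hx1p : 0 ≤ v (x 1) := v.1.nonneg _
    have hvc : v ((c.natAbs : ℕ) : K) = v (c : K) := by
      rcases Int.natAbs_eq c with h | h
      · conv_rhs => rw [h]
        simp
      · conv_rhs => rw [h]
        rw [Int.cast_neg, Int.cast_natCast]
        exact (v.1.map_neg _).symm
    rw [hvc]
    have hvc1 : v (c : K) ≤ 1 := int_le v c
    have hvc0 : 0 ≤ v (c : K) := v.1.nonneg _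
    have hSle : v S * m ≤ v (x 1) * m ^ n := by
      have h1 : v S ≤ v (x 1) * m ^ n / m := by
        rw [hS]
        refine fin_sum_le v _ _ (by positivity) fun s hs => ?_
        rw [Finset.mem_filter] at hs
        rw [map_mul, le_div_iff₀ hm0]
        have h2 : v (cf p s : K) ≤ 1 := int_le v _
        have h3 := hterm v.1 m hmi hm0 s hs.1 hs.2
        have h4 : 0 ≤ v (∏ i, x i ^ s i) := v.1.nonneg _
        calc v (cf p s : K) * v (∏ i, x i ^ s i) * m ≤ 1 * v (∏ i, x i ^ s i) * m := by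
              gcongr
          _ = v (∏ i, x i ^ s i) * m := by ring
          _ ≤ _ := h3
      rwa [le_div_iff₀ hm0] at h1
    have hk : v (c : K) * v (x 0) ^ n * m ≤ v (x 1) * m ^ n := by
      have : v ((c : K) * x 0 ^ n) = v S := by
        rw [hS']; exact v.1.map_neg _
      rw [map_mul, map_pow] at this
      rw [this]
      exact hSle
    -- case distinction
    by_cases hcase : m ≤ v (x 1)
    · calc v (c : K) * m ≤ 1 * m := by gcongr
        _ = m := one_mul _
        _ ≤ v (x 1) := hcase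
    · push Not at hcase
      have h0m : v (x 0) = m := by
        apply le_antisymm (hmi 0)
        rw [hm]
        apply ciSup_le
        intro i
        fin_cases i
        · exact le_rfl
        · show v (x 1) ≤ v (x 0)
          by_contra hlt
          push Not at hlt
          have : m ≤ v (x 1) := by
            rw [hm]
            apply ciSup_le
            intro i
            fin_cases i
            · exact hlt.le
            · exact le_rfl
          linarith
      rw [h0m] at hk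
      have h7 : (v (c : K) * m) * m ^ n ≤ v (x 1) * m ^ n := by
        calc (v (c : K) * m) * m ^ n = v (c : K) * m ^ n * m := by ring
          _ ≤ _ := hk
      exact le_of_mul_le_mul_right h7 (pow_pos hm0 n)
  · intro w
    rw [pow_one, pow_one, ciSup_const]
    set m : ℝ := ⨆ i, w (x i) with hm
    have hmi : ∀ i, w (x i) ≤ m := fun i => le_sup' w.1 x i
    have hm0 : 0 < m := sup_pos hx0 w.1
    have hx1p : 0 ≤ w (x 1) := w.1.nonneg _
    have hSle : w S * m ≤ nrm p * (w (x 1) * m ^ n) := by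
      have h1 : w S ≤ ∑ s ∈ p.support with s 1 ≠ 0, w ((cf p s : K) * ∏ i, x i ^ s i) :=
        w.1.sum_le _ _
      have h2 : (∑ s ∈ p.support with s 1 ≠ 0, w ((cf p s : K) * ∏ i, x i ^ s i)) * m ≤
          ∑ s ∈ p.support with s 1 ≠ 0, |(cf p s : ℝ)| * (w (x 1) * m ^ n) := by
        rw [Finset.sum_mul]
        refine Finset.sum_le_sum fun s hs => ?_
        rw [Finset.mem_filter] at hs
        rw [map_mul, inf_int, mul_assoc]
        exact mul_le_mul_of_nonneg_left (hterm w.1 m hmi hm0 s hs.1 hs.2) (abs_nonneg _)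
      have h3 : ∑ s ∈ p.support with s 1 ≠ 0, |(cf p s : ℝ)| * (w (x 1) * m ^ n) ≤
          ∑ s ∈ p.support, |(cf p s : ℝ)| * (w (x 1) * m ^ n) :=
        Finset.sum_le_sum_of_subset_of_nonneg (Finset.filter_subset _ _)
          fun _ _ _ => by positivity
      rw [← Finset.sum_mul p.support] at h3
      have h4 : 0 ≤ w (x 1) * m ^ n := by positivity
      calc w S * m ≤ (∑ s ∈ p.support with s 1 ≠ 0, w ((cf p s : K) * ∏ i, x i ^ s i)) * m := by
            gcongr
        _ ≤ (∑ s ∈ p.support, |(cf p s : ℝ)|) * (w (x 1) * m ^ n) := h2.trans h3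
        _ ≤ nrm p * (w (x 1) * m ^ n) := by
            refine mul_le_mul_of_nonneg_right ?_ h4
            unfold nrm; linarith
    have hk : w (x 0) ^ n * m ≤ nrm p * (w (x 1) * m ^ n) := by
      have : w ((c : K) * x 0 ^ n) = w S := by
        rw [hS']; exact w.1.map_neg _
      rw [map_mul, map_pow, inf_int] at this
      have h5 : w (x 0) ^ n ≤ w S := by
        rw [← this]
        have h6 : 0 ≤ w (x 0) ^ n := pow_nonneg (w.1.nonneg _) n
        nlinarith
      calc w (x 0) ^ n * m ≤ w S * m := by gcongr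
        _ ≤ _ := hSle
    by_cases hcase : m ≤ w (x 1)
    · calc m ≤ w (x 1) := hcase
        _ ≤ nrm p * w (x 1) := le_mul_of_one_le_left hx1p hnrm
    · push Not at hcase
      have h0m : w (x 0) = m := by
        apply le_antisymm (hmi 0)
        rw [hm]
        apply ciSup_le
        intro i
        fin_cases i
        · exact le_rfl
        · show w (x 1) ≤ w (x 0)
          by_contra hlt
          push Not at hlt
          have : m ≤ w (x 1) := by
            rw [hm]
            apply ciSup_le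
            intro i
            fin_cases i
            · exact hlt.le
            · exact le_rfl
          linarith
      rw [h0m] at hk
      have h7 : m * m ^ n ≤ (nrm p * w (x 1)) * m ^ n := by
        calc m * m ^ n = m ^ n * m := by ring
          _ ≤ _ := hk
          _ = _ := by ring
      exact le_of_mul_le_mul_right h7 (pow_pos hm0 n)

end Pool.Agent.Q239.U
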