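import Pool.Agent.Q239.U.Ico

/-!
# The ideal generated by the values of the forms
-/

set_option autoImplicit false

namespace Pool.Agent.Q239.U

open NumberField Height MvPolynomial Pool.Agent.Q239.NF

/-- `c x_i ^ N` is in the ideal generated by `F(x)` and `G(x)`, in all commutative rings -/
def Gen (F G : P2) : Prop :=
  ∃ c N : ℕ, c ≠ 0 ∧ ∀ (R : Type) [CommRing R] (x : Fin 2 → R) (i : Fin 2),
    (c : R) * x i ^ N ∈ Ideal.span {ev x F, ev x G}

theorem gen_of {f g A B A' B' : P2} {N : ℕ} (c : ℕ) (hc : c ≠ 0) (k l : ℤ) (hk : k ≠ 0)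
    (hl : l ≠ 0) (i j : ℕ) (h0 : A * f + B * g = C (c : ℤ) * X 0 ^ N)
    (h1 : A' * f + B' * g = C (c : ℤ) * X 1 ^ N) : Gen (C k * f ^ i) (C l * g ^ j) := by
  refine ⟨k.natAbs * l.natAbs * c ^ (i + j), N * (i + j), by positivity, ?_⟩
  intro R _ x
  set I : Ideal R := Ideal.span {ev x (C k * f ^ i), ev x (C l * g ^ j)} with hI
  have hF : (k : R) * ev x f ^ i ∈ I := by
    have : ev x (C k * f ^ i) ∈ I := Ideal.subset_span (by simp)
    simpa using this
  have hG : (l : R) * ev x g ^ j ∈ I := by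
    have : ev x (C l * g ^ j) ∈ I := Ideal.subset_span (by simp)
    simpa using this
  have habs : ∀ a : ℤ, ∀ y : R, (a : R) * y ∈ I → ((a.natAbs : ℕ) : R) * y ∈ I := by
    intro a y h
    rcases Int.natAbs_eq a with h1 | h1
    · have e : ((a.natAbs : ℕ) : R) = ((a : ℤ) : R) := by
        conv_rhs => rw [h1]
        simp
      rwa [e]
    · have e : ((a.natAbs : ℕ) : R) = -((a : ℤ) : R) := by
        conv_rhs => rw [h1]
        simp
      rw [e, neg_mul]
      exact I.neg_mem h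
  have main : ∀ (a b z : R), a * ev x f + b * ev x g = z →
      ((k.natAbs * l.natAbs : ℕ) : R) * z ^ (i + j) ∈ I := by
    intro a b z h
    -- the colon ideal
    have key : ∀ y : R, y ∈ Ideal.span {(ev x f) ^ i, (ev x g) ^ j} →
        ((k.natAbs * l.natAbs : ℕ) : R) * y ∈ I := by
      intro y hy
      obtain ⟨p, q, rfl⟩ := Ideal.mem_span_pair.1 hy
      rw [mul_add]
      apply I.add_mem
      · have h1 := habs k _ hF
        have h2 := I.mul_mem_left ((l.natAbs : ℕ) * p : R) h1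
        have e : ((k.natAbs * l.natAbs : ℕ) : R) * (p * ev x f ^ i) =
            ((l.natAbs : ℕ) * p : R) * ((k.natAbs : ℕ) * ev x f ^ i) := by
          push_cast; ring
        rw [e]; exact h2
      · have h1 := habs l _ hG
        have h2 := I.mul_mem_left ((k.natAbs : ℕ) * q : R) h1
        have e : ((k.natAbs * l.natAbs : ℕ) : R) * (q * ev x g ^ j) =
            ((k.natAbs : ℕ) * q : R) * ((l.natAbs : ℕ) * ev x g ^ j) := by
          push_cast; ring
        rw [e]; exact h2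
    apply key
    rw [← h]
    apply Ideal.add_pow_mem_of_pow_mem_of_le (m := i) (n := j)
    · rw [mul_pow]
      exact Ideal.mul_mem_left _ _ (Ideal.subset_span (by simp))
    · rw [mul_pow]
      exact Ideal.mul_mem_left _ _ (Ideal.subset_span (by simp))
    · omega
  have e0 := congrArg (ev x) h0
  have e1 := congrArg (ev x) h1
  simp only [ev_add, ev_mul, ev_C, ev_pow, ev_X, Int.cast_natCast] at e0 e1
  intro i'
  fin_cases i'
  · have := main _ _ _ e0
    have e : ((k.natAbs * l.natAbs * c ^ (i + j) : ℕ) : R) * x 0 ^ (N * (i + j)) =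
        ((k.natAbs * l.natAbs : ℕ) : R) * ((c : R) * x 0 ^ N) ^ (i + j) := by
      push_cast
      rw [mul_pow, pow_mul]; ring
    show ((k.natAbs * l.natAbs * c ^ (i + j) : ℕ) : R) * x 0 ^ (N * (i + j)) ∈ I
    rw [e]; exact this
  · have := main _ _ _ e1
    have e : ((k.natAbs * l.natAbs * c ^ (i + j) : ℕ) : R) * x 1 ^ (N * (i + j)) =
        ((k.natAbs * l.natAbs : ℕ) : R) * ((c : R) * x 1 ^ N) ^ (i + j) := by
      push_cast
      rw [mul_pow, pow_mul]; ring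
    show ((k.natAbs * l.natAbs * c ^ (i + j) : ℕ) : R) * x 1 ^ (N * (i + j)) ∈ I
    rw [e]; exact this

theorem gen_third_left {F G : P2} (h : Gen (-(F + G)) G) : Gen F G := by
  obtain ⟨c, N, hc, h⟩ := h
  refine ⟨c, N, hc, fun R _ x i => ?_⟩
  have h1 := h R x i
  refine (Ideal.span_le (I := Ideal.span {ev x F, ev x G})).2 ?_ h1
  rintro y (rfl | hy)
  · simp only [ev_neg, ev_add]
    exact Ideal.neg_mem_iff _ |>.2 (Ideal.add_mem _ (Ideal.subset_span (by simp))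
      (Ideal.subset_span (by simp)))
  · rw [Set.mem_singleton_iff] at hy
    rw [hy]
    exact Ideal.subset_span (by simp)

theorem gen_third_right {F G : P2} (h : Gen F (-(F + G))) : Gen F G := by
  obtain ⟨c, N, hc, h⟩ := h
  refine ⟨c, N, hc, fun R _ x i => ?_⟩
  have h1 := h R x i
  refine (Ideal.span_le (I := Ideal.span {ev x F, ev x G})).2 ?_ h1
  rintro y (rfl | hy)
  · exact Ideal.subset_span (by simp)
  · rw [Set.mem_singleton_iff] at hy
    rw [hy]
    simp only [ev_neg, ev_add]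
    exact Ideal.neg_mem_iff _ |>.2 (Ideal.add_mem _ (Ideal.subset_span (by simp))
      (Ideal.subset_span (by simp)))

lemma gen_swap {F G : P2} (h : Gen F G) : Gen G F := by
  obtain ⟨c, N, hc, h⟩ := h
  refine ⟨c, N, hc, fun R _ x i => ?_⟩
  rw [Set.pair_comm]
  exact h R x i

theorem gen_comp {F G r s F' G' : P2} (h : Gen F G) (h' : Gen r s)
    (hF : ∀ {R : Type} [CommRing R] (x : Fin 2 → R), ev x F' = ev ![ev x r, ev x s] F)
    (hG : ∀ {R : Type} [CommRing R] (x : Fin 2 → R), ev x G' = ev ![ev x r, ev x s] G) :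
    Gen F' G' := by
  obtain ⟨c, N, hc, h⟩ := h
  obtain ⟨b, M, hb, h'⟩ := h'
  refine ⟨c * b ^ (2 * N), M * (2 * N), by positivity, fun R _ x i => ?_⟩
  rw [hF, hG]
  set y : Fin 2 → R := ![ev x r, ev x s] with hy
  have h0 : (c : R) * (ev x r) ^ N ∈ Ideal.span {ev y F, ev y G} := h R y 0
  have h1 : (c : R) * (ev x s) ^ N ∈ Ideal.span {ev y F, ev y G} := h R y 1
  obtain ⟨p, q, hpq⟩ := Ideal.mem_span_pair.1 (h' R x i)
  have key : ((b : R) * x i ^ M) ^ (2 * N) ∈ Ideal.span {(ev x r) ^ N, (ev x s) ^ N} := by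
    rw [← hpq]
    apply Ideal.add_pow_mem_of_pow_mem_of_le (m := N) (n := N)
    · rw [mul_pow]
      exact Ideal.mul_mem_left _ _ (Ideal.subset_span (by simp))
    · rw [mul_pow]
      exact Ideal.mul_mem_left _ _ (Ideal.subset_span (by simp))
    · omega
  obtain ⟨p', q', hpq'⟩ := Ideal.mem_span_pair.1 key
  have e : ((c * b ^ (2 * N) : ℕ) : R) * x i ^ (M * (2 * N)) =
      p' * ((c : R) * (ev x r) ^ N) + q' * ((c : R) * (ev x s) ^ N) := by
    have : ((c * b ^ (2 * N) : ℕ) : R) * x i ^ (M * (2 * N)) =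
        (c : R) * ((b : R) * x i ^ M) ^ (2 * N) := by
      push_cast
      rw [mul_pow, pow_mul]; ring
    rw [this, ← hpq']
    ring
  rw [e]
  exact Ideal.add_mem _ (Ideal.mul_mem_left _ _ h0) (Ideal.mul_mem_left _ _ h1)

/-! ### the maps -/

lemma genPow (e : ℕ) : Gen (formPow e).F (formPow e).G := by
  apply gen_third_left
  have h1 : (-((formPow e).F + (formPow e).G) : P2) = C (-1) * (X 0 + X 1) ^ (e + 1) := by
    show (-((X 0 + X 1) ^ (e + 1) - X 1 ^ (e + 1) + X 1 ^ (e + 1)) : P2) = _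
    simp
  have h2 : ((formPow e).G : P2) = C 1 * X 1 ^ (e + 1) := by
    show (X 1 ^ (e + 1) : P2) = _
    simp
  rw [h1, h2]
  exact gen_of (A := 1) (B := -1) (A' := 0) (B' := 1) (N := 1) 1 one_ne_zero _ _ (by norm_num)
    (by norm_num) _ _ (by simp) (by simp)

lemma genSq (j : ℕ) : Gen (formSq j).F (formSq j).G := by
  apply gen_third_right
  have h2 : (-((formSq j).F + (formSq j).G) : P2) =
      C (-4 ^ j) * (X 0 ^ (j + 1) + X 1 ^ (j + 1)) ^ 2 := by
    show (-(C (4 ^ j) * (X 0 ^ (j + 1) - X 1 ^ (j + 1)) ^ 2 +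
      C (4 ^ (j + 1)) * (X 0 * X 1) ^ (j + 1)) : P2) = _
    have h4 : (C (4 ^ (j + 1)) : P2) = 4 * C (4 ^ j) := by
      rw [pow_succ, map_mul, mul_comm]
      congr 1
    rw [h4, mul_pow, map_neg]
    ring
  rw [h2]
  have c2 : (C ((2 : ℕ) : ℤ) : P2) = 2 := map_ofNat C 2
  exact gen_of (A := 1) (B := 1) (A' := -1) (B' := 1) (N := j + 1) 2 two_ne_zero _ _
    (by positivity) (neg_ne_zero.2 (by positivity)) _ _ (by rw [c2]; ring) (by rw [c2]; ring)

lemma genTet : Gen formTet.F formTet.G := by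
  apply gen_third_left
  have h : (-(formTet.F + formTet.G) : P2) = C (-1) * ty (X 0) (X 1) ^ 3 := by
    show (-(tz (X 0) (X 1) ^ 2 + (-tx (X 0) (X 1)) ^ 3) : P2) = _
    rw [← t_id, map_neg, map_one]
    ring
  have h' : (formTet.G : P2) = C (-1) * tx (X 0) (X 1) ^ 3 := by
    show ((-tx (X 0) (X 1)) ^ 3 : P2) = _
    rw [map_neg, map_one]
    ring
  rw [h, h']
  have c36 : (C ((36 : ℕ) : ℤ) : P2) = 36 := map_ofNat C 36
  refine gen_of (A := 64 * (X 0 * X 1 ^ 2)) (B := 36 * X 0 ^ 3 + 32 * X 1 ^ 3)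
    (A' := 9 * X 1 ^ 3 - X 0 ^ 3) (B' := 4 * (X 0 ^ 2 * X 1)) (N := 7) 36
    (by norm_num) _ _ (by norm_num) (by norm_num) _ _ ?_ ?_
  · rw [c36]; unfold tx ty; ring
  · rw [c36]; unfold tx ty; ring

lemma genDbl : Gen formDbl.F formDbl.G := by
  apply gen_third_right
  have c64' : (C (64 : ℤ) : P2) = 64 := map_ofNat C 64
  have c16 : (C 16 : P2) = 16 := map_ofNat C 16
  have h : (-(formDbl.F + formDbl.G) : P2) = C (-16) * X 0 ^ 2 := by
    show (-(C 16 * (X 0 + 2 * X 1) ^ 2 + C (-64) * (X 1 * (X 0 + X 1))) : P2) = _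
    rw [map_neg, map_neg, c64', c16]
    ring
  rw [h]
  have c2 : (C ((2 : ℕ) : ℤ) : P2) = 2 := map_ofNat C 2
  refine gen_of (A := 0) (B := 2) (A' := 1) (B' := -1) (N := 1) 2 (by norm_num) _ _ (by norm_num)
    (by norm_num) _ _ ?_ ?_
  · rw [c2]; ring
  · rw [c2]; ring

lemma genIrs : Gen ir is' := by
  have c2 : (C ((2 : ℕ) : ℤ) : P2) = 2 := map_ofNat C 2
  have := gen_of (f := ir) (g := is') (A := X 1) (B := 2 * X 0) (A' := X 0) (B' := -(2 * X 1))
    (N := 3) 2 (by norm_num) 1 1 one_ne_zero one_ne_zero 1 1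
    (by rw [c2]; unfold ir is'; ring) (by rw [c2]; unfold ir is'; ring)
  simpa using this

lemma genIco : Gen formIco.F formIco.G := by
  have h2 : (C (2 : ℤ) : P2) = 2 := map_ofNat C 2
  have h3 : (C (3 : ℤ) : P2) = 3 := map_ofNat C 3
  apply gen_third_left
  have hsum : (-(formIco.F + formIco.G) : P2) = C (-2 ^ 30 * 3 ^ 15) * iff ir is' ^ 5 := by
    show (-(C (2 ^ 24 * 3 ^ 12) * ((X 0 ^ 2 + X 1 ^ 2) ^ 2 * iuu ir is') ^ 2 +
      C (2 ^ 24 * 3 ^ 12) * ihh ir is' ^ 3) : P2) = _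
    rw [← i_sq, ← mul_add, i_syz]
    simp only [map_mul, map_neg, map_pow, h2, h3]
    ring
  rw [hsum]
  have c : (C ((3125 : ℕ) : ℤ) : P2) = 3125 := map_ofNat C 3125
  have h60 : Gen (C (-2 ^ 30 * 3 ^ 15) * iff (X 0) (X 1) ^ 5)
      (C (2 ^ 24 * 3 ^ 12) * ihh (X 0) (X 1) ^ 3) := by
    refine gen_swap (gen_of
      (A := X 0 * (3003 * X 1 ^ 10 - 33022 * (X 0 ^ 5 * X 1 ^ 5) - 3125 * X 0 ^ 10))
      (B := X 1 ^ 4 * (-3003 * X 1 ^ 15 - 684695 * (X 0 ^ 5 * X 1 ^ 10) -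
        1485989 * (X 0 ^ 10 * X 1 ^ 5) + 679478 * X 0 ^ 15))
      (A' := X 1 * (-3125 * X 1 ^ 10 + 33022 * (X 0 ^ 5 * X 1 ^ 5) + 3003 * X 0 ^ 10))
      (B' := X 0 ^ 4 * (679478 * X 1 ^ 15 + 1485989 * (X 0 ^ 5 * X 1 ^ 10) -
        684695 * (X 0 ^ 10 * X 1 ^ 5) + 3003 * X 0 ^ 15))
      (N := 31) 3125 (by norm_num) _ _ (by norm_num) (by norm_num) _ _ ?_ ?_)
    · rw [c, ← i_bez0 (X 0) (X 1)]; ring
    · rw [c, ← i_bez1 (X 0) (X 1)]; ring
  refine gen_comp h60 genIrs (fun x => ?_) (fun x => ?_)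
  · simp only [ev_mul, ev_C, ev_pow, ev_iff, ev_X]
    rfl
  · show ev x (C (2 ^ 24 * 3 ^ 12) * ihh ir is' ^ 3) = _
    simp only [ev_mul, ev_C, ev_pow, ev_ihh, ev_X]
    rfl

end Pool.Agent.Q239.U
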