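import Pool.Agent.Q239.U.Maps

/-!
# The self-map of degree 120 of signature `(2, 3, 5)`

Klein's invariants of the icosahedron, evaluated at `(2 a b, a ^ 2 - b ^ 2)`.
-/

set_option autoImplicit false

namespace Pool.Agent.Q239.U

open NumberField Height MvPolynomial Pool.Agent.Q239.NF

section forms

variable {R : Type} [CommRing R]

def iphi (r s : R) : R := r ^ 10 + 11 * (r ^ 5 * s ^ 5) - s ^ 10

/-- Klein's form of degree 12 -/
def iff (r s : R) : R := r * s * iphi r s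

/-- its Hessian, of degree 20 -/
def ihh (r s : R) : R :=
  228 * (r ^ 15 * s ^ 5) - 228 * (r ^ 5 * s ^ 15) - 494 * (r ^ 10 * s ^ 10) - r ^ 20 - s ^ 20

/-- the form of degree 30 divided by `r ^ 2 + s ^ 2` -/
def iuu (r s : R) : R :=
  r ^ 28 - r ^ 26 * s ^ 2 + r ^ 24 * s ^ 4 + 522 * (r ^ 23 * s ^ 5) - r ^ 22 * s ^ 6 -
  522 * (r ^ 21 * s ^ 7) + r ^ 20 * s ^ 8 + 522 * (r ^ 19 * s ^ 9) - 10006 * (r ^ 18 * s ^ 10) -
  522 * (r ^ 17 * s ^ 11) + 10006 * (r ^ 16 * s ^ 12) + 522 * (r ^ 15 * s ^ 13) -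
  10006 * (r ^ 14 * s ^ 14) - 522 * (r ^ 13 * s ^ 15) + 10006 * (r ^ 12 * s ^ 16) +
  522 * (r ^ 11 * s ^ 17) - 10006 * (r ^ 10 * s ^ 18) - 522 * (r ^ 9 * s ^ 19) + r ^ 8 * s ^ 20 +
  522 * (r ^ 7 * s ^ 21) - r ^ 6 * s ^ 22 - 522 * (r ^ 5 * s ^ 23) + r ^ 4 * s ^ 24 -
  r ^ 2 * s ^ 26 + s ^ 28

lemma i_syz (r s : R) : ((r ^ 2 + s ^ 2) * iuu r s) ^ 2 + ihh r s ^ 3 = 1728 * iff r s ^ 5 := by
  have h : (r ^ 2 + s ^ 2) * iuu r s = r ^ 30 + 522 * (r ^ 25 * s ^ 5) - 10005 * (r ^ 20 * s ^ 10) -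
      10005 * (r ^ 10 * s ^ 20) - 522 * (r ^ 5 * s ^ 25) + s ^ 30 := by
    unfold iuu; ring
  rw [h]
  have h1 : iff r s ^ 5 = r ^ 5 * s ^ 5 * iphi r s ^ 5 := by unfold iff; ring
  rw [h1]
  unfold iphi ihh
  have e : ∀ A B : R, (A ^ 6 + 522 * (A ^ 5 * B) - 10005 * (A ^ 4 * B ^ 2) -
      10005 * (A ^ 2 * B ^ 4) - 522 * (A * B ^ 5) + B ^ 6) ^ 2 +
      (228 * (A ^ 3 * B) - 228 * (A * B ^ 3) - 494 * (A ^ 2 * B ^ 2) - A ^ 4 - B ^ 4) ^ 3 =
      1728 * (A * B * (A ^ 2 + 11 * (A * B) - B ^ 2) ^ 5) := by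
    intro A B; ring
  have := e (r ^ 5) (s ^ 5)
  simp only [← pow_mul] at this
  norm_num at this
  linear_combination this

lemma i_bez0 (r s : R) : s ^ 4 * (-3003 * s ^ 15 - 684695 * (r ^ 5 * s ^ 10) -
    1485989 * (r ^ 10 * s ^ 5) + 679478 * r ^ 15) * iff r s +
    r * (3003 * s ^ 10 - 33022 * (r ^ 5 * s ^ 5) - 3125 * r ^ 10) * ihh r s = 3125 * r ^ 31 := by
  unfold iff iphi ihh; ring

lemma i_bez1 (r s : R) : r ^ 4 * (679478 * s ^ 15 + 1485989 * (r ^ 5 * s ^ 10) -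
    684695 * (r ^ 10 * s ^ 5) + 3003 * r ^ 15) * iff r s +
    s * (-3125 * s ^ 10 + 33022 * (r ^ 5 * s ^ 5) + 3003 * r ^ 10) * ihh r s = 3125 * s ^ 31 := by
  unfold iff iphi ihh; ring

end forms

section hom

variable {r s : P2} {t : ℕ}

lemma mon (hr : r.IsHomogeneous t) (hs : s.IsHomogeneous t) (i j : ℕ) {n : ℕ} (h : i + j = n) :
    (r ^ i * s ^ j).IsHomogeneous (t * n) := by
  subst h
  exact hom_cast ((hr.pow i).mul (hs.pow j)) (by ring)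

lemma iphi_hom (hr : r.IsHomogeneous t) (hs : s.IsHomogeneous t) :
    (iphi r s).IsHomogeneous (t * 10) := by
  unfold iphi
  exact ((hr.pow 10).add (hof 11 (mon hr hs 5 5 rfl))).sub (hs.pow 10)

lemma ihh_hom (hr : r.IsHomogeneous t) (hs : s.IsHomogeneous t) :
    (ihh r s).IsHomogeneous (t * 20) := by
  unfold ihh
  exact ((((hof 228 (mon hr hs 15 5 rfl)).sub (hof 228 (mon hr hs 5 15 rfl))).sub
    (hof 494 (mon hr hs 10 10 rfl))).sub (hr.pow 20)).sub (hs.pow 20)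

lemma iuu_hom (hr : r.IsHomogeneous t) (hs : s.IsHomogeneous t) :
    (iuu r s).IsHomogeneous (t * 28) := by
  unfold iuu
  have m := fun i j (h : i + j = 28) => mon hr hs i j h
  refine IsHomogeneous.add ?_ (hs.pow 28)
  refine IsHomogeneous.sub ?_ (m 2 26 rfl)
  refine IsHomogeneous.add ?_ (m 4 24 rfl)
  refine IsHomogeneous.sub ?_ (hof 522 (m 5 23 rfl))
  refine IsHomogeneous.sub ?_ (m 6 22 rfl)
  refine IsHomogeneous.add ?_ (hof 522 (m 7 21 rfl))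
  refine IsHomogeneous.add ?_ (m 8 20 rfl)
  refine IsHomogeneous.sub ?_ (hof 522 (m 9 19 rfl))
  refine IsHomogeneous.sub ?_ (hof 10006 (m 10 18 rfl))
  refine IsHomogeneous.add ?_ (hof 522 (m 11 17 rfl))
  refine IsHomogeneous.add ?_ (hof 10006 (m 12 16 rfl))
  refine IsHomogeneous.sub ?_ (hof 522 (m 13 15 rfl))
  refine IsHomogeneous.sub ?_ (hof 10006 (m 14 14 rfl))
  refine IsHomogeneous.add ?_ (hof 522 (m 15 13 rfl))
  refine IsHomogeneous.add ?_ (hof 10006 (m 16 12 rfl))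
  refine IsHomogeneous.sub ?_ (hof 522 (m 17 11 rfl))
  refine IsHomogeneous.sub ?_ (hof 10006 (m 18 10 rfl))
  refine IsHomogeneous.add ?_ (hof 522 (m 19 9 rfl))
  refine IsHomogeneous.add ?_ (m 20 8 rfl)
  refine IsHomogeneous.sub ?_ (hof 522 (m 21 7 rfl))
  refine IsHomogeneous.sub ?_ (m 22 6 rfl)
  refine IsHomogeneous.add ?_ (hof 522 (m 23 5 rfl))
  refine IsHomogeneous.add ?_ (m 24 4 rfl)
  exact (hr.pow 28).sub (m 26 2 rfl)

end hom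

/-- `2 a b` -/
noncomputable def ir : P2 := 2 * (X 0 * X 1)
/-- `a ^ 2 - b ^ 2` -/
noncomputable def is' : P2 := X 0 ^ 2 - X 1 ^ 2

lemma ir_hom : ir.IsHomogeneous 2 := hof 2 ((hXi 0).mul (hXi 1))
lemma is_hom : is'.IsHomogeneous 2 := ((hXi 0).pow 2).sub ((hXi 1).pow 2)

lemma irs_lo : LoBdd ir is' 2 := by
  apply lo_one
  have c2 : (C ((2 : ℕ) : ℤ) : P2) = 2 := map_ofNat C 2
  refine alt_of (A := X 1) (B := 2 * X 0) (A' := X 0) (B' := -(2 * X 1)) (a := 1) (b := 1) (N := 3) 2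
    (by norm_num) (hXi 1) (hof 2 (hXi 0)) (hXi 0) (hof 2 (hXi 1)).neg rfl rfl ?_ ?_
  · rw [c2]; unfold ir is'; ring
  · rw [c2]; unfold ir is'; ring

/-- Klein's form of degree 12 and its Hessian: one of them is large -/
lemma i_alt : Alt (ihh (X 0 : P2) (X 1)) (iff (X 0 : P2) (X 1)) 20 12 := by
  have c : (C ((3125 : ℕ) : ℤ) : P2) = 3125 := map_ofNat C 3125
  have m := fun i j (n : ℕ) (h : i + j = n) => (mon (hXi 0) (hXi 1) i j h)
  have s5 : ((X 0 : P2) ^ 5 * X 1 ^ 5).IsHomogeneous 10 := m 5 5 10 rfl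
  have q1 : ((X 0 : P2) ^ 5 * X 1 ^ 10).IsHomogeneous 15 := m 5 10 15 rfl
  have q2 : ((X 0 : P2) ^ 10 * X 1 ^ 5).IsHomogeneous 15 := m 10 5 15 rfl
  have p0 : (X 0 ^ 10 : P2).IsHomogeneous 10 := (hXi 0).pow 10
  have p1 : (X 1 ^ 10 : P2).IsHomogeneous 10 := (hXi 1).pow 10
  have r0 : (X 0 ^ 15 : P2).IsHomogeneous 15 := (hXi 0).pow 15
  have r1 : (X 1 ^ 15 : P2).IsHomogeneous 15 := (hXi 1).pow 15
  have n3003 : (-3003 * X 1 ^ 15 : P2) = -(3003 * X 1 ^ 15) := by ring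
  have n3125 : (-3125 * X 1 ^ 10 : P2) = -(3125 * X 1 ^ 10) := by ring
  refine alt_of (A := X 0 * (3003 * X 1 ^ 10 - 33022 * (X 0 ^ 5 * X 1 ^ 5) - 3125 * X 0 ^ 10))
    (B := X 1 ^ 4 * (-3003 * X 1 ^ 15 - 684695 * (X 0 ^ 5 * X 1 ^ 10) -
      1485989 * (X 0 ^ 10 * X 1 ^ 5) + 679478 * X 0 ^ 15))
    (A' := X 1 * (-3125 * X 1 ^ 10 + 33022 * (X 0 ^ 5 * X 1 ^ 5) + 3003 * X 0 ^ 10))
    (B' := X 0 ^ 4 * (679478 * X 1 ^ 15 + 1485989 * (X 0 ^ 5 * X 1 ^ 10) -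
      684695 * (X 0 ^ 10 * X 1 ^ 5) + 3003 * X 0 ^ 15))
    (a := 11) (b := 19) (N := 31) 3125 (by norm_num) ?_ ?_ ?_ ?_ rfl rfl ?_ ?_
  · exact (hXi 0).mul (((hof 3003 p1).sub (hof 33022 s5)).sub (hof 3125 p0))
  · rw [n3003]
    exact ((hXi 1).pow 4).mul ((((hof 3003 r1).neg.sub (hof 684695 q1)).sub
      (hof 1485989 q2)).add (hof 679478 r0))
  · rw [n3125]
    exact (hXi 1).mul (((hof 3125 p1).neg.add (hof 33022 s5)).add (hof 3003 p0))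
  · exact ((hXi 0).pow 4).mul ((((hof 679478 r1).add (hof 1485989 q1)).sub
      (hof 684695 q2)).add (hof 3003 r0))
  · rw [c, ← i_bez0 (X 0) (X 1)]; ring
  · rw [c, ← i_bez1 (X 0) (X 1)]; ring

section ev

variable {S : Type} [CommRing S] (x : Fin 2 → S) (r s : P2)

lemma map_iphi {A B : Type} [CommRing A] [CommRing B] (f : A →+* B) (r s : A) :
    f (iphi r s) = iphi (f r) (f s) := by
  have h : f 11 = 11 := map_ofNat f 11
  simp only [iphi, map_add, map_sub, map_mul, map_pow, h]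
lemma map_iff' {A B : Type} [CommRing A] [CommRing B] (f : A →+* B) (r s : A) :
    f (iff r s) = iff (f r) (f s) := by
  simp only [iff, map_mul, map_iphi]
lemma map_ihh {A B : Type} [CommRing A] [CommRing B] (f : A →+* B) (r s : A) :
    f (ihh r s) = ihh (f r) (f s) := by
  have h : f 228 = 228 := map_ofNat f 228
  have h' : f 494 = 494 := map_ofNat f 494
  simp only [ihh, map_add, map_sub, map_mul, map_pow, h, h']
lemma map_iuu {A B : Type} [CommRing A] [CommRing B] (f : A →+* B) (r s : A) :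
    f (iuu r s) = iuu (f r) (f s) := by
  have h : f 522 = 522 := map_ofNat f 522
  have h' : f 10006 = 10006 := map_ofNat f 10006
  simp only [iuu, map_add, map_sub, map_mul, map_pow, h, h']

lemma ev_iff : ev x (iff r s) = iff (ev x r) (ev x s) :=
  map_iff' (MvPolynomial.aeval x : P2 →ₐ[ℤ] S).toRingHom r s
lemma ev_ihh : ev x (ihh r s) = ihh (ev x r) (ev x s) :=
  map_ihh (MvPolynomial.aeval x : P2 →ₐ[ℤ] S).toRingHom r s
lemma ev_iuu : ev x (iuu r s) = iuu (ev x r) (ev x s) :=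
  map_iuu (MvPolynomial.aeval x : P2 →ₐ[ℤ] S).toRingHom r s
lemma ev_iphi : ev x (iphi r s) = iphi (ev x r) (ev x s) :=
  map_iphi (MvPolynomial.aeval x : P2 →ₐ[ℤ] S).toRingHom r s

end ev

lemma i_sq : (ir ^ 2 + is' ^ 2 : P2) = (X 0 ^ 2 + X 1 ^ 2) ^ 2 := by unfold ir is'; ring

lemma i_ff : (iff ir is' : P2) = 2 * (X 0 * X 1 * (X 0 + X 1)) * (X 0 - X 1) * iphi ir is' := by
  unfold iff
  generalize iphi ir is' = Q
  unfold ir is'; ring

/-- the self-map of degree 120 of signature `(2,3,5)` -/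
noncomputable def formIco : Form2 where
  F := C (2 ^ 24 * 3 ^ 12) * ((X 0 ^ 2 + X 1 ^ 2) ^ 2 * iuu ir is') ^ 2
  G := C (2 ^ 24 * 3 ^ 12) * ihh ir is' ^ 3
  E := (X 0 - X 1) * iphi ir is' * ihh ir is' * (X 0 ^ 2 + X 1 ^ 2) * iuu ir is'
  e := 119
  c := 2 ^ 35 * 3 ^ 15
  s := 5
  d := 490
  R0 := C (2 ^ 11 * 3 ^ 3) * ((X 0 * X 1 * (X 0 + X 1) * (X 0 - X 1) * iphi ir is' *
    ihh ir is') ^ 5 * (X 0 ^ 2 + X 1 ^ 2) * iuu ir is' ^ 3)
  R1 := C (2 ^ 11 * 3 ^ 3) * ((X 0 * X 1 * (X 0 + X 1) * (X 0 - X 1) * iphi ir is' *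
    (X 0 ^ 2 + X 1 ^ 2) * iuu ir is') ^ 5 * ihh ir is' ^ 2)
  R2 := (ihh ir is' * (X 0 ^ 2 + X 1 ^ 2) * iuu ir is') ^ 5
  hc := by norm_num
  hF := hCz _ ((((((hXi 0).pow 2).add ((hXi 1).pow 2)).pow 2).mul (iuu_hom ir_hom is_hom)).pow 2)
  hG := hCz _ ((ihh_hom ir_hom is_hom).pow 3)
  hE := (((((hXi 0).sub (hXi 1)).mul (iphi_hom ir_hom is_hom)).mul (ihh_hom ir_hom is_hom)).mul
    (((hXi 0).pow 2).add ((hXi 1).pow 2))).mul (iuu_hom ir_hom is_hom)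
  hR0 := hCz _ (((((((((hXi 0).mul (hXi 1)).mul ((hXi 0).add (hXi 1))).mul
    ((hXi 0).sub (hXi 1))).mul (iphi_hom ir_hom is_hom)).mul (ihh_hom ir_hom is_hom)).pow 5).mul
    (((hXi 0).pow 2).add ((hXi 1).pow 2))).mul ((iuu_hom ir_hom is_hom).pow 3))
  hR1 := hCz _ (((((((((hXi 0).mul (hXi 1)).mul ((hXi 0).add (hXi 1))).mul
    ((hXi 0).sub (hXi 1))).mul (iphi_hom ir_hom is_hom)).mul
    (((hXi 0).pow 2).add ((hXi 1).pow 2))).mul (iuu_hom ir_hom is_hom)).pow 5).mul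
    ((ihh_hom ir_hom is_hom).pow 2))
  hR2 := (((ihh_hom ir_hom is_hom).mul (((hXi 0).pow 2).add ((hXi 1).pow 2))).mul
    (iuu_hom ir_hom is_hom)).pow 5
  hd := rfl
  div0 := by
    have h2 : (C (2 : ℤ) : P2) = 2 := map_ofNat C 2
    have h3 : (C (3 : ℤ) : P2) = 3 := map_ofNat C 3
    simp only [Nat.cast_mul, Nat.cast_pow, Nat.cast_ofNat, map_mul, map_pow, h2, h3]
    generalize iphi ir is' = Q
    generalize ihh ir is' = H
    generalize iuu ir is' = U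
    generalize (X 0 ^ 2 + X 1 ^ 2 : P2) = T
    generalize (X 0 + X 1 : P2) = A
    generalize (X 0 - X 1 : P2) = B
    ring
  div1 := by
    have h2 : (C (2 : ℤ) : P2) = 2 := map_ofNat C 2
    have h3 : (C (3 : ℤ) : P2) = 3 := map_ofNat C 3
    simp only [Nat.cast_mul, Nat.cast_pow, Nat.cast_ofNat, map_mul, map_pow, h2, h3]
    generalize iphi ir is' = Q
    generalize ihh ir is' = H
    generalize iuu ir is' = U
    generalize (X 0 ^ 2 + X 1 ^ 2 : P2) = T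
    generalize (X 0 + X 1 : P2) = A
    generalize (X 0 - X 1 : P2) = B
    ring
  div2 := by
    have h2 : (C (2 : ℤ) : P2) = 2 := map_ofNat C 2
    have h3 : (C (3 : ℤ) : P2) = 3 := map_ofNat C 3
    have hsum : (C (2 ^ 24 * 3 ^ 12) * ((X 0 ^ 2 + X 1 ^ 2) ^ 2 * iuu ir is') ^ 2 +
        C (2 ^ 24 * 3 ^ 12) * ihh ir is' ^ 3 : P2) = 2 ^ 30 * 3 ^ 15 * iff ir is' ^ 5 := by
      rw [← i_sq, ← mul_add, i_syz]
      simp only [map_mul, map_pow, h2, h3]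
      ring
    rw [hsum, i_ff]
    simp only [Nat.cast_mul, Nat.cast_pow, Nat.cast_ofNat, map_mul, map_pow, h2, h3]
    generalize iphi ir is' = Q
    generalize ihh ir is' = H
    generalize iuu ir is' = U
    generalize (X 0 ^ 2 + X 1 ^ 2 : P2) = T
    generalize (X 0 + X 1 : P2) = A
    generalize (X 0 - X 1 : P2) = B
    ring
  zb := by
    refine zeroBdd ((((((hXi 0).sub (hXi 1)).mul (iphi_hom ir_hom is_hom)).mul
      (ihh_hom ir_hom is_hom)).mul (((hXi 0).pow 2).add ((hXi 1).pow 2))).mul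
      (iuu_hom ir_hom is_hom)) ?_
    simp only [ev_mul, ev_iphi, ev_ihh, ev_iuu]
    simp [iphi, ihh, iuu, ir, is']
  lo := by
    have h2 : (C (2 : ℤ) : P2) = 2 := map_ofNat C 2
    have h3 : (C (3 : ℤ) : P2) = 3 := map_ofNat C 3
    apply lo_third_left
    have hsum : (-(C (2 ^ 24 * 3 ^ 12) * ((X 0 ^ 2 + X 1 ^ 2) ^ 2 * iuu ir is') ^ 2 +
        C (2 ^ 24 * 3 ^ 12) * ihh ir is' ^ 3) : P2) = C (-2 ^ 30 * 3 ^ 15) * iff ir is' ^ 5 := by
      rw [← i_sq, ← mul_add, i_syz]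
      simp only [map_mul, map_neg, map_pow, h2, h3]
      ring
    rw [hsum]
    have h60 := lo_of_alt (i := 3) (j := 5) (D := 60) i_alt (2 ^ 24 * 3 ^ 12) (-2 ^ 30 * 3 ^ 15)
      (by norm_num) (by norm_num) rfl rfl
    have h60' : LoBdd (C (-2 ^ 30 * 3 ^ 15) * iff (X 0) (X 1) ^ 5)
        (C (2 ^ 24 * 3 ^ 12) * ihh (X 0) (X 1) ^ 3) 60 := by
      obtain ⟨a, L, ha, hL, h⟩ := h60
      refine ⟨a, L, ha, hL, fun K _ _ x hx => ⟨fun v => ?_, fun w => ?_⟩⟩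
      · rw [max_comm]; exact (h K x hx).1 v
      · rw [max_comm]; exact (h K x hx).2 w
    refine lo_comp h60' irs_lo (fun x => ?_) (fun x => ?_) rfl
    · simp only [ev_mul, ev_C, ev_pow, ev_iff, ev_X]
      rfl
    · simp only [ev_mul, ev_C, ev_pow, ev_ihh, ev_X]
      rfl

end Pool.Agent.Q239.U
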