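import Pool.Agent.Q239.U.Gen

/-!
# Integral coordinates without large common divisors
-/

set_option autoImplicit false

namespace Pool.Agent.Q239.U

open NumberField Height MvPolynomial Pool.Agent.Q239.NF

theorem exists_integral (K : Type) [Field K] [NumberField K] : ∃ n : ℕ, n ≠ 0 ∧
    ∀ x : Fin 2 → K, x ≠ 0 → ∃ l : K, l ≠ 0 ∧ ∃ y : Fin 2 → 𝓞 K,
      (∀ i, (y i : K) = l * x i) ∧ (n : 𝓞 K) ∈ Ideal.span {y 0, y 1} := by
  classical
  have hsurj := ClassGroup.mk0_surjective (R := 𝓞 K)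
  choose rep hrep using hsurj
  refine ⟨∏ c : ClassGroup (𝓞 K), Ideal.absNorm (rep c : Ideal (𝓞 K)), ?_, ?_⟩
  · apply Finset.prod_ne_zero_iff.2
    intro c _
    rw [Ne, Ideal.absNorm_eq_zero_iff]
    exact nonZeroDivisors.ne_zero (rep c).2
  intro x hx
  obtain ⟨a0, b0, hb0, h0⟩ := IsFractionRing.div_surjective (A := 𝓞 K) (x 0)
  obtain ⟨a1, b1, hb1, h1⟩ := IsFractionRing.div_surjective (A := 𝓞 K) (x 1)
  have hb0' : b0 ≠ 0 := nonZeroDivisors.ne_zero hb0
  have hb1' : b1 ≠ 0 := nonZeroDivisors.ne_zero hb1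
  have kb0 : (algebraMap (𝓞 K) K b0) ≠ 0 := by
    rw [Ne, FaithfulSMul.algebraMap_eq_zero_iff]; exact hb0'
  have kb1 : (algebraMap (𝓞 K) K b1) ≠ 0 := by
    rw [Ne, FaithfulSMul.algebraMap_eq_zero_iff]; exact hb1'
  set z0 : 𝓞 K := a0 * b1 with hz0
  set z1 : 𝓞 K := a1 * b0 with hz1
  have ez0 : algebraMap (𝓞 K) K z0 = algebraMap (𝓞 K) K b0 * algebraMap (𝓞 K) K b1 * x 0 := by
    rw [hz0, map_mul, ← h0]; field_simp
  have ez1 : algebraMap (𝓞 K) K z1 = algebraMap (𝓞 K) K b0 * algebraMap (𝓞 K) K b1 * x 1 := by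
    rw [hz1, map_mul, ← h1]; field_simp
  set I : Ideal (𝓞 K) := Ideal.span {z0, z1} with hI
  have hI0 : I ≠ ⊥ := by
    intro h
    rw [hI, Ideal.span_eq_bot] at h
    have e0 : z0 = 0 := h z0 (by simp)
    have e1 : z1 = 0 := h z1 (by simp)
    apply hx
    funext i
    fin_cases i
    · have := ez0
      rw [e0, map_zero] at this
      rcases mul_eq_zero.1 this.symm with h2 | h2
      · exact absurd h2 (mul_ne_zero kb0 kb1)
      · exact h2
    · have := ez1
      rw [e1, map_zero] at this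
      rcases mul_eq_zero.1 this.symm with h2 | h2
      · exact absurd h2 (mul_ne_zero kb0 kb1)
      · exact h2
  set I' : nonZeroDivisors (Ideal (𝓞 K)) := ⟨I, mem_nonZeroDivisors_of_ne_zero hI0⟩ with hI'
  set J : nonZeroDivisors (Ideal (𝓞 K)) := rep (ClassGroup.mk0 I') with hJ
  have hcl : ClassGroup.mk0 I' = ClassGroup.mk0 J := (hrep _).symm
  obtain ⟨s, t, hs, ht, hst⟩ := ClassGroup.mk0_eq_mk0_iff.1 hcl
  have hst' : Ideal.span {s} * I = Ideal.span {t} * (J : Ideal (𝓞 K)) := hst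
  have m0 : s * z0 ∈ Ideal.span {t} * (J : Ideal (𝓞 K)) := by
    rw [← hst']
    exact Ideal.mul_mem_mul (Ideal.mem_span_singleton_self s) (Ideal.subset_span (by simp))
  have m1 : s * z1 ∈ Ideal.span {t} * (J : Ideal (𝓞 K)) := by
    rw [← hst']
    exact Ideal.mul_mem_mul (Ideal.mem_span_singleton_self s) (Ideal.subset_span (by simp))
  obtain ⟨y0, hy0, e0⟩ := Ideal.mem_span_singleton_mul.1 m0
  obtain ⟨y1, hy1, e1⟩ := Ideal.mem_span_singleton_mul.1 m1
  have ks : (algebraMap (𝓞 K) K s) ≠ 0 := by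
    rw [Ne, FaithfulSMul.algebraMap_eq_zero_iff]; exact hs
  have kt : (algebraMap (𝓞 K) K t) ≠ 0 := by
    rw [Ne, FaithfulSMul.algebraMap_eq_zero_iff]; exact ht
  refine ⟨algebraMap (𝓞 K) K s / algebraMap (𝓞 K) K t *
    (algebraMap (𝓞 K) K b0 * algebraMap (𝓞 K) K b1),
    mul_ne_zero (div_ne_zero ks kt) (mul_ne_zero kb0 kb1), ![y0, y1], ?_, ?_⟩
  · intro i
    fin_cases i
    · show algebraMap (𝓞 K) K y0 = _
      have := congrArg (algebraMap (𝓞 K) K) e0
      rw [map_mul, map_mul, ez0] at this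
      rw [div_mul_eq_mul_div, div_mul_eq_mul_div, eq_div_iff kt]
      rw [mul_comm (algebraMap (𝓞 K) K y0), this]
      show _ = _ * (_ * _) * x 0
      ring
    · show algebraMap (𝓞 K) K y1 = _
      have := congrArg (algebraMap (𝓞 K) K) e1
      rw [map_mul, map_mul, ez1] at this
      rw [div_mul_eq_mul_div, div_mul_eq_mul_div, eq_div_iff kt]
      rw [mul_comm (algebraMap (𝓞 K) K y1), this]
      show _ = _ * (_ * _) * x 1
      ring
  · have hspan : Ideal.span {y0, y1} = (J : Ideal (𝓞 K)) := by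
      have h2 : Ideal.span {t} * Ideal.span {y0, y1} = Ideal.span {t} * (J : Ideal (𝓞 K)) := by
        rw [← hst', hI, Ideal.span_mul_span', Ideal.span_mul_span']
        congr 1
        simp only [Set.singleton_mul, Set.image_pair]
        rw [e0, e1]
      exact mul_left_cancel₀ (by
        rw [Ne, Ideal.zero_eq_bot, Ideal.span_singleton_eq_bot]; exact ht) h2
    show _ ∈ Ideal.span {y0, y1}
    rw [hspan]
    have hmem : ((Ideal.absNorm (J : Ideal (𝓞 K)) : ℕ) : 𝓞 K) ∈ (J : Ideal (𝓞 K)) :=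
      Ideal.absNorm_mem _
    have hdvd : Ideal.absNorm (J : Ideal (𝓞 K)) ∣
        ∏ c : ClassGroup (𝓞 K), Ideal.absNorm (rep c : Ideal (𝓞 K)) :=
      Finset.dvd_prod_of_mem (fun c => Ideal.absNorm (rep c : Ideal (𝓞 K))) (Finset.mem_univ _)
    obtain ⟨k, hk⟩ := hdvd
    rw [hk]
    push_cast
    exact Ideal.mul_mem_right _ _ hmem

end Pool.Agent.Q239.U
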