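import Pool.Agent.Q239.U.Uniform
import Pool.Agent.Q239.NF.Shape

/-!
# The Euclidean signatures over all number fields
-/

set_option autoImplicit false

namespace Pool.Agent.Q239.U

open NumberField Height MvPolynomial Pool.Agent.Q239.NF

/-! ### `(3,3,3)` -/

/-- `(a (a + 2 b) ^ 3 : -b (2 a + b) ^ 3 : -(a + b) (a - b) ^ 3)` -/
noncomputable def form33 : Form2 where
  F := X 0 * (X 0 + 2 * X 1) ^ 3
  G := -(X 1 * (2 * X 0 + X 1) ^ 3)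
  E := (X 0 + 2 * X 1) * (2 * X 0 + X 1) * (X 0 - X 1)
  e := 3
  c := 1
  s := 3
  d := 14
  R0 := X 0 ^ 2 * (X 1 * (X 0 + X 1)) ^ 3 * ((2 * X 0 + X 1) * (X 0 - X 1)) ^ 3
  R1 := -(X 1 ^ 2 * (X 0 * (X 0 + X 1)) ^ 3 * ((X 0 + 2 * X 1) * (X 0 - X 1)) ^ 3)
  R2 := (X 0 + X 1) ^ 2 * (X 0 * X 1) ^ 3 * ((X 0 + 2 * X 1) * (2 * X 0 + X 1)) ^ 3
  hc := one_ne_zero
  hF := (hXi 0).mul (((hXi 0).add (hof 2 (hXi 1))).pow 3)
  hG := ((hXi 1).mul (((hof 2 (hXi 0)).add (hXi 1)).pow 3)).neg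
  hE := (((hXi 0).add (hof 2 (hXi 1))).mul ((hof 2 (hXi 0)).add (hXi 1))).mul ((hXi 0).sub (hXi 1))
  hR0 := (((hXi 0).pow 2).mul (((hXi 1).mul ((hXi 0).add (hXi 1))).pow 3)).mul
    ((((hof 2 (hXi 0)).add (hXi 1)).mul ((hXi 0).sub (hXi 1))).pow 3)
  hR1 := ((((hXi 1).pow 2).mul (((hXi 0).mul ((hXi 0).add (hXi 1))).pow 3)).mul
    ((((hXi 0).add (hof 2 (hXi 1))).mul ((hXi 0).sub (hXi 1))).pow 3)).neg
  hR2 := ((((hXi 0).add (hXi 1)).pow 2).mul (((hXi 0).mul (hXi 1)).pow 3)).mul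
    ((((hXi 0).add (hof 2 (hXi 1))).mul ((hof 2 (hXi 0)).add (hXi 1))).pow 3)
  hd := rfl
  div0 := by
    simp only [Nat.cast_one, map_one, one_mul]
    ring
  div1 := by
    simp only [Nat.cast_one, map_one, one_mul]
    ring
  div2 := by
    simp only [Nat.cast_one, map_one, one_mul]
    have h : (X 0 * (X 0 + 2 * X 1) ^ 3 + -(X 1 * (2 * X 0 + X 1) ^ 3) : P2) =
        (X 0 + X 1) * (X 0 - X 1) ^ 3 := by ring
    rw [h]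
    ring
  zb := by
    refine zeroBdd ((((hXi 0).add (hof 2 (hXi 1))).mul ((hof 2 (hXi 0)).add (hXi 1))).mul
      ((hXi 0).sub (hXi 1))) ?_
    have h2 : ev (![1, 0] : Fin 2 → ℤ) (2 : P2) = 2 := ev_num _ 2
    simp [h2]
  lo := by
    apply lo_one
    have c81 : (C ((81 : ℕ) : ℤ) : P2) = 81 := map_ofNat C 81
    have m1 : ((X 0 : P2) ^ 2 * X 1).IsHomogeneous 3 := ((hXi 0).pow 2).mul (hXi 1)
    have m2 : ((X 0 : P2) * X 1 ^ 2).IsHomogeneous 3 := (hXi 0).mul ((hXi 1).pow 2)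
    have m0 : ((X 0 : P2) ^ 3).IsHomogeneous 3 := (hXi 0).pow 3
    have m3 : ((X 1 : P2) ^ 3).IsHomogeneous 3 := (hXi 1).pow 3
    refine alt_of
      (A := 81 * X 0 ^ 3 + 154 * (X 0 ^ 2 * X 1) + 88 * (X 0 * X 1 ^ 2) + 16 * X 1 ^ 3)
      (B := 80 * X 0 ^ 3 + 128 * (X 0 ^ 2 * X 1) + 128 * (X 0 * X 1 ^ 2))
      (A' := -(128 * (X 0 ^ 2 * X 1) + 128 * (X 0 * X 1 ^ 2) + 80 * X 1 ^ 3))
      (B' := -(16 * X 0 ^ 3 + 88 * (X 0 ^ 2 * X 1) + 154 * (X 0 * X 1 ^ 2) + 81 * X 1 ^ 3))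
      (a := 3) (b := 3) (N := 7) 81 (by norm_num)
      ((((hof 81 m0).add (hof 154 m1)).add (hof 88 m2)).add (hof 16 m3))
      (((hof 80 m0).add (hof 128 m1)).add (hof 128 m2))
      (((hof 128 m1).add (hof 128 m2)).add (hof 80 m3)).neg
      ((((hof 16 m0).add (hof 88 m1)).add (hof 154 m2)).add (hof 81 m3)).neg rfl rfl ?_ ?_
    · rw [c81]; ring
    · rw [c81]; ring

/-! ### `(2,4,4)` -/

/-- `(-(a + 2 b) ^ 2 : 4 b (a + b) : a ^ 2)` -/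
noncomputable def form24 : Form2 where
  F := -(X 0 + 2 * X 1) ^ 2
  G := 4 * (X 1 * (X 0 + X 1))
  E := X 0 + 2 * X 1
  e := 1
  c := 4
  s := 2
  d := 6
  R0 := -(4 * (X 0 * X 1 * (X 0 + X 1)) ^ 2)
  R1 := X 0 ^ 2 * X 1 * (X 0 + X 1) * (X 0 + 2 * X 1) ^ 2
  R2 := -(4 * (X 1 * (X 0 + X 1) * (X 0 + 2 * X 1)) ^ 2)
  hc := by norm_num
  hF := (((hXi 0).add (hof 2 (hXi 1))).pow 2).neg
  hG := hof 4 ((hXi 1).mul ((hXi 0).add (hXi 1)))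
  hE := (hXi 0).add (hof 2 (hXi 1))
  hR0 := (hof 4 ((((hXi 0).mul (hXi 1)).mul ((hXi 0).add (hXi 1))).pow 2)).neg
  hR1 := (((((hXi 0).pow 2).mul (hXi 1)).mul ((hXi 0).add (hXi 1)))).mul
    (((hXi 0).add (hof 2 (hXi 1))).pow 2)
  hR2 := (hof 4 ((((hXi 1).mul ((hXi 0).add (hXi 1))).mul ((hXi 0).add (hof 2 (hXi 1)))).pow 2)).neg
  hd := rfl
  div0 := by
    have c4 : (C ((4 : ℕ) : ℤ) : P2) = 4 := map_ofNat C 4
    rw [c4]; ring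
  div1 := by
    have c4 : (C ((4 : ℕ) : ℤ) : P2) = 4 := map_ofNat C 4
    rw [c4]; ring
  div2 := by
    have c4 : (C ((4 : ℕ) : ℤ) : P2) = 4 := map_ofNat C 4
    rw [c4]; ring
  zb := by
    refine zeroBdd ((hXi 0).add (hof 2 (hXi 1))) ?_
    simp
  lo := by
    apply lo_third_right
    have h : (-(-(X 0 + 2 * X 1) ^ 2 + 4 * (X 1 * (X 0 + X 1))) : P2) = C 1 * X 0 ^ 2 := by
      rw [map_one]
      ring
    have h' : (-(X 0 + 2 * X 1) ^ 2 : P2) = C (-1) * (X 0 + 2 * X 1) ^ 2 := by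
      rw [map_neg, map_one]
      ring
    rw [h, h']
    refine lo_of_alt (p := 1) (q := 1) (i := 2) (j := 2) ?_ _ _ (by norm_num) (by norm_num)
      (by norm_num) (by norm_num)
    have c2 : (C ((2 : ℕ) : ℤ) : P2) = 2 := map_ofNat C 2
    have h2 : (2 : P2).IsHomogeneous 0 := by simpa using hof 2 (isHomogeneous_one (Fin 2) ℤ)
    refine alt_of (A := 0) (B := 2) (A' := 1) (B' := -1) (a := 0) (b := 0) (N := 1) 2
      (by norm_num) (isHomogeneous_zero _ _ _) h2 (isHomogeneous_one _ _)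
      ((isHomogeneous_one _ _).neg) rfl rfl ?_ ?_
    · rw [c2]; ring
    · rw [c2]; ring

/-! ### `(2,3,6)` -/

/-- `(-a (8 a + 9 b) ^ 2 : (4 a + 3 b) ^ 3 : -27 (a + b) b ^ 2)` -/
noncomputable def form26 : Form2 where
  F := -(X 0 * (8 * X 0 + 9 * X 1) ^ 2)
  G := (4 * X 0 + 3 * X 1) ^ 3
  E := (8 * X 0 + 9 * X 1) * (4 * X 0 + 3 * X 1)
  e := 2
  c := 27
  s := 3
  d := 12
  R0 := -(27 * (X 0 ^ 2 * (X 1 * (X 0 + X 1)) ^ 3 * (8 * X 0 + 9 * X 1) * (4 * X 0 + 3 * X 1) ^ 3))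
  R1 := 27 * ((X 0 * X 1 * (X 0 + X 1)) ^ 3 * (8 * X 0 + 9 * X 1) ^ 3)
  R2 := X 0 ^ 3 * X 1 * (X 0 + X 1) ^ 2 * ((8 * X 0 + 9 * X 1) * (4 * X 0 + 3 * X 1)) ^ 3
  hc := by norm_num
  hF := ((hXi 0).mul (((hof 8 (hXi 0)).add (hof 9 (hXi 1))).pow 2)).neg
  hG := ((hof 4 (hXi 0)).add (hof 3 (hXi 1))).pow 3
  hE := ((hof 8 (hXi 0)).add (hof 9 (hXi 1))).mul ((hof 4 (hXi 0)).add (hof 3 (hXi 1)))
  hR0 := (hof 27 (((((hXi 0).pow 2).mul (((hXi 1).mul ((hXi 0).add (hXi 1))).pow 3)).mul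
    ((hof 8 (hXi 0)).add (hof 9 (hXi 1)))).mul (((hof 4 (hXi 0)).add (hof 3 (hXi 1))).pow 3))).neg
  hR1 := hof 27 (((((hXi 0).mul (hXi 1)).mul ((hXi 0).add (hXi 1))).pow 3).mul
    (((hof 8 (hXi 0)).add (hof 9 (hXi 1))).pow 3))
  hR2 := ((((hXi 0).pow 3).mul (hXi 1)).mul (((hXi 0).add (hXi 1)).pow 2)).mul
    ((((hof 8 (hXi 0)).add (hof 9 (hXi 1))).mul ((hof 4 (hXi 0)).add (hof 3 (hXi 1)))).pow 3)
  hd := rfl
  div0 := by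
    have c27 : (C ((27 : ℕ) : ℤ) : P2) = 27 := map_ofNat C 27
    rw [c27]
    generalize (8 * X 0 + 9 * X 1 : P2) = A
    generalize (4 * X 0 + 3 * X 1 : P2) = B
    ring
  div1 := by
    have c27 : (C ((27 : ℕ) : ℤ) : P2) = 27 := map_ofNat C 27
    rw [c27]
    generalize (8 * X 0 + 9 * X 1 : P2) = A
    generalize (4 * X 0 + 3 * X 1 : P2) = B
    ring
  div2 := by
    have c27 : (C ((27 : ℕ) : ℤ) : P2) = 27 := map_ofNat C 27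
    have h : (-(X 0 * (8 * X 0 + 9 * X 1) ^ 2) + (4 * X 0 + 3 * X 1) ^ 3 : P2) =
        27 * (X 0 + X 1) * X 1 ^ 2 := by ring
    rw [h, c27]
    generalize (8 * X 0 + 9 * X 1 : P2) = A
    generalize (4 * X 0 + 3 * X 1 : P2) = B
    ring
  zb := by
    refine zeroBdd (((hof 8 (hXi 0)).add (hof 9 (hXi 1))).mul
      ((hof 4 (hXi 0)).add (hof 3 (hXi 1)))) ?_
    have h8 : ev (![1, 0] : Fin 2 → ℤ) (8 : P2) = 8 := ev_num _ 8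
    have h4 : ev (![1, 0] : Fin 2 → ℤ) (4 : P2) = 4 := ev_num _ 4
    simp [h8, h4]
  lo := by
    apply lo_one
    have c : (C ((6912 : ℕ) : ℤ) : P2) = 6912 := map_ofNat C 6912
    have m1 : ((X 0 : P2) * X 1).IsHomogeneous 2 := (hXi 0).mul (hXi 1)
    have m0 : ((X 0 : P2) ^ 2).IsHomogeneous 2 := (hXi 0).pow 2
    have m2 : ((X 1 : P2) ^ 2).IsHomogeneous 2 := (hXi 1).pow 2
    refine alt_of
      (A := -(27 * (544 * X 0 ^ 2 + 720 * (X 0 * X 1) + 243 * X 1 ^ 2)))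
      (B := -(27 * (540 * X 0 ^ 2 + 729 * (X 0 * X 1))))
      (A' := 256 * (64 * X 0 ^ 2 + 80 * (X 0 * X 1) + 28 * X 1 ^ 2))
      (B' := 256 * (64 * X 0 ^ 2 + 80 * (X 0 * X 1) + X 1 ^ 2))
      (a := 2) (b := 2) (N := 5) 6912 (by norm_num)
      (hof 27 (((hof 544 m0).add (hof 720 m1)).add (hof 243 m2))).neg
      (hof 27 ((hof 540 m0).add (hof 729 m1))).neg
      (hof 256 (((hof 64 m0).add (hof 80 m1)).add (hof 28 m2)))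
      (hof 256 (((hof 64 m0).add (hof 80 m1)).add m2)) rfl rfl ?_ ?_
    · rw [c]; ring
    · rw [c]; ring

end Pool.Agent.Q239.U
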