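import Pool.Agent.Q239.U.Rad

/-!
# Self-maps of the line given by integer forms; composition
-/

set_option autoImplicit false

namespace Pool.Agent.Q239.U

open NumberField Height MvPolynomial Pool.Agent.Q239.NF

/-- the first two coordinates -/
def pr {R : Type} (x : Fin 3 → R) : Fin 2 → R := ![x 0, x 1]

/-- the map given by two binary forms -/
noncomputable def mapOf (F G : MvPolynomial (Fin 2) ℤ) {R : Type} [CommRing R] (x : Fin 3 → R) :
    Fin 3 → R :=
  ![ev (pr x) F, ev (pr x) G, -(ev (pr x) F + ev (pr x) G)]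

/-- a lower bound for the size of the pair `(F, G)` at every place -/
def LoBdd (F G : MvPolynomial (Fin 2) ℤ) (D : ℕ) : Prop :=
  ∃ (a : ℕ) (L : ℝ), a ≠ 0 ∧ 1 ≤ L ∧ ∀ (K : Type) [Field K] [NumberField K] (x : Fin 2 → K),
    x ≠ 0 →
    (∀ v : FinitePlace K, v (a : K) * (⨆ i, v (x i)) ^ D ≤ max (v (ev x F)) (v (ev x G))) ∧
    (∀ w : InfinitePlace K, (⨆ i, w (x i)) ^ D ≤ L * max (w (ev x F)) (w (ev x G)))

/-- the zeros of `E` have bounded height -/
def ZeroBdd (E : MvPolynomial (Fin 2) ℤ) : Prop :=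
  ∃ C : ℝ, ∀ (K : Type) [Field K] [NumberField K] (x : Fin 2 → K), x 1 ≠ 0 → ev x E = 0 →
      logHeight x ≤ C * dg K

/-- a self-map of the line of degree `e + 1`, given by integer forms `F`, `G`, and its critical
points, the zeros of `E` -/
structure Form2 where
  F : MvPolynomial (Fin 2) ℤ
  G : MvPolynomial (Fin 2) ℤ
  E : MvPolynomial (Fin 2) ℤ
  e : ℕ
  c : ℕ
  s : ℕ
  d : ℕ
  R0 : MvPolynomial (Fin 2) ℤ
  R1 : MvPolynomial (Fin 2) ℤ
  R2 : MvPolynomial (Fin 2) ℤ
  hc : c ≠ 0
  hF : F.IsHomogeneous (e + 1)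
  hG : G.IsHomogeneous (e + 1)
  hE : E.IsHomogeneous e
  hR0 : R0.IsHomogeneous d
  hR1 : R1.IsHomogeneous d
  hR2 : R2.IsHomogeneous d
  hd : (e + 1) + d = (3 + e) * s
  div0 : F * R0 = C (c : ℤ) * (X 0 * X 1 * (X 0 + X 1) * E) ^ s
  div1 : G * R1 = C (c : ℤ) * (X 0 * X 1 * (X 0 + X 1) * E) ^ s
  div2 : (F + G) * R2 = C (c : ℤ) * (X 0 * X 1 * (X 0 + X 1) * E) ^ s
  zb : ZeroBdd E
  lo : LoBdd F G (e + 1)

/-- a self-map of the line over all number fields, with absolute constants -/
structure UMap where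
  T : ∀ {K : Type} [Field K] [NumberField K], (Fin 3 → K) → (Fin 3 → K)
  D : ℝ
  C : ℝ
  hD : 1 ≤ D
  hC : 0 ≤ C
  prop : ∀ (K : Type) [Field K] [NumberField K] (x : Fin 3 → K), Good x →
    logHeight x ≤ C * dg K ∨ (Good (T x) ∧ logHeight (T x) ≤ D * logHeight x + C * dg K ∧
      D * logHeight x ≤ logHeight (T x) + C * dg K ∧
      RR (T x) ≤ RR x + (D - 1) * logHeight x + C * dg K)

section aux

variable {K : Type} [Field K] [NumberField K]

lemma pr_ne {x : Fin 3 → K} (hx : Good x) : pr x ≠ 0 := fun h => hx.2 0 (congrFun h 0)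

lemma pr_le (v : AbsoluteValue K ℝ) (x : Fin 3 → K) (i : Fin 2) : v (pr x i) ≤ ⨆ i, v (x i) := by
  fin_cases i
  · exact le_sup' v x 0
  · exact le_sup' v x 1

lemma pr_sup_le (v : AbsoluteValue K ℝ) (x : Fin 3 → K) :
    (⨆ i, v (pr x i)) ≤ ⨆ i, v (x i) := ciSup_le fun i => pr_le v x i

lemma pr_pow (v : AbsoluteValue K ℝ) (x : Fin 3 → K) (n : ℕ) :
    (⨆ i, v (pr x i)) ^ n ≤ (⨆ i, v (x i)) ^ n :=
  pow_le_pow_left₀ (sup_nn v _) (pr_sup_le v x) n

lemma third {x : Fin 3 → K} (hx : Good x) : x 2 = -(x 0 + x 1) := by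
  linear_combination hx.1

lemma sup3_fin (v : FinitePlace K) {x : Fin 3 → K} (h : x 2 = -(x 0 + x 1)) :
    (⨆ i, v (x i)) = max (v (x 0)) (v (x 1)) := by
  apply le_antisymm
  · apply ciSup_le
    intro i
    fin_cases i
    · exact le_max_left _ _
    · exact le_max_right _ _
    · show v (x 2) ≤ _
      rw [h]
      have : v (-(x 0 + x 1)) = v (x 0 + x 1) := v.1.map_neg _
      rw [this]
      exact FinitePlace.add_le v _ _
  · exact max_le (le_sup' v.1 x 0) (le_sup' v.1 x 1)

lemma sup3_inf (w : InfinitePlace K) {x : Fin 3 → K} (h : x 2 = -(x 0 + x 1)) :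
    (⨆ i, w (x i)) ≤ 2 * max (w (x 0)) (w (x 1)) := by
  have h0 : 0 ≤ w (x 0) := w.1.nonneg _
  have h1 : 0 ≤ w (x 1) := w.1.nonneg _
  have h2 := le_max_left (w (x 0)) (w (x 1))
  have h3 := le_max_right (w (x 0)) (w (x 1))
  apply ciSup_le
  intro i
  fin_cases i
  · show w (x 0) ≤ _
    linarith
  · show w (x 1) ≤ _
    linarith
  · show w (x 2) ≤ _
    rw [h]
    have e1 : w (-(x 0 + x 1)) = w (x 0 + x 1) := w.1.map_neg _
    have e2 : w (x 0 + x 1) ≤ w (x 0) + w (x 1) := w.1.add_le _ _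
    rw [e1]; linarith

lemma sup2 (v : AbsoluteValue K ℝ) (x : Fin 2 → K) :
    (⨆ i, v (x i)) = max (v (x 0)) (v (x 1)) := by
  apply le_antisymm
  · apply ciSup_le
    intro i
    fin_cases i
    · exact le_max_left _ _
    · exact le_max_right _ _
  · exact max_le (le_sup' v x 0) (le_sup' v x 1)

/-- the height of a point of the line and of its first two coordinates -/
lemma height_pr_le {x : Fin 3 → K} (hx : Good x) : logHeight (pr x) ≤ logHeight x := by
  have := height_cmp (x := pr x) (y := x) (pr_ne hx) hx.ne_zero 1 1 1 one_ne_zero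
    (L := 1) one_pos (fun v => by
      simp only [Nat.cast_one, map_one, one_mul, pow_one]
      exact pr_sup_le v.1 x) (fun w => by
      simp only [pow_one, one_mul]
      exact pr_sup_le w.1 x)
  simpa using this

lemma height_le_pr {x : Fin 3 → K} (hx : Good x) :
    logHeight x ≤ logHeight (pr x) + Real.log 2 * dg K := by
  have := height_cmp (x := x) (y := pr x) hx.ne_zero (pr_ne hx) 1 1 1 one_ne_zero
    (L := 2) two_pos (fun v => by
      simp only [Nat.cast_one, map_one, one_mul, pow_one]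
      have h1 : (⨆ i, v (pr x i)) = max (v (pr x 0)) (v (pr x 1)) := sup2 v.1 (pr x)
      rw [sup3_fin v (third hx), h1]
      exact le_rfl) (fun w => by
      simp only [pow_one]
      have h1 : (⨆ i, w (pr x i)) = max (w (pr x 0)) (w (pr x 1)) := sup2 w.1 (pr x)
      rw [h1]
      exact sup3_inf w (third hx))
  simpa using this

end aux

theorem Form2.prop (s : Form2) : ∃ C : ℝ, 0 ≤ C ∧ ∀ (K : Type) [Field K] [NumberField K]
    (x : Fin 3 → K), Good x →
    logHeight x ≤ C * dg K ∨ (Good (mapOf s.F s.G x) ∧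
      logHeight (mapOf s.F s.G x) ≤ ((s.e : ℝ) + 1) * logHeight x + C * dg K ∧
      ((s.e : ℝ) + 1) * logHeight x ≤ logHeight (mapOf s.F s.G x) + C * dg K ∧
      RR (mapOf s.F s.G x) ≤ RR x + (((s.e : ℝ) + 1) - 1) * logHeight x + C * dg K) := by
  obtain ⟨Cz, hz⟩ := s.zb
  obtain ⟨a, L, ha, hL, hlo⟩ := s.lo
  have n0 := one_le_nrm s.F
  have n1 := one_le_nrm s.G
  have n2 := one_le_nrm s.E
  have lg : 0 ≤ Real.log (nrm s.F + nrm s.G) := Real.log_nonneg (by linarith)
  have lE : 0 ≤ Real.log (nrm s.E) := Real.log_nonneg n2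
  have lc : 0 ≤ Real.log (s.c : ℝ) := Real.log_natCast_nonneg _
  have la : 0 ≤ Real.log (a : ℝ) := Real.log_natCast_nonneg _
  have l2 : 0 ≤ Real.log 2 := Real.log_nonneg (by norm_num)
  have lL : 0 ≤ Real.log (2 ^ (s.e + 1) * L) := Real.log_nonneg (by
    have : (1 : ℝ) ≤ 2 ^ (s.e + 1) := one_le_pow₀ (by norm_num)
    nlinarith)
  refine ⟨|Cz| + Real.log 2 + Real.log (nrm s.F + nrm s.G) + Real.log (nrm s.E) + Real.log s.c +
    Real.log a + Real.log (2 ^ (s.e + 1) * L), by positivity, fun K _ _ x hx => ?_⟩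
  have hdg := dg_pos K
  set CC : ℝ := |Cz| + Real.log 2 + Real.log (nrm s.F + nrm s.G) + Real.log (nrm s.E) +
    Real.log s.c + Real.log a + Real.log (2 ^ (s.e + 1) * L) with hCC
  have hCz := le_abs_self Cz
  have hCz' := abs_nonneg Cz
  by_cases hE : ev (pr x) s.E = 0
  · left
    have h1 := hz K (pr x) (hx.2 1) hE
    have h2 := height_le_pr hx
    have h3 : Cz * dg K + Real.log 2 * dg K ≤ CC * dg K := by
      rw [← add_mul]
      apply mul_le_mul_of_nonneg_right _ hdg.le
      linarith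
    linarith
  right
  -- the image is good
  have hx2 := (third hx)
  have hc0 : (s.c : K) ≠ 0 := by exact_mod_cast s.hc
  have e0 : ev (pr x) s.F * ev (pr x) s.R0 = s.c * (x 0 * x 1 * (x 0 + x 1) * ev (pr x) s.E) ^ s.s := by
    have := congrArg (ev (pr x)) s.div0
    simpa [pr] using this
  have e1 : ev (pr x) s.G * ev (pr x) s.R1 = s.c * (x 0 * x 1 * (x 0 + x 1) * ev (pr x) s.E) ^ s.s := by
    have := congrArg (ev (pr x)) s.div1
    simpa [pr] using this
  have e2 : (ev (pr x) s.F + ev (pr x) s.G) * ev (pr x) s.R2 =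
      s.c * (x 0 * x 1 * (x 0 + x 1) * ev (pr x) s.E) ^ s.s := by
    have := congrArg (ev (pr x)) s.div2
    simpa [pr] using this
  have h01 : x 0 + x 1 ≠ 0 := by
    intro h
    apply hx.2 2
    rw [hx2, h, neg_zero]
  have hR : (s.c : K) * (x 0 * x 1 * (x 0 + x 1) * ev (pr x) s.E) ^ s.s ≠ 0 :=
    mul_ne_zero hc0 (pow_ne_zero _ (mul_ne_zero (mul_ne_zero (mul_ne_zero (hx.2 0) (hx.2 1)) h01) hE))
  have hF0 : ev (pr x) s.F ≠ 0 := left_ne_zero_of_mul (by rw [e0]; exact hR)
  have hG0 : ev (pr x) s.G ≠ 0 := left_ne_zero_of_mul (by rw [e1]; exact hR)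
  have hS0 : ev (pr x) s.F + ev (pr x) s.G ≠ 0 := left_ne_zero_of_mul (by rw [e2]; exact hR)
  have hT : Good (mapOf s.F s.G x) := by
    refine ⟨?_, fun i => ?_⟩
    · show ev (pr x) s.F + ev (pr x) s.G + -(ev (pr x) s.F + ev (pr x) s.G) = 0
      ring
    · fin_cases i
      · exact hF0
      · exact hG0
      · exact neg_ne_zero.2 hS0
  have hTthird : mapOf s.F s.G x 2 = -(mapOf s.F s.G x 0 + mapOf s.F s.G x 1) := rfl
  have fF : ∀ v : FinitePlace K, v (ev (pr x) s.F) ≤ (⨆ i, v (x i)) ^ (s.e + 1) := fun v =>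
    fin_form v s.hF (pr x) (sup_nn v.1 x) (pr_le v.1 x)
  have fG : ∀ v : FinitePlace K, v (ev (pr x) s.G) ≤ (⨆ i, v (x i)) ^ (s.e + 1) := fun v =>
    fin_form v s.hG (pr x) (sup_nn v.1 x) (pr_le v.1 x)
  have fE : ∀ v : FinitePlace K, v (ev (pr x) s.E) ≤ (⨆ i, v (x i)) ^ s.e := fun v =>
    fin_form v s.hE (pr x) (sup_nn v.1 x) (pr_le v.1 x)
  have iF : ∀ w : InfinitePlace K, w (ev (pr x) s.F) ≤ nrm s.F * (⨆ i, w (x i)) ^ (s.e + 1) :=
    fun w => inf_form w s.hF (pr x) (sup_nn w.1 x) (pr_le w.1 x)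
  have iG : ∀ w : InfinitePlace K, w (ev (pr x) s.G) ≤ nrm s.G * (⨆ i, w (x i)) ^ (s.e + 1) :=
    fun w => inf_form w s.hG (pr x) (sup_nn w.1 x) (pr_le w.1 x)
  have iE : ∀ w : InfinitePlace K, w (ev (pr x) s.E) ≤ nrm s.E * (⨆ i, w (x i)) ^ s.e :=
    fun w => inf_form w s.hE (pr x) (sup_nn w.1 x) (pr_le w.1 x)
  refine ⟨hT, ?_, ?_, ?_⟩
  · -- upper bound
    have := height_cmp (x := mapOf s.F s.G x) (y := x) hT.ne_zero hx.ne_zero 1 (s.e + 1) 1
      one_ne_zero (L := nrm s.F + nrm s.G) (by linarith) (fun v => by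
        simp only [Nat.cast_one, map_one, one_mul, pow_one]
        rw [sup3_fin v hTthird]
        exact max_le (fF v) (fG v)) (fun w => by
        rw [pow_one]
        have hm : 0 ≤ (⨆ i, w (x i)) ^ (s.e + 1) := pow_nonneg (sup_nn w.1 x) _
        have hm1 : 0 ≤ nrm s.F * (⨆ i, w (x i)) ^ (s.e + 1) := by positivity
        have hm2 : 0 ≤ nrm s.G * (⨆ i, w (x i)) ^ (s.e + 1) := by positivity
        rw [add_mul]
        apply ciSup_le
        intro i
        fin_cases i
        · exact (iF w).trans (by linarith)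
        · exact (iG w).trans (by linarith)
        · show w (-(ev (pr x) s.F + ev (pr x) s.G)) ≤ _
          have a1 : w (-(ev (pr x) s.F + ev (pr x) s.G)) = w (ev (pr x) s.F + ev (pr x) s.G) :=
            w.1.map_neg _
          have a2 : w (ev (pr x) s.F + ev (pr x) s.G) ≤ w (ev (pr x) s.F) + w (ev (pr x) s.G) :=
            w.1.add_le _ _
          rw [a1]
          exact a2.trans (add_le_add (iF w) (iG w)))
    simp only [Nat.cast_one, Real.log_one, add_zero, one_mul] at this
    push_cast at this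
    have h3 : Real.log (nrm s.F + nrm s.G) * dg K ≤ CC * dg K := by
      apply mul_le_mul_of_nonneg_right _ hdg.le
      linarith
    linarith
  · -- lower bound
    have := height_cmp (x := x) (y := mapOf s.F s.G x) hx.ne_zero hT.ne_zero (s.e + 1) 1 a
      ha (L := 2 ^ (s.e + 1) * L) (by positivity) (fun v => by
        rw [pow_one, sup3_fin v hTthird, sup3_fin v (third hx)]
        have := (hlo K (pr x) (pr_ne hx)).1 v
        have h1 : (⨆ i, v (pr x i)) = max (v (pr x 0)) (v (pr x 1)) := sup2 v.1 (pr x)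
        rw [h1] at this
        exact this) (fun w => by
        rw [pow_one]
        have h1 := (hlo K (pr x) (pr_ne hx)).2 w
        have h1' : (⨆ i, w (pr x i)) = max (w (pr x 0)) (w (pr x 1)) := sup2 w.1 (pr x)
        rw [h1'] at h1
        have h2 := sup3_inf w (third hx)
        have h3 : (⨆ i, w (x i)) ^ (s.e + 1) ≤ (2 * max (w (x 0)) (w (x 1))) ^ (s.e + 1) :=
          pow_le_pow_left₀ (sup_nn w.1 x) h2 _
        have h4 : max (w (ev (pr x) s.F)) (w (ev (pr x) s.G)) ≤ ⨆ i, w (mapOf s.F s.G x i) :=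
          max_le (le_sup' w.1 (mapOf s.F s.G x) 0) (le_sup' w.1 (mapOf s.F s.G x) 1)
        calc (⨆ i, w (x i)) ^ (s.e + 1) ≤ (2 * max (w (x 0)) (w (x 1))) ^ (s.e + 1) := h3
          _ = 2 ^ (s.e + 1) * (max (w (x 0)) (w (x 1))) ^ (s.e + 1) := mul_pow _ _ _
          _ ≤ 2 ^ (s.e + 1) * (L * max (w (ev (pr x) s.F)) (w (ev (pr x) s.G))) := by
              gcongr
              exact h1
          _ ≤ 2 ^ (s.e + 1) * (L * ⨆ i, w (mapOf s.F s.G x i)) := by gcongr
          _ = _ := by ring)
    push_cast at this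
    rw [one_mul] at this
    have h3 : (Real.log (2 ^ (s.e + 1) * L) + Real.log a) * dg K ≤ CC * dg K := by
      apply mul_le_mul_of_nonneg_right _ hdg.le
      linarith
    linarith
  · -- the radical
    have := radical_le x (mapOf s.F s.G x) (ev (pr x) s.E) s.e s.c (L := nrm s.E) (by linarith)
      s.hc hx hT hE fE iE (by
        intro v m hm hxm hcv hEv
        have hprm : ∀ i, v (pr x i) ≤ m := by
          intro i
          fin_cases i
          · exact (hxm 0).le
          · exact (hxm 1).le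
        have h01m : v (x 0 + x 1) = m := by
          have : v (x 2) = v (x 0 + x 1) := by rw [hx2]; exact v.1.map_neg _
          rw [← this, hxm]
        have hval : v ((s.c : K) * (x 0 * x 1 * (x 0 + x 1) * ev (pr x) s.E) ^ s.s) =
            m ^ ((3 + s.e) * s.s) := by
          rw [map_mul, hcv, one_mul, map_pow, map_mul, map_mul, map_mul, hxm, hxm, h01m, hEv,
            pow_mul]
          congr 1
          rw [pow_add]
          ring
        have gen : ∀ P R : MvPolynomial (Fin 2) ℤ, v (ev (pr x) P) ≤ m ^ (s.e + 1) →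
            R.IsHomogeneous s.d → ev (pr x) P * ev (pr x) R =
            s.c * (x 0 * x 1 * (x 0 + x 1) * ev (pr x) s.E) ^ s.s →
            v (ev (pr x) P) = m ^ (s.e + 1) := by
          intro P R hP hR' heq
          have h1 := congrArg v heq
          rw [hval, map_mul, ← s.hd, pow_add] at h1
          have h2 : v (ev (pr x) R) ≤ m ^ s.d := fin_form v hR' (pr x) hm.le hprm
          have h3 : 0 < m ^ s.d := pow_pos hm _
          have h4 : 0 ≤ v (ev (pr x) P) := v.1.nonneg _
          apply le_antisymm hP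
          have h5 : m ^ (s.e + 1) * m ^ s.d ≤ v (ev (pr x) P) * m ^ s.d := by
            rw [← h1]
            exact mul_le_mul_of_nonneg_left h2 h4
          exact le_of_mul_le_mul_right h5 h3
        have a0 := gen s.F s.R0 (fin_form v s.hF (pr x) hm.le hprm) s.hR0 e0
        have a1 := gen s.G s.R1 (fin_form v s.hG (pr x) hm.le hprm) s.hR1 e1
        have a2 : v (ev (pr x) (s.F + s.G)) = m ^ (s.e + 1) := by
          apply gen (s.F + s.G) s.R2 _ s.hR2 (by rw [ev_add]; exact e2)
          exact fin_form v (s.hF.add s.hG) (pr x) hm.le hprm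
        have key : ∀ i, v (mapOf s.F s.G x i) = m ^ (s.e + 1) := by
          intro i
          fin_cases i
          · exact a0
          · exact a1
          · show v (-(ev (pr x) s.F + ev (pr x) s.G)) = _
            rw [ev_add] at a2
            rw [← a2]
            exact v.1.map_neg _
        intro i j
        rw [key, key])
    have h3 : (Real.log (nrm s.E) + Real.log s.c) * dg K ≤ CC * dg K := by
      apply mul_le_mul_of_nonneg_right _ hdg.le
      linarith
    have h4 : ((s.e : ℝ) + 1 - 1) = s.e := by ring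
    rw [h4]
    linarith

/-- the self-map -/
noncomputable def Form2.toUMap (s : Form2) : UMap where
  T := fun {K} _ _ x => mapOf s.F s.G x
  D := (s.e : ℝ) + 1
  C := s.prop.choose
  hD := by
    have : (0 : ℝ) ≤ s.e := Nat.cast_nonneg _
    linarith
  hC := s.prop.choose_spec.1
  prop := fun K _ _ x hx => s.prop.choose_spec.2 K x hx

/-- composition -/
theorem comp_prop (A B : UMap) : ∀ (K : Type) [Field K] [NumberField K] (x : Fin 3 → K), Good x →
    logHeight x ≤ ((A.C + B.C) * (A.D + 2)) * dg K ∨ (Good (A.T (B.T x)) ∧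
      logHeight (A.T (B.T x)) ≤ A.D * B.D * logHeight x + ((A.C + B.C) * (A.D + 2)) * dg K ∧
      A.D * B.D * logHeight x ≤ logHeight (A.T (B.T x)) + ((A.C + B.C) * (A.D + 2)) * dg K ∧
      RR (A.T (B.T x)) ≤ RR x + (A.D * B.D - 1) * logHeight x +
        ((A.C + B.C) * (A.D + 2)) * dg K) := by
  intro K _ _ x hx
  have hdg := dg_pos K
  have a1 := A.hD
  have a2 := A.hC
  have b1 := B.hD
  have b2 := B.hC
  have hh := logHeight_nonneg x
  have p1 : 0 ≤ A.C * dg K := by positivity
  have p2 : 0 ≤ B.C * dg K := by positivity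
  have p3 : 0 ≤ A.D * (A.C * dg K) := by positivity
  have p4 : 0 ≤ A.D * (B.C * dg K) := by positivity
  have ex : ((A.C + B.C) * (A.D + 2)) * dg K = A.D * (A.C * dg K) + A.D * (B.C * dg K) +
      2 * (A.C * dg K) + 2 * (B.C * dg K) := by ring
  rw [ex]
  rcases B.prop K x hx with h | ⟨h1, h2, h3, h4⟩
  · left; linarith
  · rcases A.prop K (B.T x) h1 with h | ⟨g1, g2, g3, g4⟩
    · left
      have : logHeight x ≤ B.D * logHeight x := le_mul_of_one_le_left hh b1
      linarith
    · right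
      have q1 : A.D * logHeight (B.T x) ≤ A.D * (B.D * logHeight x + B.C * dg K) :=
        mul_le_mul_of_nonneg_left h2 (by linarith)
      have q2 : A.D * (B.D * logHeight x) ≤ A.D * (logHeight (B.T x) + B.C * dg K) :=
        mul_le_mul_of_nonneg_left h3 (by linarith)
      have q3 : (A.D - 1) * logHeight (B.T x) ≤ (A.D - 1) * (B.D * logHeight x + B.C * dg K) :=
        mul_le_mul_of_nonneg_left h2 (by linarith)
      refine ⟨g1, ?_, ?_, ?_⟩
      · nlinarith
      · nlinarith
      · nlinarith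

/-- composition of two self-maps -/
noncomputable def UMap.comp (A B : UMap) : UMap where
  T := fun {K} _ _ x => A.T (B.T x)
  D := A.D * B.D
  C := (A.C + B.C) * (A.D + 2)
  hD := by
    have a1 := A.hD
    have b1 := B.hD
    nlinarith
  hC := by
    have a1 := A.hD
    have b1 := B.hC
    have c1 := A.hC
    positivity
  prop := comp_prop A B

/-- the identity -/
noncomputable def UMap.one : UMap where
  T := fun {K} _ _ x => x
  D := 1
  C := 0
  hD := le_rfl
  hC := le_rfl
  prop := fun K _ _ x hx => Or.inr ⟨hx, by simp, by simp, by simp⟩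

/-- iterates -/
noncomputable def UMap.iter (A : UMap) : ℕ → UMap
  | 0 => UMap.one
  | n + 1 => A.comp (A.iter n)

lemma UMap.iter_T (A : UMap) (n : ℕ) {K : Type} [Field K] [NumberField K] (x : Fin 3 → K) :
    (A.iter n).T x = (A.T)^[n] x := by
  induction n with
  | zero => rfl
  | succ n ih =>
    rw [Function.iterate_succ_apply', ← ih]
    rfl

lemma UMap.iter_D (A : UMap) (n : ℕ) : (A.iter n).D = A.D ^ n := by
  induction n with
  | zero => rw [pow_zero]; rfl
  | succ n ih =>
    rw [pow_succ', ← ih]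
    rfl

/-! ### transfer of the abc inequality -/

/-- From the abc inequality for the images under a self-map to the abc inequality. `Δ` is a
nonnegative number that may depend on the field (for instance the logarithm of the discriminant). -/
theorem UMap.pull (M : UMap) {ε : ℝ} (hε : 0 < ε) : ∃ ε' : ℝ, 0 < ε' ∧ ∀ C' B : ℝ, ∃ C'' : ℝ,
    ∀ (K : Type) [Field K] [NumberField K] (Δ : ℝ) (x : Fin 3 → K), 0 ≤ Δ → Good x →
    (Good (M.T x) → B * dg K ≤ logHeight (M.T x) →
      logHeight (M.T x) ≤ (1 + ε') * (RR (M.T x) + Δ) + C' * dg K) →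
    logHeight x ≤ (1 + ε) * (RR x + Δ) + C'' * dg K := by
  set D : ℝ := M.D with hDdef
  have hD : 1 ≤ D := M.hD
  have hC := M.hC
  set C : ℝ := M.C with hCdef
  have hD0 : 0 < D := by linarith
  set ε' : ℝ := ε / (D * (1 + ε)) with hε'
  have hε'0 : 0 < ε' := by positivity
  have hkey : ε' * (1 + (1 + ε) * (D - 1)) ≤ ε := by
    rw [hε', div_mul_eq_mul_div, div_le_iff₀ (by positivity)]
    have : 1 + (1 + ε) * (D - 1) ≤ D * (1 + ε) := by nlinarith
    nlinarith
  refine ⟨ε', hε'0, fun C' B => ⟨C + |B| + (1 + ε) * (C + |C'| + (1 + ε') * C),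
    fun K _ _ Δ x hΔ hx hT => ?_⟩⟩
  have hdg := dg_pos K
  have hRR := RR_nonneg x
  set P : ℝ := RR x + Δ with hP
  have hP0 : 0 ≤ P := by positivity
  have hnn : 0 ≤ (1 + ε) * P := by positivity
  have c2 := le_abs_self C'
  have c3 := le_abs_self B
  have c5 := abs_nonneg C'
  have c6 := abs_nonneg B
  set W : ℝ := (C + |C'| + (1 + ε') * C) * dg K with hW
  have hW0 : 0 ≤ W := by positivity
  have hCd : 0 ≤ C * dg K := by positivity
  have hBd : 0 ≤ |B| * dg K := by positivity
  have eC : (C + |B| + (1 + ε) * (C + |C'| + (1 + ε') * C)) * dg K =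
      C * dg K + |B| * dg K + (1 + ε) * W := by rw [hW]; ring
  rw [eC]
  have hW1 : 0 ≤ (1 + ε) * W := by positivity
  rcases M.prop K x hx with h | ⟨h1, h2, h3, h4⟩
  · linarith
  · have hh := logHeight_nonneg x
    by_cases hB : B * dg K ≤ logHeight (M.T x)
    · have h5 := hT h1 hB
      have h6 : (1 + ε') * (RR (M.T x) + Δ) ≤ (1 + ε') * (P + (D - 1) * logHeight x + C * dg K) := by
        apply mul_le_mul_of_nonneg_left _ (by positivity)
        rw [hP]; linarith
      have hC'd : C' * dg K ≤ |C'| * dg K := mul_le_mul_of_nonneg_right c2 hdg.le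
      have h7 : logHeight x * (1 - ε' * (D - 1)) ≤ (1 + ε') * P + W := by
        have e1 : W = C * dg K + |C'| * dg K + (1 + ε') * (C * dg K) := by rw [hW]; ring
        rw [e1]
        nlinarith
      have h8 : 1 + ε' ≤ (1 + ε) * (1 - ε' * (D - 1)) := by nlinarith
      have h9 : logHeight x * (1 + ε') ≤ (1 + ε) * ((1 + ε') * P + W) := by
        calc logHeight x * (1 + ε') ≤ logHeight x * ((1 + ε) * (1 - ε' * (D - 1))) :=
              mul_le_mul_of_nonneg_left h8 hh
          _ = (1 + ε) * (logHeight x * (1 - ε' * (D - 1))) := by ring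
          _ ≤ _ := mul_le_mul_of_nonneg_left h7 (by positivity)
      have h11 : logHeight x ≤ (1 + ε) * P + (1 + ε) * W := by
        have h12 : 0 ≤ ε' * ((1 + ε) * W) := by positivity
        have h13 : (1 + ε') * logHeight x ≤ (1 + ε') * ((1 + ε) * P + (1 + ε) * W) := by nlinarith
        exact le_of_mul_le_mul_left h13 (by positivity)
      linarith
    · have h5 : logHeight x ≤ D * logHeight x := le_mul_of_one_le_left hh hD
      push Not at hB
      have : B * dg K ≤ |B| * dg K := mul_le_mul_of_nonneg_right c3 hdg.le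
      linarith

end Pool.Agent.Q239.U
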