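import Pool.Agent.Q239.U.Tools

/-!
# The self-maps: spherical signatures `(1,k,k)`, `(2,2,k)`, `(2,3,3)`, `(2,3,4)`
-/

set_option autoImplicit false

namespace Pool.Agent.Q239.U

open NumberField Height MvPolynomial Pool.Agent.Q239.NF

/-! ### `(1, k, k)` -/

/-- `((a + b) ^ k - b ^ k) / a`, `k = e + 1` -/
noncomputable def ePow (e : ℕ) : P2 := ∑ i ∈ Finset.range (e + 1), (X 0 + X 1) ^ i * X 1 ^ (e - i)

lemma ePow_hom (e : ℕ) : (ePow e).IsHomogeneous e := by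
  apply IsHomogeneous.sum
  intro i hi
  rw [Finset.mem_range] at hi
  refine hom_cast ((((hXi 0).add (hXi 1)).pow i).mul ((hXi 1).pow (e - i))) ?_
  omega

lemma ePow_mul (e : ℕ) : (X 0 : P2) * ePow e = (X 0 + X 1) ^ (e + 1) - X 1 ^ (e + 1) := by
  have h := (Commute.all ((X 0 : P2) + X 1) (X 1 : P2)).geom_sum₂_mul (e + 1)
  rw [← h]
  unfold ePow
  simp only [Nat.add_sub_cancel]
  ring

/-- the self-map `((a + b) ^ k - b ^ k : b ^ k : -(a + b) ^ k)`, `k = e + 1` -/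
noncomputable def formPow (e : ℕ) : Form2 where
  F := (X 0 + X 1) ^ (e + 1) - X 1 ^ (e + 1)
  G := X 1 ^ (e + 1)
  E := ePow e
  e := e
  c := 1
  s := e + 1
  d := (e + 2) * (e + 1)
  R0 := X 0 ^ e * ePow e ^ e * (X 1 * (X 0 + X 1)) ^ (e + 1)
  R1 := (X 0 * (X 0 + X 1) * ePow e) ^ (e + 1)
  R2 := (X 0 * X 1 * ePow e) ^ (e + 1)
  hc := one_ne_zero
  hF := by
    refine hom_cast ((((hXi 0).add (hXi 1)).pow (e + 1))) (by ring) |>.sub ?_
    exact hom_cast ((hXi 1).pow (e + 1)) (by ring)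
  hG := hom_cast ((hXi 1).pow (e + 1)) (by ring)
  hE := ePow_hom e
  hR0 := hom_cast ((((hXi 0).pow e).mul ((ePow_hom e).pow e)).mul
    (((hXi 1).mul ((hXi 0).add (hXi 1))).pow (e + 1))) (by ring)
  hR1 := hom_cast ((((hXi 0).mul ((hXi 0).add (hXi 1))).mul (ePow_hom e)).pow (e + 1)) (by ring)
  hR2 := hom_cast ((((hXi 0).mul (hXi 1)).mul (ePow_hom e)).pow (e + 1)) (by ring)
  hd := by ring
  div0 := by
    rw [← ePow_mul]
    simp only [Nat.cast_one, map_one, one_mul]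
    rw [mul_pow, mul_pow, mul_pow, mul_pow, pow_succ (X 0 : P2) e, pow_succ (ePow e) e]
    ring
  div1 := by
    simp only [Nat.cast_one, map_one, one_mul]
    rw [← mul_pow]
    congr 1
    ring
  div2 := by
    simp only [Nat.cast_one, map_one, one_mul]
    rw [sub_add_cancel, ← mul_pow]
    congr 1
    ring
  zb := by
    refine zeroBdd (ePow_hom e) ?_
    unfold ePow
    rw [ev_sum, Finset.sum_eq_single e]
    · simp
    · intro i hi hne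
      rw [Finset.mem_range] at hi
      have : e - i ≠ 0 := by omega
      simp [this]
    · intro h
      exact absurd (Finset.mem_range.2 (Nat.lt_succ_self e)) h
  lo := by
    apply lo_third_left
    have h1 : (-((X 0 + X 1) ^ (e + 1) - X 1 ^ (e + 1) + X 1 ^ (e + 1)) : P2) =
        C (-1) * (X 0 + X 1) ^ (e + 1) := by
      simp
    have h2 : (X 1 ^ (e + 1) : P2) = C 1 * X 1 ^ (e + 1) := by simp
    rw [h1]
    suffices LoBdd (C (-1) * (X 0 + X 1) ^ (e + 1)) (C 1 * X 1 ^ (e + 1)) (e + 1) by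
      rwa [← h2] at this
    refine lo_of_alt (p := 1) (q := 1) ?_ _ _ (by norm_num) (by norm_num) (by ring) (by ring)
    exact alt_of (A := 1) (B := -1) (A' := 0) (B' := 1) (a := 0) (b := 0) (N := 1) 1 one_ne_zero
      (isHomogeneous_one _ _) ((isHomogeneous_one _ _).neg) (isHomogeneous_zero _ _ _)
      (isHomogeneous_one _ _) rfl rfl (by simp) (by simp)

/-! ### `(2, k, 2)` -/

/-- `(a ^ (2 k) - b ^ (2 k)) / (a + b)`, `k = j + 1` -/
noncomputable def eSq (j : ℕ) : P2 :=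
  ∑ i ∈ Finset.range (2 * j + 2), X 0 ^ i * (-X 1) ^ (2 * j + 1 - i)

lemma eSq_hom (j : ℕ) : (eSq j).IsHomogeneous (2 * j + 1) := by
  apply IsHomogeneous.sum
  intro i hi
  rw [Finset.mem_range] at hi
  refine hom_cast (((hXi 0).pow i).mul ((hXi 1).neg.pow (2 * j + 1 - i))) ?_
  omega

lemma eSq_mul (j : ℕ) : ((X 0 : P2) + X 1) * eSq j =
    (X 0 ^ (j + 1) - X 1 ^ (j + 1)) * (X 0 ^ (j + 1) + X 1 ^ (j + 1)) := by
  have h := (Commute.all (X 0 : P2) (-X 1 : P2)).geom_sum₂_mul (2 * j + 2)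
  have e1 : ((X 0 : P2) ^ (j + 1) - X 1 ^ (j + 1)) * (X 0 ^ (j + 1) + X 1 ^ (j + 1)) =
      X 0 ^ (2 * j + 2) - (-X 1) ^ (2 * j + 2) := by
    have h1 : (-X 1 : P2) ^ (2 * j + 2) = X 1 ^ (2 * j + 2) := Even.neg_pow ⟨j + 1, by ring⟩ _
    rw [h1]
    ring
  rw [e1, ← h]
  unfold eSq
  have : 2 * j + 2 - 1 = 2 * j + 1 := by omega
  rw [this]
  ring

/-- the self-map `(4 ^ (k - 1) (a ^ k - b ^ k) ^ 2 : (4 a b) ^ k : -4 ^ (k - 1) (a ^ k + b ^ k) ^ 2)`,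
`k = j + 1` -/
noncomputable def formSq (j : ℕ) : Form2 where
  F := C (4 ^ j) * (X 0 ^ (j + 1) - X 1 ^ (j + 1)) ^ 2
  G := C (4 ^ (j + 1)) * (X 0 * X 1) ^ (j + 1)
  E := eSq j
  e := 2 * j + 1
  c := 4 ^ (j + 1)
  s := 2 * (j + 1)
  d := 4 * (j + 1) * (j + 2) - 2 * (j + 1)
  R0 := C 4 * ((X 0 * X 1) ^ (2 * (j + 1)) * (X 0 ^ (j + 1) - X 1 ^ (j + 1)) ^ (2 * j) *
    (X 0 ^ (j + 1) + X 1 ^ (j + 1)) ^ (2 * (j + 1)))
  R1 := (X 0 * X 1) ^ (j + 1) * ((X 0 ^ (j + 1) - X 1 ^ (j + 1)) *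
    (X 0 ^ (j + 1) + X 1 ^ (j + 1))) ^ (2 * (j + 1))
  R2 := C 4 * ((X 0 * X 1) ^ (2 * (j + 1)) * (X 0 ^ (j + 1) + X 1 ^ (j + 1)) ^ (2 * j) *
    (X 0 ^ (j + 1) - X 1 ^ (j + 1)) ^ (2 * (j + 1)))
  hc := by positivity
  hF := by
    refine hCz _ (hom_cast ((?_ : IsHomogeneous _ (j + 1)).pow 2) (by ring))
    exact (hom_cast ((hXi 0).pow (j + 1)) (by ring)).sub (hom_cast ((hXi 1).pow (j + 1)) (by ring))
  hG := hCz _ (hom_cast (((hXi 0).mul (hXi 1)).pow (j + 1)) (by ring))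
  hE := eSq_hom j
  hR0 := by
    have h1 : ((X 0 : P2) ^ (j + 1) - X 1 ^ (j + 1)).IsHomogeneous (j + 1) :=
      (hom_cast ((hXi 0).pow (j + 1)) (by ring)).sub (hom_cast ((hXi 1).pow (j + 1)) (by ring))
    have h2 : ((X 0 : P2) ^ (j + 1) + X 1 ^ (j + 1)).IsHomogeneous (j + 1) :=
      (hom_cast ((hXi 0).pow (j + 1)) (by ring)).add (hom_cast ((hXi 1).pow (j + 1)) (by ring))
    refine hCz _ (hom_cast ((((hXi 0).mul (hXi 1)).pow (2 * (j + 1))).mul (h1.pow (2 * j)) |>.mul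
      (h2.pow (2 * (j + 1)))) ?_)
    symm
    rw [Nat.sub_eq_iff_eq_add (by nlinarith)]
    ring
  hR1 := by
    have h1 : ((X 0 : P2) ^ (j + 1) - X 1 ^ (j + 1)).IsHomogeneous (j + 1) :=
      (hom_cast ((hXi 0).pow (j + 1)) (by ring)).sub (hom_cast ((hXi 1).pow (j + 1)) (by ring))
    have h2 : ((X 0 : P2) ^ (j + 1) + X 1 ^ (j + 1)).IsHomogeneous (j + 1) :=
      (hom_cast ((hXi 0).pow (j + 1)) (by ring)).add (hom_cast ((hXi 1).pow (j + 1)) (by ring))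
    refine hom_cast ((((hXi 0).mul (hXi 1)).pow (j + 1)).mul ((h1.mul h2).pow (2 * (j + 1)))) ?_
    symm
    rw [Nat.sub_eq_iff_eq_add (by nlinarith)]
    ring
  hR2 := by
    have h1 : ((X 0 : P2) ^ (j + 1) - X 1 ^ (j + 1)).IsHomogeneous (j + 1) :=
      (hom_cast ((hXi 0).pow (j + 1)) (by ring)).sub (hom_cast ((hXi 1).pow (j + 1)) (by ring))
    have h2 : ((X 0 : P2) ^ (j + 1) + X 1 ^ (j + 1)).IsHomogeneous (j + 1) :=
      (hom_cast ((hXi 0).pow (j + 1)) (by ring)).add (hom_cast ((hXi 1).pow (j + 1)) (by ring))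
    refine hCz _ (hom_cast ((((hXi 0).mul (hXi 1)).pow (2 * (j + 1))).mul (h2.pow (2 * j)) |>.mul
      (h1.pow (2 * (j + 1)))) ?_)
    symm
    rw [Nat.sub_eq_iff_eq_add (by nlinarith)]
    ring
  hd := by
    have : 2 * (j + 1) ≤ 4 * (j + 1) * (j + 2) := by nlinarith
    zify [this]
    ring
  div0 := by
    have h : (X 0 * X 1 * (X 0 + X 1) * eSq j : P2) = X 0 * X 1 *
        ((X 0 ^ (j + 1) - X 1 ^ (j + 1)) * (X 0 ^ (j + 1) + X 1 ^ (j + 1))) := by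
      rw [mul_assoc (X 0 * X 1), eSq_mul]
    rw [h]
    generalize (X 0 ^ (j + 1) - X 1 ^ (j + 1) : P2) = A
    generalize (X 0 ^ (j + 1) + X 1 ^ (j + 1) : P2) = B
    simp only [Nat.cast_pow, Nat.cast_ofNat, map_pow]
    ring
  div1 := by
    have h : (X 0 * X 1 * (X 0 + X 1) * eSq j : P2) = X 0 * X 1 *
        ((X 0 ^ (j + 1) - X 1 ^ (j + 1)) * (X 0 ^ (j + 1) + X 1 ^ (j + 1))) := by
      rw [mul_assoc (X 0 * X 1), eSq_mul]
    rw [h]
    generalize (X 0 ^ (j + 1) - X 1 ^ (j + 1) : P2) = A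
    generalize (X 0 ^ (j + 1) + X 1 ^ (j + 1) : P2) = B
    simp only [Nat.cast_pow, Nat.cast_ofNat, map_pow]
    ring
  div2 := by
    have h : (X 0 * X 1 * (X 0 + X 1) * eSq j : P2) = X 0 * X 1 *
        ((X 0 ^ (j + 1) - X 1 ^ (j + 1)) * (X 0 ^ (j + 1) + X 1 ^ (j + 1))) := by
      rw [mul_assoc (X 0 * X 1), eSq_mul]
    have h2 : (C (4 ^ j) * (X 0 ^ (j + 1) - X 1 ^ (j + 1)) ^ 2 +
        C (4 ^ (j + 1)) * (X 0 * X 1) ^ (j + 1) : P2) =
        C (4 ^ j) * (X 0 ^ (j + 1) + X 1 ^ (j + 1)) ^ 2 := by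
      have h4 : (C (4 ^ (j + 1)) : P2) = 4 * C (4 ^ j) := by
        rw [pow_succ, map_mul, mul_comm]
        congr 1
      rw [h4, mul_pow]
      ring
    rw [h, h2]
    generalize (X 0 ^ (j + 1) - X 1 ^ (j + 1) : P2) = A
    generalize (X 0 ^ (j + 1) + X 1 ^ (j + 1) : P2) = B
    simp only [Nat.cast_pow, Nat.cast_ofNat, map_pow]
    ring
  zb := by
    refine zeroBdd (eSq_hom j) ?_
    unfold eSq
    rw [ev_sum, Finset.sum_eq_single (2 * j + 1)]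
    · simp
    · intro i hi hne
      rw [Finset.mem_range] at hi
      have : 2 * j + 1 - i ≠ 0 := by omega
      simp [this]
    · intro h
      exact absurd (Finset.mem_range.2 (by omega)) h
  lo := by
    apply lo_third_right
    have h2 : (-(C (4 ^ j) * (X 0 ^ (j + 1) - X 1 ^ (j + 1)) ^ 2 +
        C (4 ^ (j + 1)) * (X 0 * X 1) ^ (j + 1)) : P2) =
        C (-4 ^ j) * (X 0 ^ (j + 1) + X 1 ^ (j + 1)) ^ 2 := by
      have h4 : (C (4 ^ (j + 1)) : P2) = 4 * C (4 ^ j) := by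
        rw [pow_succ, map_mul, mul_comm]
        congr 1
      rw [h4, mul_pow, map_neg]
      ring
    rw [h2]
    refine lo_of_alt (p := j + 1) (q := j + 1) ?_ _ _ (by positivity)
      (neg_ne_zero.2 (by positivity)) (by ring) (by ring)
    exact alt_of (A := 1) (B := 1) (A' := -1) (B' := 1) (a := 0) (b := 0) (N := j + 1) 2
      two_ne_zero (isHomogeneous_one _ _) (isHomogeneous_one _ _) ((isHomogeneous_one _ _).neg)
      (isHomogeneous_one _ _) (by ring) (by ring)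
      (by
        have : (C ((2 : ℕ) : ℤ) : P2) = 2 := map_ofNat C 2
        rw [this]; ring)
      (by
        have : (C ((2 : ℕ) : ℤ) : P2) = 2 := map_ofNat C 2
        rw [this]; ring)

/-! ### `(2, 3, 3)` -/

section tet

/-- the three forms of the tetrahedron -/
def tx {R : Type} [CommRing R] (a b : R) : R := a * (a ^ 3 - 8 * b ^ 3)
def ty {R : Type} [CommRing R] (a b : R) : R := 4 * b * (a ^ 3 + b ^ 3)
def tz {R : Type} [CommRing R] (a b : R) : R := a ^ 6 + 20 * a ^ 3 * b ^ 3 - 8 * b ^ 6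

lemma t_id {R : Type} [CommRing R] (a b : R) : tx a b ^ 3 + ty a b ^ 3 = tz a b ^ 2 := by
  unfold tx ty tz; ring

lemma tz_hom : (tz (X 0 : P2) (X 1)).IsHomogeneous 6 := by
  unfold tz
  have h1 : ((20 : P2) * X 0 ^ 3 * X 1 ^ 3).IsHomogeneous 6 := (hof 20 ((hXi 0).pow 3)).mul ((hXi 1).pow 3)
  exact (((hXi 0).pow 6).add h1).sub (hof 8 ((hXi 1).pow 6))

lemma tp_hom : ((X 0 : P2) ^ 3 - 8 * X 1 ^ 3).IsHomogeneous 3 :=
  ((hXi 0).pow 3).sub (hof 8 ((hXi 1).pow 3))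

lemma tq_hom : ((X 0 : P2) ^ 2 - X 0 * X 1 + X 1 ^ 2).IsHomogeneous 2 :=
  (((hXi 0).pow 2).sub ((hXi 0).mul (hXi 1))).add ((hXi 1).pow 2)

/-- the self-map of degree 12 of signature `(2,3,3)` -/
noncomputable def formTet : Form2 where
  F := tz (X 0) (X 1) ^ 2
  G := (-tx (X 0) (X 1)) ^ 3
  E := (X 0 ^ 3 - 8 * X 1 ^ 3) * (X 0 ^ 2 - X 0 * X 1 + X 1 ^ 2) * tz (X 0) (X 1)
  e := 11
  c := 64
  s := 3
  d := 30
  R0 := C 64 * ((X 0 * X 1 * (X 0 + X 1)) ^ 3 * (X 0 ^ 3 - 8 * X 1 ^ 3) ^ 3 *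
    (X 0 ^ 2 - X 0 * X 1 + X 1 ^ 2) ^ 3 * tz (X 0) (X 1))
  R1 := C (-64) * ((X 1 * (X 0 + X 1)) ^ 3 * (X 0 ^ 2 - X 0 * X 1 + X 1 ^ 2) ^ 3 *
    tz (X 0) (X 1) ^ 3)
  R2 := X 0 ^ 3 * (X 0 ^ 3 - 8 * X 1 ^ 3) ^ 3 * tz (X 0) (X 1) ^ 3
  hc := by norm_num
  hF := tz_hom.pow 2
  hG := by
    have : (tx (X 0 : P2) (X 1)).IsHomogeneous 4 := (hXi 0).mul tp_hom
    exact this.neg.pow 3
  hE := (tp_hom.mul tq_hom).mul tz_hom
  hR0 := hCz _ ((((((hXi 0).mul (hXi 1)).mul ((hXi 0).add (hXi 1))).pow 3).mul (tp_hom.pow 3)).mul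
    (tq_hom.pow 3) |>.mul tz_hom)
  hR1 := hCz _ (((((hXi 1).mul ((hXi 0).add (hXi 1))).pow 3).mul (tq_hom.pow 3)).mul (tz_hom.pow 3))
  hR2 := (((hXi 0).pow 3).mul (tp_hom.pow 3)).mul (tz_hom.pow 3)
  hd := rfl
  div0 := by
    have : (C ((64 : ℕ) : ℤ) : P2) = C 64 := rfl
    rw [this]
    generalize (X 0 ^ 3 - 8 * X 1 ^ 3 : P2) = A
    generalize (X 0 ^ 2 - X 0 * X 1 + X 1 ^ 2 : P2) = B
    generalize tz (X 0 : P2) (X 1) = Z
    generalize (X 0 + X 1 : P2) = S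
    ring
  div1 := by
    have : (C ((64 : ℕ) : ℤ) : P2) = C 64 := rfl
    rw [this, map_neg]
    unfold tx
    generalize (X 0 ^ 3 - 8 * X 1 ^ 3 : P2) = A
    generalize (X 0 ^ 2 - X 0 * X 1 + X 1 ^ 2 : P2) = B
    generalize tz (X 0 : P2) (X 1) = Z
    generalize (X 0 + X 1 : P2) = S
    ring
  div2 := by
    have h64 : (C ((64 : ℕ) : ℤ) : P2) = 64 := map_ofNat C 64
    rw [h64]
    have h : (tz (X 0) (X 1) ^ 2 + (-tx (X 0) (X 1)) ^ 3 : P2) =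
        (4 * X 1 * ((X 0 + X 1) * (X 0 ^ 2 - X 0 * X 1 + X 1 ^ 2))) ^ 3 := by
      rw [← t_id]
      unfold ty
      ring
    rw [h]
    generalize (X 0 ^ 3 - 8 * X 1 ^ 3 : P2) = A
    generalize (X 0 ^ 2 - X 0 * X 1 + X 1 ^ 2 : P2) = B
    generalize tz (X 0 : P2) (X 1) = Z
    generalize (X 0 + X 1 : P2) = S
    ring
  zb := by
    refine zeroBdd ((tp_hom.mul tq_hom).mul tz_hom) ?_
    simp [tz]
  lo := by
    apply lo_third_left
    have h : (-(tz (X 0) (X 1) ^ 2 + (-tx (X 0) (X 1)) ^ 3) : P2) =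
        C (-1) * ty (X 0) (X 1) ^ 3 := by
      rw [← t_id, map_neg, map_one]
      ring
    have h' : ((-tx (X 0) (X 1)) ^ 3 : P2) = C (-1) * tx (X 0) (X 1) ^ 3 := by
      rw [map_neg, map_one]
      ring
    rw [h, h']
    refine lo_of_alt (p := 4) (q := 4) (i := 3) (j := 3) ?_ _ _ (by norm_num) (by norm_num)
      (by norm_num) (by norm_num)
    have c36 : (C ((36 : ℕ) : ℤ) : P2) = 36 := map_ofNat C 36
    refine alt_of (A := 64 * (X 0 * X 1 ^ 2)) (B := 36 * X 0 ^ 3 + 32 * X 1 ^ 3)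
      (A' := 9 * X 1 ^ 3 - X 0 ^ 3) (B' := 4 * (X 0 ^ 2 * X 1)) (a := 3) (b := 3) (N := 7) 36
      (by norm_num) (hof 64 ((hXi 0).mul ((hXi 1).pow 2)))
      ((hof 36 ((hXi 0).pow 3)).add (hof 32 ((hXi 1).pow 3)))
      ((hof 9 ((hXi 1).pow 3)).sub ((hXi 0).pow 3)) (hof 4 (((hXi 0).pow 2).mul (hXi 1))) rfl rfl
      ?_ ?_
    · rw [c36]; unfold tx ty; ring
    · rw [c36]; unfold tx ty; ring

end tet

/-! ### the map of degree 2 -/

/-- the self-map `(16 (a + 2 b) ^ 2 : -64 b (a + b) : -16 a ^ 2)` -/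
noncomputable def formDbl : Form2 where
  F := C 16 * (X 0 + 2 * X 1) ^ 2
  G := C (-64) * (X 1 * (X 0 + X 1))
  E := X 0 + 2 * X 1
  e := 1
  c := 64
  s := 2
  d := 6
  R0 := C 4 * (X 0 * X 1 * (X 0 + X 1)) ^ 2
  R1 := C (-1) * (X 0 ^ 2 * X 1 * (X 0 + X 1) * (X 0 + 2 * X 1) ^ 2)
  R2 := C 4 * (X 1 * (X 0 + X 1) * (X 0 + 2 * X 1)) ^ 2
  hc := by norm_num
  hF := hCz _ (((hXi 0).add (hof 2 (hXi 1))).pow 2)
  hG := hCz _ ((hXi 1).mul ((hXi 0).add (hXi 1)))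
  hE := (hXi 0).add (hof 2 (hXi 1))
  hR0 := hCz _ ((((hXi 0).mul (hXi 1)).mul ((hXi 0).add (hXi 1))).pow 2)
  hR1 := hCz _ ((((((hXi 0).pow 2).mul (hXi 1)).mul ((hXi 0).add (hXi 1)))).mul
    (((hXi 0).add (hof 2 (hXi 1))).pow 2))
  hR2 := hCz _ ((((hXi 1).mul ((hXi 0).add (hXi 1))).mul ((hXi 0).add (hof 2 (hXi 1)))).pow 2)
  hd := rfl
  div0 := by
    have c64 : (C ((64 : ℕ) : ℤ) : P2) = 64 := map_ofNat C 64
    have c16 : (C 16 : P2) = 16 := map_ofNat C 16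
    have c4 : (C 4 : P2) = 4 := map_ofNat C 4
    rw [c64, c16, c4]
    ring
  div1 := by
    have c64 : (C ((64 : ℕ) : ℤ) : P2) = 64 := map_ofNat C 64
    have c64' : (C (64 : ℤ) : P2) = 64 := map_ofNat C 64
    rw [c64, map_neg, map_neg, c64', map_one]
    ring
  div2 := by
    have c64 : (C ((64 : ℕ) : ℤ) : P2) = 64 := map_ofNat C 64
    have c64' : (C (64 : ℤ) : P2) = 64 := map_ofNat C 64
    have c16 : (C 16 : P2) = 16 := map_ofNat C 16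
    have c4 : (C 4 : P2) = 4 := map_ofNat C 4
    rw [c64, map_neg, c64', c16, c4]
    ring
  zb := by
    refine zeroBdd ((hXi 0).add (hof 2 (hXi 1))) ?_
    simp
  lo := by
    apply lo_third_right
    have c64' : (C (64 : ℤ) : P2) = 64 := map_ofNat C 64
    have c16 : (C 16 : P2) = 16 := map_ofNat C 16
    have h : (-(C 16 * (X 0 + 2 * X 1) ^ 2 + C (-64) * (X 1 * (X 0 + X 1))) : P2) =
        C (-16) * X 0 ^ 2 := by
      rw [map_neg, map_neg, c64', c16]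
      ring
    rw [h]
    refine lo_of_alt (p := 1) (q := 1) (i := 2) (j := 2) ?_ _ _ (by norm_num) (by norm_num)
      (by norm_num) (by norm_num)
    have c2 : (C ((2 : ℕ) : ℤ) : P2) = 2 := map_ofNat C 2
    have h2 : (2 : P2).IsHomogeneous 0 := by simpa using hof 2 (isHomogeneous_one (Fin 2) ℤ)
    refine alt_of (A := 0) (B := 2) (A' := 1) (B' := -1) (a := 0) (b := 0) (N := 1) 2
      (by norm_num) (isHomogeneous_zero _ _ _) h2 (isHomogeneous_one _ _)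
      ((isHomogeneous_one _ _).neg) rfl rfl ?_ ?_
    · rw [c2]; ring
    · rw [c2]; ring

end Pool.Agent.Q239.U
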