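import Pool.Agent.Q239.U.Forms

/-!
# The radical of the image of a point, with an absolute constant
-/

set_option autoImplicit false

namespace Pool.Agent.Q239.U

open NumberField Height MvPolynomial Pool.Agent.Q239.NF

variable {K : Type} [Field K] [NumberField K]

theorem radical_le (x y : Fin 3 → K) (E : K) (e c : ℕ) {L : ℝ} (hL : 0 < L) (hc : c ≠ 0)
    (hx : Good x) (hy : Good y) (hE0 : E ≠ 0)
    (hfin : ∀ v : FinitePlace K, v E ≤ (⨆ i, v (x i)) ^ e)
    (hinf : ∀ w : InfinitePlace K, w E ≤ L * (⨆ i, w (x i)) ^ e)
    (loc : ∀ (v : FinitePlace K) (m : ℝ), 0 < m → (∀ i, v (x i) = m) → v (c : K) = 1 →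
      v E = m ^ e → ∀ i j, v (y i) = v (y j)) :
    RR y ≤ RR x + e * logHeight x + (Real.log L + Real.log c) * dg K := by
  classical
  have hx0 := hx.ne_zero
  have hc0 : (c : K) ≠ 0 := by exact_mod_cast hc
  -- the three functions
  set f : FinitePlace K → ℝ := (Bad x).indicator lN with hf
  set g : FinitePlace K → ℝ := fun v => -Real.log (v (c : K)) with hg
  set h : FinitePlace K → ℝ := fun v => e * Real.log (⨆ i, v (x i)) - Real.log (v E) with hh
  have hf0 : ∀ v, 0 ≤ f v := fun v => Set.indicator_nonneg (fun v _ => lN_nonneg v) v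
  have hg0 : ∀ v, 0 ≤ g v := fun v => by
    have h1 : v (c : K) ≤ 1 := nat_le v c
    have h2 : 0 < v (c : K) := v.1.pos hc0
    have := Real.log_nonpos h2.le h1
    simp only [hg]; linarith
  have hh0 : ∀ v, 0 ≤ h v := fun v => by
    have h1 := hfin v
    have h2 : 0 < v E := v.1.pos hE0
    have h3 := Real.log_le_log h2 h1
    rw [Real.log_pow] at h3
    simp only [hh]; linarith
  have hsf : (Function.support f).Finite :=
    (bad_finite hx.2).subset Set.support_indicator_subset
  have hsg : (Function.support g).Finite := by
    refine (fin_ne_one hc0).subset fun v hv => ?_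
    simp only [Set.mem_ofPred_eq]
    intro h1
    apply hv
    simp only [hg, h1, Real.log_one, neg_zero]
  have hs1 : (Function.support fun v : FinitePlace K => (e : ℝ) * Real.log (⨆ i, v (x i))).Finite := by
    refine (sup_fin hx0).subset fun v hv => ?_
    simp only [Set.mem_ofPred_eq]
    intro h1
    apply hv
    simp only [h1, Real.log_one, mul_zero]
  have hs2 : (Function.support fun v : FinitePlace K => Real.log (v E)).Finite := by
    refine (fin_ne_one hE0).subset fun v hv => ?_
    simp only [Set.mem_ofPred_eq]
    intro h1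
    apply hv
    simp only [h1, Real.log_one]
  have hsh : (Function.support h).Finite := by
    refine (hs1.union hs2).subset fun v hv => ?_
    by_contra hcon
    rw [Set.mem_union, not_or, Function.notMem_support, Function.notMem_support] at hcon
    apply hv
    simp only [hh]
    rw [hcon.1, hcon.2, sub_zero]
  have key : ∀ v, (Bad y).indicator lN v ≤ f v + g v + h v := by
    intro v
    by_cases hb : v ∈ Bad y
    · rw [Set.indicator_of_mem hb]
      by_cases hbx : v ∈ Bad x
      · have : f v = lN v := Set.indicator_of_mem hbx _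
        have := hg0 v
        have := hh0 v
        linarith
      · have hall : ∀ i j, v (x i) = v (x j) := by
          intro i j
          by_contra hij
          exact hbx ⟨i, j, hij⟩
        have hm : ∀ i, v (x i) = v (x 0) := fun i => hall i 0
        have hm0 : 0 < v (x 0) := v.1.pos (hx.2 0)
        have hsup : (⨆ i, v (x i)) = v (x 0) := by
          simp only [hm, ciSup_const]
        by_cases hc1 : v (c : K) = 1
        · have hne : v E ≠ v (x 0) ^ e := by
            intro h1
            obtain ⟨i, j, hij⟩ := hb
            exact hij (loc v (v (x 0)) hm0 hm hc1 h1 i j)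
          have hlt : v E < v (x 0) ^ e := by
            refine lt_of_le_of_ne ?_ hne
            have := hfin v
            rwa [hsup] at this
          have h2 := gap2 v (y := E) (z := x 0 ^ e) hE0 (pow_ne_zero _ (hx.2 0))
            (by rw [map_pow]; exact hlt)
          rw [map_pow, Real.log_pow] at h2
          have h3 : h v = e * Real.log (v (x 0)) - Real.log (v E) := by
            simp only [hh, hsup]
          have := hf0 v
          have := hg0 v
          linarith
        · have h1 : v (c : K) < 1 := lt_of_le_of_ne (nat_le v c) hc1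
          have h2 := gap_log v hc0 h1
          have h3 : g v = -Real.log (v (c : K)) := rfl
          have := hf0 v
          have := hh0 v
          linarith
    · rw [Set.indicator_of_notMem hb]
      have := hf0 v
      have := hg0 v
      have := hh0 v
      linarith
  have hsum : RR y ≤ ∑ᶠ v, f v + ∑ᶠ v, g v + ∑ᶠ v, h v := by
    rw [RR_eq, ← finsum_add_distrib hsf hsg, ← finsum_add_distrib _ hsh]
    · refine finsum_le_finsum' ?_ ?_ key
      · exact (bad_finite hy.2).subset Set.support_indicator_subset
      · refine ((hsf.union hsg).union hsh).subset ?_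
        refine (Function.support_add _ _).trans (Set.union_subset_union_left _ ?_)
        exact Function.support_add _ _
    · exact (hsf.union hsg).subset (Function.support_add _ _)
  have hG : ∑ᶠ v, g v = Real.log c * dg K := by
    have h1 := sum_log hc0
    have h2 : ∑ᶠ v, g v = -∑ᶠ v : FinitePlace K, Real.log (v (c : K)) := by
      rw [← finsum_neg_distrib]
    have h3 : ∑ w : InfinitePlace K, (w.mult : ℝ) * Real.log (w (c : K)) = Real.log c * dg K := by
      rw [← sum_mult, Finset.mul_sum]
      refine Finset.sum_congr rfl fun w _ => ?_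
      rw [inf_nat]; ring
    linarith
  have hH : ∑ᶠ v, h v ≤ e * logHeight x + Real.log L * dg K := by
    have h1 : ∑ᶠ v, h v = ∑ᶠ v : FinitePlace K, (e : ℝ) * Real.log (⨆ i, v (x i)) -
        ∑ᶠ v : FinitePlace K, Real.log (v E) := finsum_sub_distrib hs1 hs2
    have h2 : ∑ᶠ v : FinitePlace K, (e : ℝ) * Real.log (⨆ i, v (x i)) =
        e * ∑ᶠ v : FinitePlace K, Real.log (⨆ i, v (x i)) := by
      rw [mul_finsum]
    have h3 := sum_log hE0
    have h4 := height_eq hx0
    have h5 : ∑ w : InfinitePlace K, (w.mult : ℝ) * Real.log (w E) ≤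
        ∑ w : InfinitePlace K, (w.mult : ℝ) * (Real.log L + e * Real.log (⨆ i, w (x i))) := by
      refine Finset.sum_le_sum fun w _ => ?_
      have h6 : 0 < w E := w.1.pos hE0
      have h7 : 0 < ⨆ i, w (x i) := sup_pos hx0 w.1
      have h8 := Real.log_le_log h6 (hinf w)
      rw [Real.log_mul hL.ne' (pow_pos h7 _).ne', Real.log_pow] at h8
      exact mul_le_mul_of_nonneg_left h8 (Nat.cast_nonneg _)
    have h9 : ∑ w : InfinitePlace K, (w.mult : ℝ) * (Real.log L + e * Real.log (⨆ i, w (x i))) =
        Real.log L * dg K +
        e * ∑ w : InfinitePlace K, (w.mult : ℝ) * Real.log (⨆ i, w (x i)) := by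
      rw [← sum_mult, Finset.mul_sum, Finset.mul_sum, ← Finset.sum_add_distrib]
      refine Finset.sum_congr rfl fun w _ => ?_
      ring
    have h10 : (e : ℝ) * logHeight x =
        e * (∑ w : InfinitePlace K, (w.mult : ℝ) * Real.log (⨆ i, w (x i))) +
        e * ∑ᶠ v : FinitePlace K, Real.log (⨆ i, v (x i)) := by
      rw [h4]; ring
    linarith
  have hF : ∑ᶠ v, f v = RR x := (RR_eq x).symm
  have e1 : (Real.log L + Real.log c) * dg K = Real.log L * dg K + Real.log c * dg K := by ring
  rw [e1]
  linarith

end Pool.Agent.Q239.U
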