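import Pool.Agent.Q239.U.Integral
import Pool.Agent.Q239.NF.Final

/-!
# The abc inequality for the solutions of `x ^ p + y ^ q = z ^ r`
-/

set_option autoImplicit false

namespace Pool.Agent.Q239.U

open NumberField Height MvPolynomial Pool.Agent.Q239.NF

/-- a self-map whose values are of the form `(a ^ p, b ^ q, -c ^ r)` -/
structure SMap (p q r : ℕ) where
  M : UMap
  a : P2
  b : P2
  c : P2
  shape : ∀ (K : Type) [Field K] [NumberField K] (x : Fin 3 → K), Good x →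
    M.T x = ![ev (pr x) a ^ p, ev (pr x) b ^ q, -(ev (pr x) c) ^ r]
  gen : Gen (a ^ p) (b ^ q)

/-- from a pair of forms -/
noncomputable def SMap.of (s : Form2) {p q r : ℕ} (a b c : P2) (ha : s.F = a ^ p) (hb : s.G = b ^ q)
    (hc : s.F + s.G = c ^ r) (hg : Gen s.F s.G) : SMap p q r where
  M := s.toUMap
  a := a
  b := b
  c := c
  shape := by
    intro K _ _ x _
    show mapOf s.F s.G x = _
    unfold mapOf
    rw [← ev_add, hc, ha, hb]
    simp
  gen := by rw [← ha, ← hb]; exact hg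

noncomputable def sPow (j : ℕ) : SMap 1 (j + 1) (j + 1) :=
  SMap.of (formPow j) ((X 0 + X 1) ^ (j + 1) - X 1 ^ (j + 1)) (X 1) (X 0 + X 1)
    (by rw [pow_one]; rfl) rfl
    (by
      show ((X 0 + X 1) ^ (j + 1) - X 1 ^ (j + 1) + X 1 ^ (j + 1) : P2) = _
      rw [sub_add_cancel]) (genPow j)

lemma C_four_pow (j : ℕ) : (C (4 ^ j) : P2) = (2 ^ j) ^ 2 := by
  rw [map_pow]
  have : (C 4 : P2) = 4 := map_ofNat C 4
  rw [this, ← pow_mul, mul_comm j 2, pow_mul]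
  norm_num

noncomputable def sSq (j : ℕ) : SMap 2 (j + 1) 2 :=
  SMap.of (formSq j) (2 ^ j * (X 0 ^ (j + 1) - X 1 ^ (j + 1))) (4 * (X 0 * X 1))
    (2 ^ j * (X 0 ^ (j + 1) + X 1 ^ (j + 1)))
    (by
      show C (4 ^ j) * (X 0 ^ (j + 1) - X 1 ^ (j + 1)) ^ 2 = _
      rw [C_four_pow, mul_pow])
    (by
      show C (4 ^ (j + 1)) * (X 0 * X 1) ^ (j + 1) = _
      have : (C 4 : P2) = 4 := map_ofNat C 4
      rw [map_pow, this, ← mul_pow])
    (by
      show C (4 ^ j) * (X 0 ^ (j + 1) - X 1 ^ (j + 1)) ^ 2 + C (4 ^ (j + 1)) * (X 0 * X 1) ^ (j + 1)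
        = (_ : P2)
      have h4 : (C (4 ^ (j + 1)) : P2) = 4 * C (4 ^ j) := by
        rw [pow_succ, map_mul, mul_comm]
        congr 1
      rw [h4, C_four_pow, mul_pow (X 0) (X 1)]
      ring) (genSq j)

noncomputable def sTet : SMap 2 3 3 :=
  SMap.of formTet (tz (X 0) (X 1)) (-tx (X 0) (X 1)) (ty (X 0) (X 1)) rfl rfl
    (by
      show (tz (X 0) (X 1) ^ 2 + (-tx (X 0) (X 1)) ^ 3 : P2) = _
      rw [← t_id]; ring) genTet

noncomputable def sIco : SMap 2 3 5 :=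
  SMap.of formIco (2 ^ 12 * 3 ^ 6 * ((X 0 ^ 2 + X 1 ^ 2) ^ 2 * iuu ir is'))
    (2 ^ 8 * 3 ^ 4 * ihh ir is') (2 ^ 6 * 3 ^ 3 * iff ir is')
    (by
      show C (2 ^ 24 * 3 ^ 12) * ((X 0 ^ 2 + X 1 ^ 2) ^ 2 * iuu ir is') ^ 2 = _
      have h2 : (C (2 : ℤ) : P2) = 2 := map_ofNat C 2
      have h3 : (C (3 : ℤ) : P2) = 3 := map_ofNat C 3
      simp only [map_mul, map_pow, h2, h3]
      ring)
    (by
      show C (2 ^ 24 * 3 ^ 12) * ihh ir is' ^ 3 = _
      have h2 : (C (2 : ℤ) : P2) = 2 := map_ofNat C 2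
      have h3 : (C (3 : ℤ) : P2) = 3 := map_ofNat C 3
      simp only [map_mul, map_pow, h2, h3]
      ring)
    (by
      show (C (2 ^ 24 * 3 ^ 12) * ((X 0 ^ 2 + X 1 ^ 2) ^ 2 * iuu ir is') ^ 2 +
        C (2 ^ 24 * 3 ^ 12) * ihh ir is' ^ 3 : P2) = _
      have h2 : (C (2 : ℤ) : P2) = 2 := map_ofNat C 2
      have h3 : (C (3 : ℤ) : P2) = 3 := map_ofNat C 3
      rw [← i_sq, ← mul_add, i_syz]
      simp only [map_mul, map_pow, h2, h3]
      ring) genIco

lemma map_tx {A B : Type} [CommRing A] [CommRing B] (f : A →+* B) (r s : A) :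
    f (tx r s) = tx (f r) (f s) := by
  have h : f 8 = 8 := map_ofNat f 8
  simp only [tx, map_add, map_sub, map_mul, map_pow, h]
lemma map_ty {A B : Type} [CommRing A] [CommRing B] (f : A →+* B) (r s : A) :
    f (ty r s) = ty (f r) (f s) := by
  have h : f 4 = 4 := map_ofNat f 4
  simp only [ty, map_add, map_sub, map_mul, map_pow, h]
lemma map_tz {A B : Type} [CommRing A] [CommRing B] (f : A →+* B) (r s : A) :
    f (tz r s) = tz (f r) (f s) := by
  have h : f 8 = 8 := map_ofNat f 8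
  have h' : f 20 = 20 := map_ofNat f 20
  simp only [tz, map_add, map_sub, map_mul, map_pow, h, h']

lemma ev_tx {S : Type} [CommRing S] (x : Fin 2 → S) (r s : P2) :
    ev x (tx r s) = tx (ev x r) (ev x s) := map_tx (MvPolynomial.aeval x : P2 →ₐ[ℤ] S).toRingHom r s
lemma ev_ty {S : Type} [CommRing S] (x : Fin 2 → S) (r s : P2) :
    ev x (ty r s) = ty (ev x r) (ev x s) := map_ty (MvPolynomial.aeval x : P2 →ₐ[ℤ] S).toRingHom r s
lemma ev_tz {S : Type} [CommRing S] (x : Fin 2 → S) (r s : P2) :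
    ev x (tz r s) = tz (ev x r) (ev x s) := map_tz (MvPolynomial.aeval x : P2 →ₐ[ℤ] S).toRingHom r s

lemma ev_num {S : Type} [CommRing S] (x : Fin 2 → S) (n : ℕ) [n.AtLeastTwo] :
    ev x (OfNat.ofNat n : P2) = OfNat.ofNat n :=
  map_ofNat (MvPolynomial.aeval x : P2 →ₐ[ℤ] S).toRingHom n

/-- signature `(2,3,4)` -/
noncomputable def sOct : SMap 2 3 4 where
  M := formDbl.toUMap.comp formTet.toUMap
  a := 4 * (tz (X 0) (X 1) ^ 2 - 2 * tx (X 0) (X 1) ^ 3)
  b := 4 * (tx (X 0) (X 1) * ty (X 0) (X 1))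
  c := 2 * tz (X 0) (X 1)
  shape := by
    intro K _ _ x _
    show mapOf formDbl.F formDbl.G (mapOf formTet.F formTet.G x) = _
    have e0 : ∀ y : Fin 2 → K, ev y formDbl.F = 16 * (y 0 + 2 * y 1) ^ 2 := by
      intro y
      show ev y (C 16 * (X 0 + 2 * X 1) ^ 2) = _
      have h2 : ev y (2 : P2) = 2 := ev_num y 2
      simp only [ev_mul, ev_C, ev_pow, ev_add, ev_X, h2]
      norm_num
    have e1 : ∀ y : Fin 2 → K, ev y formDbl.G = -64 * (y 1 * (y 0 + y 1)) := by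
      intro y
      show ev y (C (-64) * (X 1 * (X 0 + X 1))) = _
      simp only [ev_mul, ev_C, ev_pow, ev_add, ev_X]
      norm_num
    have f0 : ev (pr x) formTet.F = tz (x 0) (x 1) ^ 2 := by
      show ev (pr x) (tz (X 0) (X 1) ^ 2) = _
      rw [ev_pow, ev_tz, ev_X, ev_X]; rfl
    have f1 : ev (pr x) formTet.G = (-tx (x 0) (x 1)) ^ 3 := by
      show ev (pr x) ((-tx (X 0) (X 1)) ^ 3) = _
      rw [ev_pow, ev_neg, ev_tx, ev_X, ev_X]; rfl
    have g0 : ev (pr x) (4 * (tz (X 0) (X 1) ^ 2 - 2 * tx (X 0) (X 1) ^ 3) : P2) =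
        4 * (tz (x 0) (x 1) ^ 2 - 2 * tx (x 0) (x 1) ^ 3) := by
      have h2 : ev (pr x) (2 : P2) = 2 := ev_num _ 2
      have h4 : ev (pr x) (4 : P2) = 4 := ev_num _ 4
      simp only [ev_mul, ev_sub, ev_pow, ev_tz, ev_tx, ev_X, h2, h4]; rfl
    have g1 : ev (pr x) (4 * (tx (X 0) (X 1) * ty (X 0) (X 1)) : P2) =
        4 * (tx (x 0) (x 1) * ty (x 0) (x 1)) := by
      have h4 : ev (pr x) (4 : P2) = 4 := ev_num _ 4
      simp only [ev_mul, ev_ty, ev_tx, ev_X, h4]; rfl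
    have g2 : ev (pr x) (2 * tz (X 0) (X 1) : P2) = 2 * tz (x 0) (x 1) := by
      have h2 : ev (pr x) (2 : P2) = 2 := ev_num _ 2
      simp only [ev_mul, ev_tz, ev_X, h2]; rfl
    have hid := t_id (x 0) (x 1)
    rw [g0, g1, g2]
    unfold mapOf
    have p0 : pr (![ev (pr x) formTet.F, ev (pr x) formTet.G,
      -(ev (pr x) formTet.F + ev (pr x) formTet.G)] : Fin 3 → K) =
      ![ev (pr x) formTet.F, ev (pr x) formTet.G] := rfl
    rw [p0, e0, e1, f0, f1]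
    funext i
    fin_cases i
    · show 16 * (tz (x 0) (x 1) ^ 2 + 2 * (-tx (x 0) (x 1)) ^ 3) ^ 2 =
        (4 * (tz (x 0) (x 1) ^ 2 - 2 * tx (x 0) (x 1) ^ 3)) ^ 2
      ring
    · show -64 * ((-tx (x 0) (x 1)) ^ 3 * (tz (x 0) (x 1) ^ 2 + (-tx (x 0) (x 1)) ^ 3)) =
        (4 * (tx (x 0) (x 1) * ty (x 0) (x 1))) ^ 3
      rw [← hid]; ring
    · show -(16 * (tz (x 0) (x 1) ^ 2 + 2 * (-tx (x 0) (x 1)) ^ 3) ^ 2 +
        -64 * ((-tx (x 0) (x 1)) ^ 3 * (tz (x 0) (x 1) ^ 2 + (-tx (x 0) (x 1)) ^ 3))) =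
        -(2 * tz (x 0) (x 1)) ^ 4
      ring
  gen := by
    refine gen_comp genDbl genTet (fun {R} _ x => ?_) (fun {R} _ x => ?_)
    · have e0 : ∀ y : Fin 2 → R, ev y formDbl.F = 16 * (y 0 + 2 * y 1) ^ 2 := by
        intro y
        show ev y (C 16 * (X 0 + 2 * X 1) ^ 2) = _
        have h2 : ev y (2 : P2) = 2 := ev_num y 2
        simp only [ev_mul, ev_C, ev_pow, ev_add, ev_X, h2]
        norm_num
      have f0 : ev x formTet.F = tz (x 0) (x 1) ^ 2 := by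
        show ev x (tz (X 0) (X 1) ^ 2) = _
        rw [ev_pow, ev_tz, ev_X, ev_X]
      have f1 : ev x formTet.G = (-tx (x 0) (x 1)) ^ 3 := by
        show ev x ((-tx (X 0) (X 1)) ^ 3) = _
        rw [ev_pow, ev_neg, ev_tx, ev_X, ev_X]
      have g0 : ev x (4 * (tz (X 0) (X 1) ^ 2 - 2 * tx (X 0) (X 1) ^ 3) : P2) =
          4 * (tz (x 0) (x 1) ^ 2 - 2 * tx (x 0) (x 1) ^ 3) := by
        have h2 : ev x (2 : P2) = 2 := ev_num _ 2
        have h4 : ev x (4 : P2) = 4 := ev_num _ 4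
        simp only [ev_mul, ev_sub, ev_pow, ev_tz, ev_tx, ev_X, h2, h4]
      rw [ev_pow, g0, e0, f0, f1]
      show _ = 16 * (tz (x 0) (x 1) ^ 2 + 2 * (-tx (x 0) (x 1)) ^ 3) ^ 2
      ring
    · have e1 : ∀ y : Fin 2 → R, ev y formDbl.G = -64 * (y 1 * (y 0 + y 1)) := by
        intro y
        show ev y (C (-64) * (X 1 * (X 0 + X 1))) = _
        simp only [ev_mul, ev_C, ev_pow, ev_add, ev_X]
        norm_num
      have f0 : ev x formTet.F = tz (x 0) (x 1) ^ 2 := by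
        show ev x (tz (X 0) (X 1) ^ 2) = _
        rw [ev_pow, ev_tz, ev_X, ev_X]
      have f1 : ev x formTet.G = (-tx (x 0) (x 1)) ^ 3 := by
        show ev x ((-tx (X 0) (X 1)) ^ 3) = _
        rw [ev_pow, ev_neg, ev_tx, ev_X, ev_X]
      have g1 : ev x (4 * (tx (X 0) (X 1) * ty (X 0) (X 1)) : P2) =
          4 * (tx (x 0) (x 1) * ty (x 0) (x 1)) := by
        have h4 : ev x (4 : P2) = 4 := ev_num _ 4
        simp only [ev_mul, ev_ty, ev_tx, ev_X, h4]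
      have hid := t_id (x 0) (x 1)
      rw [ev_pow, g1, e1, f0, f1]
      show _ = -64 * ((-tx (x 0) (x 1)) ^ 3 * (tz (x 0) (x 1) ^ 2 + (-tx (x 0) (x 1)) ^ 3))
      rw [← hid]; ring

/-- the vectors `(a ^ p, b ^ q, -c ^ r)` with integers `a`, `b`, `c` such that `n` is in the ideal
generated by `a ^ p`, `b ^ q`, `c ^ r` -/
def Sol {K : Type} [Field K] [NumberField K] (p q r n : ℕ) : Set (Fin 3 → K) :=
  {x | ∃ a b c : 𝓞 K, x = ![(a : K) ^ p, (b : K) ^ q, -(c : K) ^ r] ∧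
    (n : 𝓞 K) ∈ Ideal.span {a ^ p, b ^ q, c ^ r}}

lemma ev_coe {K : Type} [Field K] [NumberField K] (y : Fin 2 → 𝓞 K) (x : Fin 2 → K)
    (h : ∀ i, (y i : K) = x i) (p : P2) : ((ev y p : 𝓞 K) : K) = ev x p := by
  have h1 : x = fun i => algebraMap (𝓞 K) K (y i) := by
    funext i
    rw [← h i]
  subst h1
  unfold ev
  have := MvPolynomial.aeval_algebraMap_apply (A := 𝓞 K) (B := K) (R := ℤ) y p
  exact this.symm

theorem SMap.main {p q r : ℕ} (s : SMap p q r) (K : Type) [Field K] [NumberField K] :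
    ∃ n : ℕ, n ≠ 0 ∧ (abcOn (Sol (K := K) p q r n) → abcOn (Set.univ : Set (Fin 3 → K))) := by
  obtain ⟨n0, hn0, hint⟩ := exists_integral K
  obtain ⟨c0, N, hc0, hgen⟩ := s.gen
  refine ⟨c0 * n0 ^ (2 * N), by positivity, fun hS ε hε => ?_⟩
  obtain ⟨ε', hε', hp⟩ := s.M.pull hε
  obtain ⟨C', hC'⟩ := hS ε' hε'
  have hdg := dg_pos K
  obtain ⟨C'', hC''⟩ := hp (C' / dg K) 0
  refine ⟨C'' * dg K, fun x _ hx => ?_⟩
  obtain ⟨l, hl, y, hy, hn⟩ := hint (pr x) (pr_ne hx)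
  have hx' : Good (l • x) := hx.smul hl
  have e1 : logHeight (l • x) = logHeight x := logHeight_smul_eq_logHeight x hl
  have e2 : RR (l • x) = RR x := RR_smul x hl
  have main := hC'' K 0 (l • x) le_rfl hx' ?_
  · rw [e1, e2, add_zero] at main
    exact main
  intro hT _
  have hcoe : ∀ i, (y i : K) = pr (l • x) i := by
    intro i
    rw [hy i]
    fin_cases i <;> rfl
  have hmem : s.M.T (l • x) ∈ Sol (K := K) p q r (c0 * n0 ^ (2 * N)) := by
    refine ⟨ev y s.a, ev y s.b, ev y s.c, ?_, ?_⟩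
    · rw [s.shape K _ hx', ev_coe y _ hcoe, ev_coe y _ hcoe, ev_coe y _ hcoe]
    · have hsub : Ideal.span {ev y s.a ^ p, ev y s.b ^ q} ≤
          Ideal.span {ev y s.a ^ p, ev y s.b ^ q, ev y s.c ^ r} := by
        apply Ideal.span_mono
        intro z hz
        simp only [Set.mem_insert_iff, Set.mem_singleton_iff] at hz ⊢
        tauto
      apply hsub
      have g0 := hgen (𝓞 K) y 0
      have g1 := hgen (𝓞 K) y 1
      simp only [ev_pow] at g0 g1
      obtain ⟨α, β, hαβ⟩ := Ideal.mem_span_pair.1 hn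
      have key : ((n0 : 𝓞 K)) ^ (2 * N) ∈ Ideal.span {y 0 ^ N, y 1 ^ N} := by
        rw [← hαβ]
        apply Ideal.add_pow_mem_of_pow_mem_of_le (m := N) (n := N)
        · rw [mul_pow]
          exact Ideal.mul_mem_left _ _ (Ideal.subset_span (by simp))
        · rw [mul_pow]
          exact Ideal.mul_mem_left _ _ (Ideal.subset_span (by simp))
        · omega
      obtain ⟨α', β', h'⟩ := Ideal.mem_span_pair.1 key
      have e : ((c0 * n0 ^ (2 * N) : ℕ) : 𝓞 K) = α' * ((c0 : 𝓞 K) * y 0 ^ N) +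
          β' * ((c0 : 𝓞 K) * y 1 ^ N) := by
        push_cast
        rw [← h']; ring
      rw [e]
      exact Ideal.add_mem _ (Ideal.mul_mem_left _ _ g0) (Ideal.mul_mem_left _ _ g1)
  have h3 := hC' _ hmem hT
  rw [add_zero, div_mul_cancel₀ _ hdg.ne']
  exact h3

end Pool.Agent.Q239.U
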