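import Pool.Agent.Q239.U.Map

/-!
# Tools for lower bounds of pairs of forms
-/

set_option autoImplicit false

namespace Pool.Agent.Q239.U

open NumberField Height MvPolynomial Pool.Agent.Q239.NF

/-- binary forms with integer coefficients -/
abbrev P2 : Type := MvPolynomial (Fin 2) ℤ

lemma hom_cast {p : P2} {m n : ℕ} (h : p.IsHomogeneous m) (e : m = n) : p.IsHomogeneous n := e ▸ h

lemma hXi (i : Fin 2) : (X i : P2).IsHomogeneous 1 := isHomogeneous_X ℤ i

lemma hCz (c : ℤ) {p : P2} {n : ℕ} (hp : p.IsHomogeneous n) : (C c * p).IsHomogeneous n := by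
  simpa using (isHomogeneous_C (Fin 2) c).mul hp

lemma hof (n : ℕ) [n.AtLeastTwo] {p : P2} {d : ℕ} (hp : p.IsHomogeneous d) :
    ((OfNat.ofNat n : P2) * p).IsHomogeneous d := by
  have : (OfNat.ofNat n : P2) = C (OfNat.ofNat n : ℤ) := (map_ofNat C n).symm
  rw [this]
  exact hCz _ hp

theorem zeroBdd {p : P2} {n : ℕ} (hp : p.IsHomogeneous n)
    (h0 : ev (![1, 0] : Fin 2 → ℤ) p ≠ 0) : ZeroBdd p := zero_bdd hp h0

section places

variable {K : Type} [Field K] [NumberField K]

lemma m_nn (v : AbsoluteValue K ℝ) (x : Fin 2 → K) : 0 ≤ ⨆ i, v (x i) := sup_nn v x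

lemma m_pos (v : AbsoluteValue K ℝ) {x : Fin 2 → K} (hx : x ≠ 0) : 0 < ⨆ i, v (x i) :=
  sup_pos hx v

lemma nat_one_le (w : InfinitePlace K) {a : ℕ} (ha : a ≠ 0) : 1 ≤ w (a : K) := by
  rw [inf_nat]
  exact_mod_cast Nat.one_le_iff_ne_zero.2 ha

lemma int_one_le (w : InfinitePlace K) {a : ℤ} (ha : a ≠ 0) : 1 ≤ w (a : K) := by
  rw [inf_int]
  exact_mod_cast Int.one_le_abs ha

lemma fin_natAbs (v : FinitePlace K) (a : ℤ) : v ((a.natAbs : ℕ) : K) = v (a : K) := by
  rcases Int.natAbs_eq a with h | h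
  · conv_rhs => rw [h]
    simp
  · conv_rhs => rw [h]
    rw [Int.cast_neg, Int.cast_natCast]
    exact (v.1.map_neg _).symm

end places

/-- the alternative: one of two forms is large -/
def Alt (f g : P2) (p q : ℕ) : Prop :=
  ∃ (c : ℕ) (L : ℝ), c ≠ 0 ∧ 1 ≤ L ∧ ∀ (K : Type) [Field K] [NumberField K] (x : Fin 2 → K),
    x ≠ 0 →
    (∀ v : FinitePlace K, v (c : K) * (⨆ i, v (x i)) ^ p ≤ v (ev x f) ∨
      v (c : K) * (⨆ i, v (x i)) ^ q ≤ v (ev x g)) ∧
    (∀ w : InfinitePlace K, (⨆ i, w (x i)) ^ p ≤ L * w (ev x f) ∨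
      (⨆ i, w (x i)) ^ q ≤ L * w (ev x g))

theorem alt_of {f g A B A' B' : P2} {a b p q N : ℕ} (c : ℕ) (hc : c ≠ 0)
    (hA : A.IsHomogeneous a) (hB : B.IsHomogeneous b) (hA' : A'.IsHomogeneous a)
    (hB' : B'.IsHomogeneous b) (hp : a + p = N) (hq : b + q = N)
    (h0 : A * f + B * g = C (c : ℤ) * X 0 ^ N) (h1 : A' * f + B' * g = C (c : ℤ) * X 1 ^ N) :
    Alt f g p q := by
  have nA := one_le_nrm A
  have nB := one_le_nrm B
  have nA' := one_le_nrm A'
  have nB' := one_le_nrm B'
  set M : ℝ := nrm A + nrm B + nrm A' + nrm B' with hM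
  refine ⟨c, 2 * M, hc, by linarith, fun K _ _ x hx => ⟨fun v => ?_, fun w => ?_⟩⟩
  · set m : ℝ := ⨆ i, v (x i) with hm
    have hm0 : 0 < m := m_pos v.1 hx
    have hmi : ∀ i, v (x i) ≤ m := fun i => le_sup' v.1 x i
    by_contra hcon
    push Not at hcon
    obtain ⟨hf, hg⟩ := hcon
    have hc0 : 0 < v (c : K) := v.1.pos (by exact_mod_cast hc)
    -- both cofactor products are smaller than v c * m ^ N
    have key : ∀ (A B : P2), A.IsHomogeneous a → B.IsHomogeneous b →
        v (ev x A * ev x f + ev x B * ev x g) < v (c : K) * m ^ N := by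
      intro A B hA hB
      have a1 : v (ev x A) ≤ m ^ a := fin_form v hA x hm0.le hmi
      have b1 : v (ev x B) ≤ m ^ b := fin_form v hB x hm0.le hmi
      refine (FinitePlace.add_le v _ _).trans_lt (max_lt ?_ ?_)
      · rw [map_mul]
        calc v (ev x A) * v (ev x f) ≤ m ^ a * v (ev x f) := by
              have : 0 ≤ v (ev x f) := v.1.nonneg _
              gcongr
          _ < m ^ a * (v (c : K) * m ^ p) := by gcongr
          _ = v (c : K) * m ^ N := by rw [← hp, pow_add]; ring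
      · rw [map_mul]
        calc v (ev x B) * v (ev x g) ≤ m ^ b * v (ev x g) := by
              have : 0 ≤ v (ev x g) := v.1.nonneg _
              gcongr
          _ < m ^ b * (v (c : K) * m ^ q) := by gcongr
          _ = v (c : K) * m ^ N := by rw [← hq, pow_add]; ring
    have k0 := key A B hA hB
    have k1 := key A' B' hA' hB'
    have e0 := congrArg (ev x) h0
    have e1 := congrArg (ev x) h1
    simp only [ev_add, ev_mul, ev_C, ev_pow, ev_X, Int.cast_natCast] at e0 e1
    rw [e0, map_mul, map_pow] at k0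
    rw [e1, map_mul, map_pow] at k1
    have q0 : v (x 0) < m := lt_of_pow_lt_pow_left₀ N hm0.le (lt_of_mul_lt_mul_left k0 hc0.le)
    have q1 : v (x 1) < m := lt_of_pow_lt_pow_left₀ N hm0.le (lt_of_mul_lt_mul_left k1 hc0.le)
    have : m = max (v (x 0)) (v (x 1)) := sup2 v.1 x
    rcases max_choice (v (x 0)) (v (x 1)) with h | h <;> rw [h] at this <;> linarith
  · set m : ℝ := ⨆ i, w (x i) with hm
    have hm0 : 0 < m := m_pos w.1 hx
    have hmi : ∀ i, w (x i) ≤ m := fun i => le_sup' w.1 x i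
    by_contra hcon
    push Not at hcon
    obtain ⟨hf, hg⟩ := hcon
    have hc1 : 1 ≤ w (c : K) := nat_one_le w hc
    have key : ∀ (A B : P2), A.IsHomogeneous a → B.IsHomogeneous b → nrm A ≤ M → nrm B ≤ M →
        w (ev x A * ev x f + ev x B * ev x g) < m ^ N := by
      intro A B hA hB hAM hBM
      have a1 : w (ev x A) ≤ nrm A * m ^ a := inf_form w hA x hm0.le hmi
      have b1 : w (ev x B) ≤ nrm B * m ^ b := inf_form w hB x hm0.le hmi
      have hf0 : 0 ≤ w (ev x f) := w.1.nonneg _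
      have hg0 : 0 ≤ w (ev x g) := w.1.nonneg _
      have s1 : w (ev x A * ev x f + ev x B * ev x g) ≤
          w (ev x A) * w (ev x f) + w (ev x B) * w (ev x g) := by
        have : w (ev x A * ev x f + ev x B * ev x g) ≤ w (ev x A * ev x f) + w (ev x B * ev x g) :=
          w.1.add_le _ _
        rwa [map_mul, map_mul] at this
      have ma : 0 < m ^ a := pow_pos hm0 _
      have mb : 0 < m ^ b := pow_pos hm0 _
      have s2 : w (ev x A) * w (ev x f) ≤ m ^ a * (M * w (ev x f)) := by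
        calc w (ev x A) * w (ev x f) ≤ (M * m ^ a) * w (ev x f) := by
              gcongr
              exact a1.trans (by gcongr)
          _ = _ := by ring
      have s3 : w (ev x B) * w (ev x g) ≤ m ^ b * (M * w (ev x g)) := by
        calc w (ev x B) * w (ev x g) ≤ (M * m ^ b) * w (ev x g) := by
              gcongr
              exact b1.trans (by gcongr)
          _ = _ := by ring
      have s4 : m ^ a * (M * w (ev x f)) < m ^ N / 2 := by
        have : M * w (ev x f) < m ^ p / 2 := by linarith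
        calc m ^ a * (M * w (ev x f)) < m ^ a * (m ^ p / 2) := by gcongr
          _ = m ^ N / 2 := by rw [← hp, pow_add]; ring
      have s5 : m ^ b * (M * w (ev x g)) < m ^ N / 2 := by
        have : M * w (ev x g) < m ^ q / 2 := by linarith
        calc m ^ b * (M * w (ev x g)) < m ^ b * (m ^ q / 2) := by gcongr
          _ = m ^ N / 2 := by rw [← hq, pow_add]; ring
      linarith
    have k0 := key A B hA hB (by linarith) (by linarith)
    have k1 := key A' B' hA' hB' (by linarith) (by linarith)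
    have e0 := congrArg (ev x) h0
    have e1 := congrArg (ev x) h1
    simp only [ev_add, ev_mul, ev_C, ev_pow, ev_X, Int.cast_natCast] at e0 e1
    rw [e0, map_mul, map_pow] at k0
    rw [e1, map_mul, map_pow] at k1
    have t0 : 0 ≤ w (x 0) ^ N := pow_nonneg (w.1.nonneg _) _
    have t1 : 0 ≤ w (x 1) ^ N := pow_nonneg (w.1.nonneg _) _
    have q0 : w (x 0) < m := lt_of_pow_lt_pow_left₀ N hm0.le (by nlinarith)
    have q1 : w (x 1) < m := lt_of_pow_lt_pow_left₀ N hm0.le (by nlinarith)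
    have : m = max (w (x 0)) (w (x 1)) := sup2 w.1 x
    rcases max_choice (w (x 0)) (w (x 1)) with h | h <;> rw [h] at this <;> linarith

theorem lo_of_alt {f g : P2} {p q i j D : ℕ} (h : Alt f g p q) (k l : ℤ) (hk : k ≠ 0)
    (hl : l ≠ 0) (hi : p * i = D) (hj : q * j = D) :
    LoBdd (C k * f ^ i) (C l * g ^ j) D := by
  obtain ⟨c, L, hc, hL, h⟩ := h
  have hka : k.natAbs ≠ 0 := Int.natAbs_ne_zero.2 hk
  have hla : l.natAbs ≠ 0 := Int.natAbs_ne_zero.2 hl
  refine ⟨k.natAbs * l.natAbs * c ^ (i + j), L ^ (i + j), by positivity, one_le_pow₀ hL,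
    fun K _ _ x hx => ⟨fun v => ?_, fun w => ?_⟩⟩
  · set m : ℝ := ⨆ i, v (x i) with hm
    have hm0 : 0 < m := m_pos v.1 hx
    have hc1 : v (c : K) ≤ 1 := nat_le v c
    have hk1 : v (k : K) ≤ 1 := int_le v k
    have hl1 : v (l : K) ≤ 1 := int_le v l
    have hc0 : 0 ≤ v (c : K) := v.1.nonneg _
    have hk0 : 0 ≤ v (k : K) := v.1.nonneg _
    have hl0 : 0 ≤ v (l : K) := v.1.nonneg _
    have e : v (((k.natAbs * l.natAbs * c ^ (i + j) : ℕ)) : K) =
        v (k : K) * v (l : K) * (v (c : K) ^ i * v (c : K) ^ j) := by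
      push_cast
      rw [map_mul, map_mul, map_pow, pow_add]
      have h1 := fin_natAbs v k
      have h2 := fin_natAbs v l
      rw [← h1, ← h2]
    rw [e]
    simp only [ev_mul, ev_C, ev_pow, map_mul, map_pow]
    rcases (h K x hx).1 v with h1 | h1
    · refine le_max_of_le_left ?_
      have h2 := pow_le_pow_left₀ (by positivity) h1 i
      rw [mul_pow, ← pow_mul, hi] at h2
      have h3 : v (c : K) ^ j ≤ 1 := pow_le_one₀ hc0 hc1
      have h4 : 0 ≤ v (c : K) ^ i := pow_nonneg hc0 _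
      have h5 : 0 ≤ v (c : K) ^ j := pow_nonneg hc0 _
      calc v (k : K) * v (l : K) * (v (c : K) ^ i * v (c : K) ^ j) * m ^ D
          = v (k : K) * (v (l : K) * v (c : K) ^ j) * (v (c : K) ^ i * m ^ D) := by ring
        _ ≤ v (k : K) * (1 * 1) * v (ev x f) ^ i := by gcongr
        _ = _ := by ring
    · refine le_max_of_le_right ?_
      have h2 := pow_le_pow_left₀ (by positivity) h1 j
      rw [mul_pow, ← pow_mul, hj] at h2
      have h3 : v (c : K) ^ i ≤ 1 := pow_le_one₀ hc0 hc1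
      have h4 : 0 ≤ v (c : K) ^ j := pow_nonneg hc0 _
      have h5 : 0 ≤ v (c : K) ^ i := pow_nonneg hc0 _
      calc v (k : K) * v (l : K) * (v (c : K) ^ i * v (c : K) ^ j) * m ^ D
          = v (l : K) * (v (k : K) * v (c : K) ^ i) * (v (c : K) ^ j * m ^ D) := by ring
        _ ≤ v (l : K) * (1 * 1) * v (ev x g) ^ j := by gcongr
        _ = _ := by ring
  · set m : ℝ := ⨆ i, w (x i) with hm
    have hm0 : 0 < m := m_pos w.1 hx
    have hk1 : 1 ≤ w (k : K) := int_one_le w hk
    have hl1 : 1 ≤ w (l : K) := int_one_le w hl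
    have hi1 : 1 ≤ L ^ i := one_le_pow₀ hL
    have hj1 : 1 ≤ L ^ j := one_le_pow₀ hL
    have hL0 : 0 < L := by linarith
    simp only [ev_mul, ev_C, ev_pow, map_mul, map_pow]
    have hf0 : 0 ≤ w (ev x f) := w.1.nonneg _
    have hg0 : 0 ≤ w (ev x g) := w.1.nonneg _
    rcases (h K x hx).2 w with h1 | h1
    · have h2 := pow_le_pow_left₀ (by positivity) h1 i
      rw [mul_pow, ← pow_mul, hi] at h2
      calc m ^ D ≤ L ^ i * w (ev x f) ^ i := h2
        _ = 1 * L ^ i * (1 * w (ev x f) ^ i) := by ring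
        _ ≤ L ^ j * L ^ i * (w (k : K) * w (ev x f) ^ i) := by gcongr
        _ = L ^ (i + j) * (w (k : K) * w (ev x f) ^ i) := by rw [pow_add]; ring
        _ ≤ _ := by
            gcongr
            exact le_max_left _ _
    · have h2 := pow_le_pow_left₀ (by positivity) h1 j
      rw [mul_pow, ← pow_mul, hj] at h2
      calc m ^ D ≤ L ^ j * w (ev x g) ^ j := h2
        _ = 1 * L ^ j * (1 * w (ev x g) ^ j) := by ring
        _ ≤ L ^ i * L ^ j * (w (l : K) * w (ev x g) ^ j) := by gcongr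
        _ = L ^ (i + j) * (w (l : K) * w (ev x g) ^ j) := by rw [pow_add]
        _ ≤ _ := by
            gcongr
            exact le_max_right _ _

/-- two of the three forms `F`, `G`, `-(F + G)` are as good as any two -/
theorem lo_third_left {F G : P2} {D : ℕ} (h : LoBdd (-(F + G)) G D) : LoBdd F G D := by
  obtain ⟨a, L, ha, hL, h⟩ := h
  refine ⟨a, 2 * L, ha, by linarith, fun K _ _ x hx => ⟨fun v => ?_, fun w => ?_⟩⟩
  · refine ((h K x hx).1 v).trans (max_le ?_ (le_max_right _ _))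
    simp only [ev_neg, ev_add]
    have : v (-(ev x F + ev x G)) = v (ev x F + ev x G) := v.1.map_neg _
    rw [this]
    exact FinitePlace.add_le v _ _
  · refine ((h K x hx).2 w).trans ?_
    have h1 : w (-(ev x F + ev x G)) = w (ev x F + ev x G) := w.1.map_neg _
    have h2 : w (ev x F + ev x G) ≤ w (ev x F) + w (ev x G) := w.1.add_le _ _
    have h3 := le_max_left (w (ev x F)) (w (ev x G))
    have h4 := le_max_right (w (ev x F)) (w (ev x G))
    have h5 : 0 ≤ w (ev x G) := w.1.nonneg _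
    have h6 : max (w (ev x (-(F + G)))) (w (ev x G)) ≤ 2 * max (w (ev x F)) (w (ev x G)) := by
      apply max_le
      · simp only [ev_neg, ev_add]
        rw [h1]; linarith
      · linarith
    nlinarith

theorem lo_third_right {F G : P2} {D : ℕ} (h : LoBdd F (-(F + G)) D) : LoBdd F G D := by
  obtain ⟨a, L, ha, hL, h⟩ := h
  refine ⟨a, 2 * L, ha, by linarith, fun K _ _ x hx => ⟨fun v => ?_, fun w => ?_⟩⟩
  · refine ((h K x hx).1 v).trans (max_le (le_max_left _ _) ?_)
    simp only [ev_neg, ev_add]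
    have : v (-(ev x F + ev x G)) = v (ev x F + ev x G) := v.1.map_neg _
    rw [this]
    exact FinitePlace.add_le v _ _
  · refine ((h K x hx).2 w).trans ?_
    have h1 : w (-(ev x F + ev x G)) = w (ev x F + ev x G) := w.1.map_neg _
    have h2 : w (ev x F + ev x G) ≤ w (ev x F) + w (ev x G) := w.1.add_le _ _
    have h3 := le_max_left (w (ev x F)) (w (ev x G))
    have h4 := le_max_right (w (ev x F)) (w (ev x G))
    have h5 : 0 ≤ w (ev x F) := w.1.nonneg _
    have h6 : max (w (ev x F)) (w (ev x (-(F + G)))) ≤ 2 * max (w (ev x F)) (w (ev x G)) := by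
      apply max_le
      · linarith
      · simp only [ev_neg, ev_add]
        rw [h1]; linarith
    nlinarith

/-- composition of two pairs of forms -/
theorem lo_comp {F G r s F' G' : P2} {D t D' : ℕ} (h : LoBdd F G D) (h' : LoBdd r s t)
    (hF : ∀ {R : Type} [CommRing R] (x : Fin 2 → R), ev x F' = ev ![ev x r, ev x s] F)
    (hG : ∀ {R : Type} [CommRing R] (x : Fin 2 → R), ev x G' = ev ![ev x r, ev x s] G)
    (hD : t * D = D') :
    LoBdd F' G' D' := by
  obtain ⟨a, L, ha, hL, h⟩ := h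
  obtain ⟨b, M, hb, hM, h'⟩ := h'
  refine ⟨a * b ^ D, M ^ D * L, by positivity, ?_, fun K _ _ x hx => ?_⟩
  · have := one_le_pow₀ hM (n := D)
    nlinarith
  have hy : (![ev x r, ev x s] : Fin 2 → K) ≠ 0 := by
    intro h0
    have e0 : ev x r = 0 := congrFun h0 0
    have e1 : ev x s = 0 := congrFun h0 1
    obtain ⟨w⟩ : Nonempty (InfinitePlace K) := inferInstance
    have h2 := (h' K x hx).2 w
    have hm0 : 0 < ⨆ i, w (x i) := m_pos w.1 hx
    have h3 : 0 < (⨆ i, w (x i)) ^ t := pow_pos hm0 t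
    rw [e0, e1, map_zero, max_self, mul_zero] at h2
    linarith
  refine ⟨fun v => ?_, fun w => ?_⟩
  · have h1 := (h K _ hy).1 v
    have h2 := (h' K x hx).1 v
    have e : (⨆ i, v ((![ev x r, ev x s] : Fin 2 → K) i)) = max (v (ev x r)) (v (ev x s)) :=
      sup2 v.1 _
    rw [e] at h1
    rw [hF, hG]
    have hm0 : 0 < ⨆ i, v (x i) := m_pos v.1 hx
    have ha0 : 0 ≤ v (a : K) := v.1.nonneg _
    have hb0 : 0 ≤ v (b : K) := v.1.nonneg _
    calc v ((a * b ^ D : ℕ) : K) * (⨆ i, v (x i)) ^ D'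
        = v (a : K) * (v (b : K) * (⨆ i, v (x i)) ^ t) ^ D := by
          rw [← hD, mul_pow, ← pow_mul]
          push_cast
          rw [map_mul, map_pow]
          ring
      _ ≤ v (a : K) * (max (v (ev x r)) (v (ev x s))) ^ D := by gcongr
      _ ≤ _ := h1
  · have h1 := (h K _ hy).2 w
    have h2 := (h' K x hx).2 w
    have e : (⨆ i, w ((![ev x r, ev x s] : Fin 2 → K) i)) = max (w (ev x r)) (w (ev x s)) :=
      sup2 w.1 _
    rw [e] at h1
    rw [hF, hG]
    have hm0 : 0 < ⨆ i, w (x i) := m_pos w.1 hx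
    have hM0 : 0 < M := by linarith
    calc (⨆ i, w (x i)) ^ D' = ((⨆ i, w (x i)) ^ t) ^ D := by rw [← hD, pow_mul]
      _ ≤ (M * max (w (ev x r)) (w (ev x s))) ^ D := by gcongr
      _ = M ^ D * (max (w (ev x r)) (w (ev x s))) ^ D := mul_pow _ _ _
      _ ≤ M ^ D * (L * _) := by gcongr
      _ = _ := by ring

lemma lo_one {F G : P2} {p : ℕ} (h : Alt F G p p) : LoBdd F G p := by
  have := lo_of_alt h 1 1 one_ne_zero one_ne_zero (i := 1) (j := 1) (D := p) (by ring) (by ring)
  simpa using this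

end Pool.Agent.Q239.U
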