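import Pool.Agent.Q239.U.Almost

/-!
# The uniform abc inequality with normalised heights
-/

set_option autoImplicit false

namespace Pool.Agent.Q239.U

open NumberField Height Pool.Agent.Q239.NF

/-- the logarithm of the root discriminant -/
noncomputable def logRootDisc (K : Type) [Field K] [NumberField K] : ℝ :=
  Real.log |((NumberField.discr K : ℤ) : ℝ)| / (Module.finrank ℚ K : ℝ)

/-- the uniform abc inequality, over all number fields, for the triples of the class `S`:
for every `ε > 0` there is `C` such that `log H(x) ≤ (1 + ε) (log δ_K + log N(x)) + C` for all number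
fields `K` and all `x` in `S K` with `x 0 + x 1 + x 2 = 0` and nonzero coordinates; here
`log H = height` and `log N = rad` -/
def UniformABC (S : ∀ (K : Type) [Field K] [NumberField K], Set (Fin 3 → K)) : Prop :=
  ∀ ε : ℝ, 0 < ε → ∃ C : ℝ, ∀ (K : Type) [Field K] [NumberField K] (x : Fin 3 → K), x ∈ S K →
    x 0 + x 1 + x 2 = 0 → (∀ i, x i ≠ 0) →
    height x ≤ (1 + ε) * (logRootDisc K + rad x) + C

theorem uniform_iff (S : Cls) : UniformABC S ↔ uabc S := by
  have key : ∀ (K : Type) [Field K] [NumberField K] (x : Fin 3 → K) (ε C : ℝ),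
      height x ≤ (1 + ε) * (logRootDisc K + rad x) + C ↔
      logHeight x ≤ (1 + ε) * (RR x + ldisc K) + C * dg K := by
    intro K _ _ x ε C
    have hd := dg_pos K
    have h1 : height x = logHeight x / dg K := rfl
    have h2 : rad x = RR x / dg K := rfl
    have h3 : logRootDisc K = ldisc K / dg K := rfl
    rw [h1, h2, h3, div_le_iff₀ hd]
    have e : ((1 + ε) * (ldisc K / dg K + RR x / dg K) + C) * dg K =
        (1 + ε) * (RR x + ldisc K) + C * dg K := by
      field_simp
      ring
    rw [e]
  unfold UniformABC uabc
  refine forall_congr' fun ε => forall_congr' fun hε => exists_congr fun C => ?_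
  constructor
  · intro h K _ _ x hx hg
    exact (key K x ε C).1 (h K x hx hg.1 hg.2)
  · intro h K _ _ x hx h0 h1
    exact (key K x ε C).2 (h K x hx ⟨h0, h1⟩)

theorem uniform_mono {S S' : Cls} (h : ∀ (K : Type) [Field K] [NumberField K], S K ⊆ S' K) :
    UniformABC S' → UniformABC S :=
  fun hS ε hε => (hS ε hε).imp fun _ hC K _ _ x hx => hC K x (h K hx)

end Pool.Agent.Q239.U
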