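import Pool.Agent.Q239.U.Sphere

/-!
# The uniform abc inequality over all number fields
-/

set_option autoImplicit false

namespace Pool.Agent.Q239.U

open NumberField Height MvPolynomial Pool.Agent.Q239.NF

/-- the logarithm of the discriminant -/
noncomputable def ldisc (K : Type) [Field K] [NumberField K] : ℝ :=
  Real.log |((NumberField.discr K : ℤ) : ℝ)|

lemma ldisc_nonneg (K : Type) [Field K] [NumberField K] : 0 ≤ ldisc K := by
  unfold ldisc
  apply Real.log_nonneg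
  have h : NumberField.discr K ≠ 0 := NumberField.discr_ne_zero K
  have := Int.one_le_abs h
  exact_mod_cast this

/-- classes of vectors over all number fields -/
abbrev Cls : Type 1 := ∀ (K : Type) [Field K] [NumberField K], Set (Fin 3 → K)

/-- the uniform abc inequality (without division by the degree) on the class `S` -/
def uabc (S : Cls) : Prop :=
  ∀ ε : ℝ, 0 < ε → ∃ C : ℝ, ∀ (K : Type) [Field K] [NumberField K] (x : Fin 3 → K), x ∈ S K →
    Good x → logHeight x ≤ (1 + ε) * (RR x + ldisc K) + C * dg K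

theorem uabc_of (M : UMap) (S : Cls) (B : ℝ)
    (hS : ∀ (K : Type) [Field K] [NumberField K] (x : Fin 3 → K), Good x → x 2 = 1 →
      Good (M.T x) → B * dg K ≤ logHeight (M.T x) → M.T x ∈ S K) :
    uabc S → uabc (fun _ _ _ => Set.univ) := by
  intro h ε hε
  obtain ⟨ε', hε', hp⟩ := M.pull hε
  obtain ⟨C', hC'⟩ := h ε' hε'
  obtain ⟨C'', hC''⟩ := hp C' B
  refine ⟨C'', fun K _ _ x _ hx => ?_⟩
  have hx2 := hx.2 2
  have hy : Good ((x 2)⁻¹ • x) := hx.smul (inv_ne_zero hx2)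
  have hy2 : ((x 2)⁻¹ • x) 2 = 1 := by
    rw [Pi.smul_apply, smul_eq_mul, inv_mul_cancel₀ hx2]
  have e1 : logHeight ((x 2)⁻¹ • x) = logHeight x :=
    logHeight_smul_eq_logHeight x (inv_ne_zero hx2)
  have e2 : RR ((x 2)⁻¹ • x) = RR x := RR_smul x (inv_ne_zero hx2)
  have := hC'' K (ldisc K) _ (ldisc_nonneg K) hy (fun hT hB => hC' K _ (hS K _ hy hy2 hT hB) hT)
  rwa [e1, e2] at this

/-! ### primitive solutions -/

/-- the values of the map are primitive outside `n`, up to a power -/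
def PrimAt (T : ∀ {K : Type} [Field K] [NumberField K], (Fin 3 → K) → (Fin 3 → K)) (D n : ℕ) : Prop :=
  ∀ (K : Type) [Field K] [NumberField K] (x : Fin 3 → K), x 2 = -(x 0 + x 1) → x ≠ 0 →
    ∀ v : FinitePlace K, v (n : K) = 1 → (⨆ i, v (T x i)) = (⨆ i, v (x i)) ^ D

lemma pr_ne' {K : Type} [Field K] [NumberField K] {x : Fin 3 → K} (h : x 2 = -(x 0 + x 1))
    (hx : x ≠ 0) : pr x ≠ 0 := by
  intro h0
  have e0 : x 0 = 0 := congrFun h0 0
  have e1 : x 1 = 0 := congrFun h0 1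
  apply hx
  funext i
  fin_cases i
  · exact e0
  · exact e1
  · show x 2 = 0
    rw [h, e0, e1, add_zero, neg_zero]

theorem Form2.prim (s : Form2) : ∃ n : ℕ, n ≠ 0 ∧
    PrimAt (fun {K} _ _ x => mapOf s.F s.G x) (s.e + 1) n := by
  obtain ⟨a, L, ha, hL, hlo⟩ := s.lo
  refine ⟨a, ha, fun K _ _ x hx hx0 v hv => ?_⟩
  have h1 : (⨆ i, v (pr x i)) = max (v (pr x 0)) (v (pr x 1)) := sup2 v.1 (pr x)
  have h2 := (hlo K (pr x) (pr_ne' hx hx0)).1 v
  rw [hv, one_mul, h1] at h2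
  have h3 := sup3_fin v hx
  have h4 : mapOf s.F s.G x 2 = -(mapOf s.F s.G x 0 + mapOf s.F s.G x 1) := rfl
  rw [sup3_fin v h4, h3]
  apply le_antisymm
  · have hle : ∀ i, v (pr x i) ≤ max (v (x 0)) (v (x 1)) := by
      intro i
      fin_cases i
      · exact le_max_left _ _
      · exact le_max_right _ _
    have hm0 : 0 ≤ max (v (x 0)) (v (x 1)) := (v.1.nonneg _).trans (hle 0)
    exact max_le (fin_form v s.hF (pr x) hm0 hle) (fin_form v s.hG (pr x) hm0 hle)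
  · exact h2

/-- the vectors `(a ^ p, b ^ q, -c ^ r)` over `K` such that at every prime not dividing `n` the
minimum of the orders is divisible by the least common multiple of `p, q, r` -/
def PSol {K : Type} [Field K] [NumberField K] (p q r n : ℕ) : Set (Fin 3 → K) :=
  {x | (∃ a b c : K, x = ![a ^ p, b ^ q, -c ^ r]) ∧
    ∀ v : FinitePlace K, v (n : K) = 1 → ∃ t : K, t ≠ 0 ∧
      (⨆ i, v (x i)) = v t ^ (Nat.lcm p (Nat.lcm q r))}

theorem SMap.uniform {p q r : ℕ} (s : SMap p q r) (D n : ℕ) (hn : n ≠ 0)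
    (hD : Nat.lcm p (Nat.lcm q r) ∣ D) (hp : PrimAt s.M.T D n) :
    uabc (fun K _ _ => PSol (K := K) p q r n) → uabc (fun _ _ _ => Set.univ) := by
  refine uabc_of s.M _ 0 fun K _ _ x hx _ hT _ => ⟨⟨_, _, _, s.shape K x hx⟩, fun v hv => ?_⟩
  obtain ⟨k, hk⟩ := hD
  have h := hp K x (third hx) hx.ne_zero v hv
  have h3 := sup3_fin v (third hx)
  rcases max_choice (v (x 0)) (v (x 1)) with h4 | h4
  · refine ⟨x 0 ^ k, pow_ne_zero _ (hx.2 0), ?_⟩
    rw [h, h3, h4, map_pow, hk, ← pow_mul]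
    congr 1
    ring
  · refine ⟨x 1 ^ k, pow_ne_zero _ (hx.2 1), ?_⟩
    rw [h, h3, h4, map_pow, hk, ← pow_mul]
    congr 1
    ring

theorem prim_comp (A B : Form2) : ∃ n : ℕ, n ≠ 0 ∧ PrimAt (fun {K} _ _ x =>
    (A.toUMap.comp B.toUMap).T x) ((B.e + 1) * (A.e + 1)) n := by
  obtain ⟨a, ha, hA⟩ := A.prim
  obtain ⟨b, hb, hB⟩ := B.prim
  refine ⟨a * b, Nat.mul_ne_zero ha hb, fun K _ _ x hx hx0 v hv => ?_⟩
  have a1 : v (a : K) ≤ 1 := nat_le v a
  have b1 : v (b : K) ≤ 1 := nat_le v b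
  have a0 : 0 ≤ v (a : K) := v.1.nonneg _
  have b0 : 0 ≤ v (b : K) := v.1.nonneg _
  rw [Nat.cast_mul, map_mul] at hv
  have hva : v (a : K) = 1 := by
    apply le_antisymm a1
    by_contra h
    push Not at h
    nlinarith
  have hvb : v (b : K) = 1 := by rw [hva, one_mul] at hv; exact hv
  have h1 := hB K x hx hx0 v hvb
  have hm0 : 0 < ⨆ i, v (x i) := sup_pos hx0 v.1
  have hne : mapOf B.F B.G x ≠ 0 := by
    intro h0
    simp only [h0] at h1
    have h2 : (⨆ i, v ((0 : Fin 3 → K) i)) = 0 := by simp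
    rw [h2] at h1
    exact absurd h1 (pow_pos hm0 _).ne
  have h2 := hA K (mapOf B.F B.G x) rfl hne v hva
  show (⨆ i, v (mapOf A.F A.G (mapOf B.F B.G x) i)) = _
  rw [h2, h1, pow_mul]

/-- **the uniform theorem for the spherical signatures** -/
theorem uniform_sphere (p q r : ℕ)
    (h : (p, q, r) = (2, 3, 5) ∨ (p, q, r) = (2, 3, 4) ∨ (p, q, r) = (2, 3, 3) ∨
      (∃ k : ℕ, 1 ≤ k ∧ (p, q, r) = (2, k, 2)) ∨ ∃ k : ℕ, 1 ≤ k ∧ (p, q, r) = (1, k, k)) :
    ∃ n : ℕ, n ≠ 0 ∧ (uabc (fun K _ _ => PSol (K := K) p q r n) → uabc (fun _ _ _ => Set.univ)) := by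
  rcases h with h | h | h | ⟨k, hk, h⟩ | ⟨k, hk, h⟩
  · simp only [Prod.mk.injEq] at h
    obtain ⟨rfl, rfl, rfl⟩ := h
    obtain ⟨n, hn, h⟩ := formIco.prim
    exact ⟨n, hn, sIco.uniform 120 n hn (by decide) h⟩
  · simp only [Prod.mk.injEq] at h
    obtain ⟨rfl, rfl, rfl⟩ := h
    obtain ⟨n, hn, h⟩ := prim_comp formDbl formTet
    exact ⟨n, hn, sOct.uniform 24 n hn (by decide) h⟩
  · simp only [Prod.mk.injEq] at h
    obtain ⟨rfl, rfl, rfl⟩ := h
    obtain ⟨n, hn, h⟩ := formTet.prim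
    exact ⟨n, hn, sTet.uniform 12 n hn (by decide) h⟩
  · obtain ⟨j, rfl⟩ : ∃ j, k = j + 1 := ⟨k - 1, by omega⟩
    simp only [Prod.mk.injEq] at h
    obtain ⟨rfl, rfl, rfl⟩ := h
    obtain ⟨n, hn, h⟩ := (formSq j).prim
    refine ⟨n, hn, (sSq j).uniform (2 * j + 1 + 1) n hn ?_ h⟩
    have e : 2 * j + 1 + 1 = 2 * (j + 1) := by ring
    rw [e]
    apply Nat.lcm_dvd
    · exact Dvd.intro _ rfl
    · exact Nat.lcm_dvd (Dvd.intro_left _ rfl) (Dvd.intro _ rfl)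
  · obtain ⟨j, rfl⟩ : ∃ j, k = j + 1 := ⟨k - 1, by omega⟩
    simp only [Prod.mk.injEq] at h
    obtain ⟨rfl, rfl, rfl⟩ := h
    obtain ⟨n, hn, h⟩ := (formPow j).prim
    refine ⟨n, hn, (sPow j).uniform (j + 1) n hn ?_ h⟩
    exact Nat.lcm_dvd (one_dvd _) (Nat.lcm_dvd dvd_rfl dvd_rfl)

end Pool.Agent.Q239.U
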